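import Mathlib
import Pool.Agent.Lib.MP_89bcae_ag.Xs.Defs

/-!
# The elliptic surfaces `y ^ 2 = x (x ^ 2 + a(t) x + b(t))`
-/

open Polynomial IsDedekindDomain

open scoped Classical

namespace Pool.Agent.Lib.MP_89bcae_ag.Xe

open Pool.Agent.Lib.MP_89bcae_ag.Ze

open Pool.Agent.Lib.MP_89bcae_ag.Xs (ord aF Cst)

section

variable {k : Type} [Field k]

/-- The polynomial `x (x ^ 2 + a(t) x + b(t))`, in `x` with coefficients in `k[t]`. -/
noncomputable def surf (a b : k[X]) : k[X][X] := X * (X ^ 2 + C a * X + C b)

/-- The polynomial `a(t) ^ 2 - 4 b(t)`. -/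
noncomputable def disc (a b : k[X]) : k[X] := a ^ 2 - 4 * b

/-- The characteristic is not `2`, we have `n ≥ 2`, the degree of `a` is at most `2 n`, the polynomials `b` and `a ^ 2 - 4 b`
have degree `4 n`, their product has no multiple roots, and all the pairs of a permutation of the roots of `b` and a
permutation of the roots of `a ^ 2 - 4 b` in `F` are induced by automorphisms of `F` over `k`. -/
structure IsGeneral (F : Type) [Field F] [Algebra k F] (n : ℕ) (a b : k[X]) : Prop where
  two_ne_zero : (2 : k) ≠ 0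
  two_le : 2 ≤ n
  natDegree_le : a.natDegree ≤ 2 * n
  natDegree_eq : b.natDegree = 4 * n
  natDegree_disc : (disc a b).natDegree = 4 * n
  separable : (b * disc a b).Separable
  galois : ∀ (g : Equiv.Perm (b.rootSet F)) (h : Equiv.Perm ((disc a b).rootSet F)), ∃ σ : F ≃ₐ[k] F,
    (∀ s : b.rootSet F, σ (s : F) = g s) ∧ ∀ s : (disc a b).rootSet F, σ (s : F) = h s

end

section

set_option linter.unusedSectionVars false

variable {k F L : Type} [Field k] [Field F] [Algebra k F] [Field L] [Algebra F[X] L] [IsFractionRing F[X] L]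

/-- The polynomial `x ^ 2 + a(t) x + b(t)` over `L = F(t)`. -/
noncomputable def quad (F L : Type) [Field F] [Algebra k F] [Field L] [Algebra F[X] L] (a b : k[X]) : L[X] :=
  X ^ 2 + C (algebraMap F[X] L (aF F a)) * X + C (algebraMap F[X] L (aF F b))

/-- The polynomial `x (x ^ 2 + a(t) x + b(t))` over `L = F(t)`. -/
lemma poly_surf (a b : k[X]) : poly F L (surf a b) = X * quad F L a b := by
  unfold poly surf Zs.ext quad aF
  simp only [Polynomial.map_mul, Polynomial.map_add, Polynomial.map_pow, map_X, map_C, coe_mapRingHom]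

lemma aF_disc (a b : k[X]) : aF F (disc a b) = aF F a ^ 2 - 4 * aF F b := by
  unfold aF disc
  rw [Polynomial.map_sub, Polynomial.map_pow, Polynomial.map_mul]
  norm_num

lemma quad_monic (a b : k[X]) : (quad F L a b).Monic := by
  unfold quad
  monicity!

lemma quad_natDegree (a b : k[X]) : (quad F L a b).natDegree = 2 := by
  unfold quad
  compute_degree!

lemma poly_monic (a b : k[X]) : (poly F L (surf a b)).Monic := by
  rw [poly_surf]
  exact monic_X.mul (quad_monic a b)

lemma poly_natDegree (a b : k[X]) : (poly F L (surf a b)).natDegree = 3 := by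
  rw [poly_surf, monic_X.natDegree_mul (quad_monic a b), natDegree_X, quad_natDegree]

/-- The component `x = 0`. -/
noncomputable def pi1 (F L : Type) [Field F] [Algebra k F] [Field L] [Algebra F[X] L] [IsFractionRing F[X] L]
    (a b : k[X]) : AdjoinRoot (poly F L (surf a b)) →+* L :=
  AdjoinRoot.lift (RingHom.id L) 0 (by
    rw [poly_surf, eval₂_mul, eval₂_X, zero_mul])

lemma pi1_mk (a b : k[X]) (A : L[X]) : pi1 F L a b (AdjoinRoot.mk _ A) = A.eval 0 := by
  unfold pi1
  rw [AdjoinRoot.lift_mk, eval₂_id]

/-- The component `x ^ 2 + a(t) x + b(t) = 0`. -/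
noncomputable def pi0 (F L : Type) [Field F] [Algebra k F] [Field L] [Algebra F[X] L] [IsFractionRing F[X] L]
    (a b : k[X]) : AdjoinRoot (poly F L (surf a b)) →+* AdjoinRoot (quad F L a b) :=
  AdjoinRoot.lift (AdjoinRoot.of _) (AdjoinRoot.root _) (by
    rw [poly_surf, eval₂_mul, AdjoinRoot.eval₂_root, mul_zero])

lemma pi0_mk (a b : k[X]) (A : L[X]) :
    pi0 F L a b (AdjoinRoot.mk _ A) = AdjoinRoot.mk (quad F L a b) A := by
  unfold pi0
  rw [AdjoinRoot.lift_mk, ← AdjoinRoot.algebraMap_eq, ← aeval_def, AdjoinRoot.aeval_eq]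

/-- The component `u` of the curve `x ^ 2 + a(t) x + b(t) = 0` is `q` times a square. -/
def IsQ (F L : Type) [Field F] [Algebra k F] [Field L] [Algebra F[X] L] [IsFractionRing F[X] L] (a b : k[X])
    (u : AdjoinRoot (poly F L (surf a b))) (q : L) : Prop :=
  q ≠ 0 ∧ ∃ v : AdjoinRoot (quad F L a b), pi0 F L a b u = AdjoinRoot.of _ q * v ^ 2

end

/-! ### The places as embeddings in the field of the Laurent series -/

section

variable {F : Type} [Field F]

/-- The valuation of the field of the Laurent series. -/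
noncomputable def vX (F : Type) [Field F] : Valuation (LaurentSeries F) (WithZero (Multiplicative ℤ)) :=
  (PowerSeries.idealX F).valuation (LaurentSeries F)

/-- The Laurent series of a power series. -/
noncomputable abbrev toL (F : Type) [Field F] : PowerSeries F →+* LaurentSeries F := algebraMap (PowerSeries F) (LaurentSeries F)

variable {L : Type} [Field L] [Algebra F[X] L]

/-- The homomorphism `e` to the field of the Laurent series fixes the constants and maps `τ` to the variable. -/
structure IsPlace (e : L →+* LaurentSeries F) (τ : L) : Prop where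
  const : ∀ c : F, e (algebraMap F[X] L (C c)) = toL F (PowerSeries.C c)
  var : e τ = toL F PowerSeries.X

end

section

variable {k F L : Type} [Field k] [Field F] [Algebra k F] [Field L] [Algebra F[X] L]

/-- The data of a chart: `a = w α(τ)`, `b = w ^ 2 β(τ)`, `w ^ 3 = z ^ 2`, and a place with the parameter `τ`. -/
structure IsLoc (a b : k[X]) (α β : F[X]) (τ w z : L) (e : L →+* LaurentSeries F) : Prop where
  param : (∃ s : F, τ = algebraMap F[X] L (X - C s)) ∨ τ = (algebraMap F[X] L X)⁻¹
  w_ne : w ≠ 0
  z_ne : z ≠ 0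
  pow : w ^ 3 = z ^ 2
  a_eq : algebraMap F[X] L (aF F a) = w * α.eval₂ ((algebraMap F[X] L).comp C) τ
  b_eq : algebraMap F[X] L (aF F b) = w ^ 2 * β.eval₂ ((algebraMap F[X] L).comp C) τ
  place : IsPlace e τ

end

end Pool.Agent.Lib.MP_89bcae_ag.Xe
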