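import Mathlib
import Pool.Agent.Lib.MP_89bcae_ag.Xe.Defs
import Pool.Agent.Lib.MP_89bcae_ag.Xs.Ord

/-!
# The places as embeddings in the field of the Laurent series
-/

open Polynomial IsDedekindDomain

open scoped Classical

namespace Pool.Agent.Lib.MP_89bcae_ag.Xe

open Pool.Agent.Lib.MP_89bcae_ag.Ze

open Pool.Agent.Lib.MP_89bcae_ag.Xs (ord aF Cst)

section

variable {F : Type} [Field F]

variable {L : Type} [Field L] [Algebra F[X] L]

/-- A polynomial in `τ`. [For a power series this is `p(X)`.] -/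
lemma IsPlace.poly {e : L →+* LaurentSeries F} {τ : L} (h : IsPlace e τ) (p : F[X]) :
    e (p.eval₂ ((algebraMap F[X] L).comp C) τ) = toL F (p : PowerSeries F) := by
  have h1 : e.comp (eval₂RingHom ((algebraMap F[X] L).comp C) τ) =
      (toL F).comp (Polynomial.coeToPowerSeries.ringHom) := by
    apply Polynomial.ringHom_ext
    · intro c
      rw [RingHom.comp_apply, RingHom.comp_apply, coe_eval₂RingHom, eval₂_C,
        RingHom.comp_apply, h.const, Polynomial.coeToPowerSeries.ringHom_apply, Polynomial.coe_C]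
    · rw [RingHom.comp_apply, RingHom.comp_apply, coe_eval₂RingHom, eval₂_X, h.var,
        Polynomial.coeToPowerSeries.ringHom_apply, Polynomial.coe_X]
  exact RingHom.congr_fun h1 p

lemma vX_toL (f : PowerSeries F) : vX F (toL F f) ≤ 1 :=
  HeightOneSpectrum.valuation_le_one _ _

lemma vX_toL_lt (f : PowerSeries F) : vX F (toL F f) < 1 ↔ PowerSeries.constantCoeff f = 0 := by
  unfold vX
  rw [HeightOneSpectrum.valuation_of_algebraMap, HeightOneSpectrum.intValuation_lt_one_iff_mem]
  change f ∈ Ideal.span {PowerSeries.X} ↔ _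
  rw [Ideal.mem_span_singleton, PowerSeries.X_dvd_iff]

private lemma SerA_X : vX F (toL F PowerSeries.X) = WithZero.exp (-1 : ℤ) := by
  unfold vX
  rw [HeightOneSpectrum.valuation_of_algebraMap, PowerSeries.intValuation_X]

/-- `p ↦ p(X + r)` -/
private noncomputable def SerA_sh (r : F) : F[X] →+* LaurentSeries F :=
  (toL F).comp ((Polynomial.coeToPowerSeries.ringHom).comp (compRingHom (X + C r)))

private lemma SerA_sh_apply (r : F) (p : F[X]) :
    SerA_sh r p = toL F ((p.comp (X + C r) : F[X]) : PowerSeries F) := rfl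

private lemma SerA_inj (r : F) : Function.Injective (SerA_sh r) := by
  rw [injective_iff_map_eq_zero]
  intro p hp
  rw [SerA_sh_apply] at hp
  have h1 : ((p.comp (X + C r) : F[X]) : PowerSeries F) = 0 :=
    (map_eq_zero_iff _ (IsFractionRing.injective (PowerSeries F) (LaurentSeries F))).1 hp
  have h2 : p.comp (X + C r) = 0 := by
    apply Polynomial.coe_injective F
    rw [h1, Polynomial.coe_zero]
  have h3 : (p.comp (X + C r)).comp (X - C r) = p := by
    rw [comp_assoc, add_comp, X_comp, C_comp, sub_add_cancel, comp_X]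
  rw [← h3, h2, zero_comp]

private lemma SerA_val (r : F) {p : F[X]} (hp : p ≠ 0) :
    vX F (SerA_sh r p) = WithZero.exp (-(p.rootMultiplicity r : ℤ)) := by
  obtain ⟨q, hq, hqr⟩ := exists_eq_pow_rootMultiplicity_mul_and_not_dvd p hp r
  have e1 : vX F (SerA_sh r (X - C r)) = WithZero.exp (-1 : ℤ) := by
    rw [SerA_sh_apply, sub_comp, X_comp, C_comp, add_sub_cancel_right, Polynomial.coe_X, SerA_X]
  have e2 : vX F (SerA_sh r q) = 1 := by
    rw [SerA_sh_apply]
    refine le_antisymm (vX_toL _) (not_lt.1 fun h => ?_)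
    rw [vX_toL_lt, Polynomial.constantCoeff_coe, coeff_zero_eq_eval_zero, eval_comp, eval_add,
      eval_X, eval_C, zero_add] at h
    exact hqr (dvd_iff_isRoot.2 h)
  have h1 : SerA_sh r p = SerA_sh r ((X - C r) ^ p.rootMultiplicity r * q) := congrArg _ hq
  rw [h1, map_mul, map_pow, map_mul, map_pow, e1, e2, mul_one, ← WithZero.exp_nsmul]
  congr 1
  simp

/-- The place `t = r`. -/
theorem exists_place (L : Type) [Field L] [Algebra F[X] L] [IsFractionRing F[X] L] (r : F) :
    ∃ e : L →+* LaurentSeries F, IsPlace e (algebraMap F[X] L (X - C r)) ∧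
      ∀ x : L, x ≠ 0 → vX F (e x) = WithZero.exp (-ord r x) := by
  refine ⟨IsFractionRing.lift (SerA_inj r), ⟨fun c => ?_, ?_⟩, fun x hx => ?_⟩
  · rw [IsFractionRing.lift_algebraMap, SerA_sh_apply, C_comp, Polynomial.coe_C]
  · rw [IsFractionRing.lift_algebraMap, SerA_sh_apply, sub_comp, X_comp, C_comp,
      add_sub_cancel_right, Polynomial.coe_X]
  · obtain ⟨p, q, hq, rfl⟩ := IsFractionRing.div_surjective (A := F[X]) x
    have hq0 : q ≠ 0 := nonZeroDivisors.ne_zero hq
    have hp0 : p ≠ 0 := by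
      rintro rfl
      apply hx
      rw [map_zero, zero_div]
    have hp1 : algebraMap F[X] L p ≠ 0 := fun h0 => hp0 ((IsFractionRing.to_map_eq_zero_iff).mp h0)
    have hq1 : algebraMap F[X] L q ≠ 0 := fun h0 => hq0 ((IsFractionRing.to_map_eq_zero_iff).mp h0)
    rw [map_div₀, map_div₀, IsFractionRing.lift_algebraMap, IsFractionRing.lift_algebraMap,
      SerA_val r hp0, SerA_val r hq0, div_eq_mul_inv (algebraMap F[X] L p),
      Xs.ord_mul r hp1 (inv_ne_zero hq1), Xs.ord_inv, Xs.ord_algebraMap r hp0,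
      Xs.ord_algebraMap r hq0, ← WithZero.exp_sub]
    congr 1
    ring

end

end Pool.Agent.Lib.MP_89bcae_ag.Xe
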