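import Mathlib

/-!
# Hensel's lemma for a quadratic polynomial over the power series
-/

open Polynomial IsDedekindDomain

open scoped Classical

namespace Pool.Agent.Lib.MP_89bcae_ag.Xe

section

variable {F : Type} [Field F]

private lemma SerC_coeff (p : F[X]) : PowerSeries.constantCoeff (p : PowerSeries F) = p.eval 0 := by
  rw [Polynomial.constantCoeff_coe, Polynomial.coeff_zero_eq_eval_zero]

/-- Hensel's lemma for a quadratic polynomial. -/
theorem exists_root {α β : F[X]} {x : F} (h : x ^ 2 + α.eval 0 * x + β.eval 0 = 0) (h' : 2 * x + α.eval 0 ≠ 0) :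
    ∃ y : PowerSeries F, y ^ 2 + (α : PowerSeries F) * y + (β : PowerSeries F) = 0 ∧
      PowerSeries.constantCoeff y = x := by
  let P : (PowerSeries F)[X] := X ^ 2 + C (α : PowerSeries F) * X + C (β : PowerSeries F)
  have hP : P.Monic := by
    unfold P
    monicity!
  have hev : ∀ y : PowerSeries F, P.eval y = y ^ 2 + (α : PowerSeries F) * y + (β : PowerSeries F) := by
    intro y
    simp [P]
  have hder : ∀ y : PowerSeries F, P.derivative.eval y = 2 * y + (α : PowerSeries F) := by
    intro y
    simp [P, derivative_pow]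
  have h1 : P.eval (PowerSeries.C x) ∈ (Ideal.span {PowerSeries.X} : Ideal (PowerSeries F)) := by
    rw [Ideal.mem_span_singleton, PowerSeries.X_dvd_iff, hev]
    simp only [map_add, map_mul, map_pow, SerC_coeff, PowerSeries.constantCoeff_C]
    exact h
  have h2 : IsUnit (Ideal.Quotient.mk (Ideal.span {PowerSeries.X} : Ideal (PowerSeries F))
      (P.derivative.eval (PowerSeries.C x))) := by
    apply IsUnit.map
    rw [PowerSeries.isUnit_iff_constantCoeff, hder]
    simp only [map_add, map_mul, SerC_coeff, PowerSeries.constantCoeff_C, map_ofNat]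
    exact isUnit_iff_ne_zero.2 h'
  obtain ⟨y, hy, hyx⟩ := HenselianRing.is_henselian P hP (PowerSeries.C x) h1 h2
  refine ⟨y, ?_, ?_⟩
  · rw [← hev]
    exact hy
  · rw [Ideal.mem_span_singleton, PowerSeries.X_dvd_iff, map_sub, PowerSeries.constantCoeff_C,
      sub_eq_zero] at hyx
    exact hyx

end

end Pool.Agent.Lib.MP_89bcae_ag.Xe
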