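import Mathlib
import Pool.Agent.Lib.MP_89bcae_ag.Xe.Defs
import Pool.Agent.Lib.MP_89bcae_ag.Xe.SerA
import Pool.Agent.Lib.MP_89bcae_ag.Xe.SerC

/-!
# The charts of the surface `y ^ 2 = x (x ^ 2 + a(t) x + b(t))`
-/

open Polynomial IsDedekindDomain

open scoped Classical

namespace Pool.Agent.Lib.MP_89bcae_ag.Xe

open Pool.Agent.Lib.MP_89bcae_ag.Ze

open Pool.Agent.Lib.MP_89bcae_ag.Zp (IsSmoothAt)

open Pool.Agent.Lib.MP_89bcae_ag.Xs (ord aF Cst)

/-- The polynomial of a chart. -/
private noncomputable def locPoly {R : Type} [CommRing R] (α β : R) : R[X] := X * (X ^ 2 + C α * X + C β)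

private lemma locPoly_natDegree {R : Type} [CommRing R] [Nontrivial R] (α β : R) :
    (locPoly α β).natDegree = 3 := by
  have h1 : (X ^ 2 + C α * X + C β : R[X]).Monic := by monicity!
  have h2 : (X ^ 2 + C α * X + C β : R[X]).natDegree = 2 := by compute_degree!
  unfold locPoly
  rw [monic_X.natDegree_mul h1, natDegree_X, h2]

private lemma locPoly_map {R S : Type} [CommRing R] [CommRing S] (f : R →+* S) (α β : R) :
    (locPoly α β).map f = locPoly (f α) (f β) := by
  unfold locPoly
  simp only [Polynomial.map_mul, Polynomial.map_add, Polynomial.map_pow, map_X, map_C]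

section

variable {k F L : Type} [Field k] [Field F] [Algebra k F] [Field L] [Algebra F[X] L] [IsFractionRing F[X] L]

/-- `p (w X) = z ^ 2 X (X ^ 2 + α(τ) X + β(τ))`. -/
lemma IsLoc.isChart {a b : k[X]} {α β : F[X]} {τ w z : L} {e : L →+* LaurentSeries F} (h : IsLoc a b α β τ w z e) :
    IsChart 2 F (poly F L (surf a b)) (X * (X ^ 2 + C α * X + C β)) τ 0 w := by
  refine ⟨h.param, ?_, h.w_ne, z, h.z_ne, ?_⟩
  · intro h0
    change (locPoly α β).map (evalRingHom 0) = 0 at h0
    rw [locPoly_map] at h0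
    have h1 := locPoly_natDegree (evalRingHom 0 α) (evalRingHom 0 β)
    rw [h0, natDegree_zero] at h1
    omega
  · change _ = C (z ^ 2) * (locPoly α β).map _
    rw [locPoly_map, poly_surf, ← h.pow, coe_eval₂RingHom]
    unfold quad locPoly
    rw [h.a_eq, h.b_eq, mul_comp, add_comp, add_comp, mul_comp, pow_comp, X_comp, C_comp, C_comp, C_0, zero_add]
    simp only [C_mul, C_pow]
    ring

/-- The centre `(0, 0)` on the component `x = 0`, smooth as `β(0) ≠ 0`; the valuation ring is the one of the valuation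
`(vX F).comap e`. The degree of `φ(0, X)` is `3`, so `c = 0`. -/
theorem IsLoc.pi1 {a b : k[X]} {α β : F[X]} {τ w z : L} {e : L →+* LaurentSeries F} (h : IsLoc a b α β τ w z e)
    (h0 : β.eval 0 ≠ 0) {u : (AdjoinRoot (poly F L (surf a b)))ˣ} (hu : u ∈ unramified 2 F (poly F L (surf a b))) :
    ∃ y : LaurentSeries F, y ≠ 0 ∧ vX F (e (pi1 F L a b u)) = vX F y ^ 2 := by
  obtain ⟨c, hc, hcc⟩ := hu.2 _ _ 0 w h.isChart
  have hc0 : c = 0 := hc (by
    change ((locPoly α β).map (evalRingHom 0)).natDegree = _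
    rw [locPoly_map, locPoly_natDegree, poly_natDegree])
  have halg : ∀ y : L, Xe.pi1 F L a b (algebraMap L (AdjoinRoot (poly F L (surf a b))) y) = y := by
    intro y
    rw [AdjoinRoot.algebraMap_eq, ← AdjoinRoot.mk_C, pi1_mk, eval_C]
  have hroot : Xe.pi1 F L a b (AdjoinRoot.root (poly F L (surf a b))) = 0 := by
    rw [← AdjoinRoot.mk_X, pi1_mk, eval_X]
  have hsurj : Function.Surjective (Xe.pi1 F L a b) := fun y => ⟨_, halg y⟩
  have hcentre : IsCentre F (poly F L (surf a b)) (Xe.pi1 F L a b) ((vX F).comap e).valuationSubring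
      (X * (X ^ 2 + C α * X + C β)) τ 0 w 0 := by
    refine ⟨fun c => ?_, ?_, ?_, ?_⟩
    · rw [halg, Valuation.mem_valuationSubring_iff, Valuation.comap_apply, h.place.const]
      exact vX_toL _
    · rw [halg, ← (Valuation.isEquiv_valuation_valuationSubring _).lt_one_iff_lt_one, Valuation.comap_apply,
        h.place.var, vX_toL_lt]
      exact PowerSeries.constantCoeff_X
    · rw [map_zero, sub_zero, hroot, zero_div, halg, C_0, map_zero, sub_zero, map_zero]
      exact zero_lt_one
    · intro _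
      left
      change (derivative ((locPoly α β).map (evalRingHom 0))).eval 0 ≠ 0
      rw [locPoly_map]
      unfold locPoly
      simpa [derivative_mul, derivative_pow] using h0
  obtain ⟨v, hv⟩ := hcc L (Xe.pi1 F L a b) hsurj _ _ hcentre
  rw [hc0, zpow_zero, one_mul] at hv
  refine ⟨e v, fun h1 => v.ne_zero ((map_eq_zero e).1 h1), ?_⟩
  have h3 := (Valuation.isEquiv_valuation_valuationSubring ((vX F).comap e)).eq_iff.mpr hv
  rw [Valuation.comap_apply, Valuation.comap_apply, map_pow, map_pow] at h3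
  exact h3

/-- Let `x` be a nonzero root of `X ^ 2 + α(0) X + β(0)`, `y` the root of `X ^ 2 + α X + β` congruent to `x` (`exists_root`), `j` the
homomorphism of `L[x] / quad` which extends `e` and maps `x` to `e(w) y`. The centre is `(0, x)`, the valuation ring is
the one of the valuation `(vX F).comap j`. -/
theorem IsLoc.q [IsAlgClosed F] (h2 : (2 : k) ≠ 0) {a b : k[X]} (hirr : Irreducible (quad F L a b)) {α β : F[X]}
    {τ w z : L} {e : L →+* LaurentSeries F} (h : IsLoc a b α β τ w z e) (h0 : α.eval 0 ^ 2 - 4 * β.eval 0 ≠ 0)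
    {u : (AdjoinRoot (poly F L (surf a b)))ˣ} (hu : u ∈ unramified 2 F (poly F L (surf a b))) {q : L}
    (hq : IsQ F L a b u q) : ∃ y : LaurentSeries F, y ≠ 0 ∧ vX F (e q) = vX F y ^ 2 := by
  have h2F : (2 : F) ≠ 0 := by
    intro h
    apply h2
    apply (algebraMap k F).injective
    rw [map_ofNat, map_zero]
    exact h
  -- a nonzero root
  obtain ⟨x, hx, hx0⟩ : ∃ x : F, x ^ 2 + α.eval 0 * x + β.eval 0 = 0 ∧ x ≠ 0 := by
    obtain ⟨d, hd⟩ := IsAlgClosed.exists_pow_nat_eq (α.eval 0 ^ 2 - 4 * β.eval 0) two_pos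
    by_cases h3 : -α.eval 0 + d = 0
    · refine ⟨(-α.eval 0 - d) / 2, ?_, ?_⟩
      · field_simp
        linear_combination hd
      · intro h4
        have h5 : -α.eval 0 - d = 0 := (div_eq_zero_iff.1 h4).resolve_right h2F
        have h6 : d = 0 := by
          have : 2 * d = 0 := by linear_combination h3 - h5
          exact (mul_eq_zero.1 this).resolve_left h2F
        rw [h6, zero_pow two_ne_zero] at hd
        exact h0 hd.symm
    · refine ⟨(-α.eval 0 + d) / 2, ?_, ?_⟩
      · field_simp
        linear_combination hd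
      · exact div_ne_zero h3 h2F
  have hx' : 2 * x + α.eval 0 ≠ 0 := by
    intro h3
    apply h0
    linear_combination (2 * x + α.eval 0) * h3 - 4 * hx
  obtain ⟨y, hy, hyx⟩ := exists_root hx hx'
  -- the homomorphism
  have hj0 : (quad F L a b).eval₂ e (e w * toL F y) = 0 := by
    unfold quad
    rw [eval₂_add, eval₂_add, eval₂_mul, eval₂_pow, eval₂_X, eval₂_C, eval₂_C, h.a_eq, h.b_eq, map_mul, map_mul,
      map_pow, h.place.poly, h.place.poly]
    have h3 := congrArg (toL F) hy
    rw [map_add, map_add, map_mul, map_pow, map_zero] at h3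
    linear_combination (e w) ^ 2 * h3
  let j : AdjoinRoot (quad F L a b) →+* LaurentSeries F := AdjoinRoot.lift e (e w * toL F y) hj0
  have hjof : ∀ z : L, j (AdjoinRoot.of _ z) = e z := fun z => AdjoinRoot.lift_of hj0
  have hjroot : j (AdjoinRoot.root _) = e w * toL F y := AdjoinRoot.lift_root hj0
  have : Fact (Irreducible (quad F L a b)) := ⟨hirr⟩
  obtain ⟨c, hc, hcc⟩ := hu.2 _ _ 0 w h.isChart
  have hc0 : c = 0 := hc (by
    change ((locPoly α β).map (evalRingHom 0)).natDegree = _
    rw [locPoly_map, locPoly_natDegree, poly_natDegree])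
  have halg : ∀ y : L, pi0 F L a b (algebraMap L (AdjoinRoot (poly F L (surf a b))) y) = AdjoinRoot.of _ y := by
    intro y
    rw [AdjoinRoot.algebraMap_eq, ← AdjoinRoot.mk_C, pi0_mk, AdjoinRoot.mk_C]
  have hroot : pi0 F L a b (AdjoinRoot.root (poly F L (surf a b))) = AdjoinRoot.root _ := by
    rw [← AdjoinRoot.mk_X, pi0_mk, AdjoinRoot.mk_X]
  have hsurj : Function.Surjective (pi0 F L a b) := by
    intro y
    obtain ⟨A, hA⟩ := AdjoinRoot.mk_surjective y
    exact ⟨AdjoinRoot.mk _ A, by rw [pi0_mk, hA]⟩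
  have hew : e w ≠ 0 := (map_ne_zero e).2 h.w_ne
  have hcentre : IsCentre F (poly F L (surf a b)) (pi0 F L a b) ((vX F).comap j).valuationSubring
      (X * (X ^ 2 + C α * X + C β)) τ 0 w x := by
    refine ⟨fun c => ?_, ?_, ?_, ?_⟩
    · rw [halg, Valuation.mem_valuationSubring_iff, Valuation.comap_apply, hjof, h.place.const]
      exact vX_toL _
    · rw [halg, ← (Valuation.isEquiv_valuation_valuationSubring _).lt_one_iff_lt_one, Valuation.comap_apply, hjof,
        h.place.var, vX_toL_lt]
      exact PowerSeries.constantCoeff_X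
    · rw [map_zero, sub_zero, hroot, halg, halg, ← (Valuation.isEquiv_valuation_valuationSubring _).lt_one_iff_lt_one,
        Valuation.comap_apply, map_sub, map_div₀, hjroot, hjof, hjof, h.place.const, mul_div_cancel_left₀ _ hew,
        ← map_sub, vX_toL_lt, map_sub, hyx, PowerSeries.constantCoeff_C, sub_self]
    · intro _
      left
      change (derivative ((locPoly α β).map (evalRingHom 0))).eval x ≠ 0
      rw [locPoly_map]
      unfold locPoly
      have h3 : (derivative (X * (X ^ 2 + C (evalRingHom 0 α) * X + C (evalRingHom 0 β)) : F[X])).eval x =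
          (x ^ 2 + α.eval 0 * x + β.eval 0) + x * (2 * x + α.eval 0) := by
        simp [derivative_mul, derivative_pow]
      rw [h3, hx, zero_add]
      exact mul_ne_zero hx0 hx'
  obtain ⟨v, hv⟩ := hcc (AdjoinRoot (quad F L a b)) (pi0 F L a b) hsurj _ _ hcentre
  rw [hc0, zpow_zero, one_mul] at hv
  obtain ⟨hq0, v', hv'⟩ := hq
  have hu0 : pi0 F L a b u ≠ 0 := (u.isUnit.map (pi0 F L a b)).ne_zero
  have hv0 : v' ≠ 0 := by
    rintro rfl
    apply hu0
    rw [hv', zero_pow two_ne_zero, mul_zero]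
  have h3 := (Valuation.isEquiv_valuation_valuationSubring ((vX F).comap j)).eq_iff.mpr hv
  rw [hv', Valuation.comap_apply, Valuation.comap_apply, map_mul, map_pow, map_pow, hjof, map_mul, map_pow,
    map_pow] at h3
  have h4 : j v' ≠ 0 := (map_ne_zero j).2 hv0
  have h5 : j v ≠ 0 := (map_ne_zero j).2 v.ne_zero
  refine ⟨j v / j v', div_ne_zero h5 h4, ?_⟩
  have h6 : vX F (j v') ≠ 0 := (Valuation.ne_zero_iff _).2 h4
  rw [map_div₀, div_pow, eq_div_iff (pow_ne_zero 2 h6)]
  exact h3

end

end Pool.Agent.Lib.MP_89bcae_ag.Xe
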