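import Mathlib
import Pool.Agent.Lib.MP_89bcae_ag.Xe.Defs
import Pool.Agent.Lib.MP_89bcae_ag.Xs.Ord

/-!
# The place at infinity as an embedding in the field of the Laurent series
-/

open Polynomial IsDedekindDomain

open scoped Classical

namespace Pool.Agent.Lib.MP_89bcae_ag.Xe

open Pool.Agent.Lib.MP_89bcae_ag.Ze

open Pool.Agent.Lib.MP_89bcae_ag.Xs (ord ord_mul ord_inv ord_algebraMap)

section

variable {F : Type} [Field F]

private lemma serB_X : vX F (toL F PowerSeries.X) = WithZero.exp (-1 : ℤ) := by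
  unfold vX
  rw [HeightOneSpectrum.valuation_of_algebraMap]
  exact (PowerSeries.idealX F).intValuation_singleton PowerSeries.X_ne_zero rfl

private lemma serB_one {f : PowerSeries F} (h : PowerSeries.constantCoeff f ≠ 0) : vX F (toL F f) = 1 := by
  unfold vX
  rw [HeightOneSpectrum.valuation_of_algebraMap, HeightOneSpectrum.intValuation_eq_one_iff]
  change f ∉ Ideal.span {PowerSeries.X}
  rw [Ideal.mem_span_singleton, PowerSeries.X_dvd_iff]
  exact h

private lemma serB_X_ne : toL F PowerSeries.X ≠ 0 := by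
  intro h
  have h1 := serB_X (F := F)
  rw [h, map_zero] at h1
  exact WithZero.exp_ne_zero h1.symm

/-- The homomorphism which maps `t` to `1 / X`. -/
private noncomputable def serB_g (F : Type) [Field F] : F[X] →+* LaurentSeries F :=
  eval₂RingHom ((toL F).comp PowerSeries.C) (toL F PowerSeries.X)⁻¹

private lemma serB_g_eq (p : F[X]) :
    serB_g F p = toL F ((reverse p : F[X]) : PowerSeries F) * ((toL F PowerSeries.X)⁻¹) ^ p.natDegree := by
  have hX := serB_X_ne (F := F)
  let _ : Invertible (toL F PowerSeries.X)⁻¹ := invertibleOfNonzero (inv_ne_zero hX)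
  have h1 := eval₂_reverse_mul_pow ((toL F).comp PowerSeries.C) (toL F PowerSeries.X)⁻¹ p
  have h2 : ⅟ ((toL F PowerSeries.X)⁻¹ : LaurentSeries F) = toL F PowerSeries.X := by
    rw [invOf_eq_inv, inv_inv]
  rw [h2] at h1
  have h3 : eval₂ ((toL F).comp PowerSeries.C) (toL F PowerSeries.X) (reverse p) =
      toL F ((reverse p : F[X]) : PowerSeries F) := by
    rw [← hom_eval₂, eval₂_C_X_eq_coe]
  rw [h3] at h1
  exact h1.symm

private lemma serB_val {p : F[X]} (hp : p ≠ 0) : vX F (serB_g F p) = WithZero.exp (p.natDegree : ℤ) := by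
  rw [serB_g_eq, map_mul, map_pow, map_inv₀, serB_X, serB_one, one_mul, ← WithZero.exp_neg, neg_neg,
    ← WithZero.exp_nsmul]
  · congr 1
    simp
  · rw [← PowerSeries.coeff_zero_eq_constantCoeff_apply, Polynomial.coeff_coe, coeff_zero_reverse]
    exact leadingCoeff_ne_zero.2 hp

private lemma serB_inj : Function.Injective (serB_g F) := by
  rw [injective_iff_map_eq_zero]
  intro p hp
  by_contra h
  have h1 := serB_val h
  rw [hp, map_zero] at h1
  exact WithZero.exp_ne_zero h1.symm

private lemma serB_sum [IsAlgClosed F] {p : F[X]} {S : Finset F} (h : ∀ r ∈ p.roots, r ∈ S) :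
    ∑ r ∈ S, (p.rootMultiplicity r : ℤ) = p.natDegree := by
  have h1 := Multiset.sum_count_eq_card h
  rw [IsAlgClosed.card_roots_eq_natDegree] at h1
  rw [← h1]
  push_cast
  refine Finset.sum_congr rfl fun r _ => ?_
  rw [count_roots]

/-- The place at infinity. -/
theorem exists_place_inf (L : Type) [Field L] [Algebra F[X] L] [IsFractionRing F[X] L] [IsAlgClosed F] :
    ∃ e : L →+* LaurentSeries F, IsPlace e (algebraMap F[X] L X)⁻¹ ∧
      ∀ x : L, x ≠ 0 → ∀ T : Finset F, (∀ r ∉ T, Even (ord r x)) →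
        (∃ y : LaurentSeries F, y ≠ 0 ∧ vX F (e x) = vX F y ^ 2) → Even (∑ r ∈ T, ord r x) := by
  have he : ∀ p : F[X], IsFractionRing.lift (K := L) (serB_inj (F := F)) (algebraMap F[X] L p) = serB_g F p :=
    fun p => IsFractionRing.lift_algebraMap _ p
  refine ⟨IsFractionRing.lift (K := L) (serB_inj (F := F)), ⟨fun c => ?_, ?_⟩, ?_⟩
  · rw [he]
    unfold serB_g
    rw [coe_eval₂RingHom, eval₂_C, RingHom.comp_apply]
  · rw [map_inv₀, he]
    unfold serB_g
    rw [coe_eval₂RingHom, eval₂_X, inv_inv]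
  · rintro x hx T hT ⟨y, hy0, hy⟩
    have hvy : vX F y ≠ 0 := (Valuation.ne_zero_iff _).2 hy0
    obtain ⟨p, q, hq, rfl⟩ := IsFractionRing.div_surjective (A := F[X]) x
    have hq0 : q ≠ 0 := nonZeroDivisors.ne_zero hq
    have hp0 : p ≠ 0 := by
      rintro rfl
      apply hx
      rw [map_zero, zero_div]
    have h2 : (p.natDegree : ℤ) - q.natDegree = 2 * WithZero.log (vX F y) := by
      have h3 := congrArg WithZero.log hy
      rw [map_div₀, map_div₀, he, he, serB_val hp0, serB_val hq0, ← WithZero.exp_sub, WithZero.log_exp,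
        WithZero.log_pow] at h3
      rw [h3]
      simp
    have hord : ∀ r : F, ord r (algebraMap F[X] L p / algebraMap F[X] L q) =
        p.rootMultiplicity r - q.rootMultiplicity r := by
      intro r
      have hp1 : algebraMap F[X] L p ≠ 0 := fun h0 => hp0 ((IsFractionRing.to_map_eq_zero_iff).mp h0)
      have hq1 : algebraMap F[X] L q ≠ 0 := fun h0 => hq0 ((IsFractionRing.to_map_eq_zero_iff).mp h0)
      rw [div_eq_mul_inv, ord_mul r hp1 (inv_ne_zero hq1), ord_inv, ord_algebraMap r hp0, ord_algebraMap r hq0,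
        ← sub_eq_add_neg]
    let S : Finset F := T ∪ (p.roots.toFinset ∪ q.roots.toFinset)
    have hTS : T ⊆ S := Finset.subset_union_left
    have hpS : ∀ r ∈ p.roots, r ∈ S := fun r hr =>
      Finset.mem_union_right _ (Finset.mem_union_left _ (Multiset.mem_toFinset.2 hr))
    have hqS : ∀ r ∈ q.roots, r ∈ S := fun r hr =>
      Finset.mem_union_right _ (Finset.mem_union_right _ (Multiset.mem_toFinset.2 hr))
    have h4 : ∑ r ∈ S, ord r (algebraMap F[X] L p / algebraMap F[X] L q) = p.natDegree - q.natDegree := by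
      rw [Finset.sum_congr rfl fun r _ => hord r, Finset.sum_sub_distrib, serB_sum hpS, serB_sum hqS]
    have h5 := Finset.sum_sdiff hTS (f := fun r => ord r (algebraMap F[X] L p / algebraMap F[X] L q))
    have h6 : Even (∑ r ∈ S \ T, ord r (algebraMap F[X] L p / algebraMap F[X] L q)) := by
      refine Finset.even_sum _ fun r hr => hT r (Finset.mem_sdiff.1 hr).2
    have h7 : Even (∑ r ∈ S, ord r (algebraMap F[X] L p / algebraMap F[X] L q)) := by
      rw [h4, h2]
      exact even_two_mul _
    rw [← h5] at h7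
    exact (Int.even_add.1 h7).1 h6

end

end Pool.Agent.Lib.MP_89bcae_ag.Xe
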