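import Mathlib
import Pool.Agent.Lib.MP_89bcae_ag.Xe.Loc
import Pool.Agent.Lib.MP_89bcae_ag.Xe.SerB

/-!
# The parities of the orders of the components of an unramified element
-/

open Polynomial IsDedekindDomain

open scoped Classical

namespace Pool.Agent.Lib.MP_89bcae_ag.Xe

open Pool.Agent.Lib.MP_89bcae_ag.Ze

open Pool.Agent.Lib.MP_89bcae_ag.Xs (ord aF Cst)

section

variable {k F L : Type} [Field k] [Field F] [Algebra k F] [Field L] [Algebra F[X] L] [IsFractionRing F[X] L]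

/-- The chart at the point `t = r`. -/
private lemma cht_loc (a b : k[X]) (r : F) {e : L →+* LaurentSeries F}
    (he : IsPlace e (algebraMap F[X] L (X - C r))) :
    IsLoc a b ((aF F a).comp (X + C r)) ((aF F b).comp (X + C r)) (algebraMap F[X] L (X - C r)) 1 1 e := by
  have ev : ∀ q : F[X], (q.comp (X + C r)).eval₂ ((algebraMap F[X] L).comp C)
      (algebraMap F[X] L (X - C r)) = algebraMap F[X] L q := by
    intro q
    rw [← hom_eval₂]
    congr 1
    change (q.comp (X + C r)).comp (X - C r) = q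
    rw [comp_assoc, add_comp, X_comp, C_comp, sub_add_cancel, comp_X]
  refine ⟨Or.inl ⟨r, rfl⟩, one_ne_zero, one_ne_zero, by rw [one_pow, one_pow], ?_, ?_, he⟩
  · rw [ev, one_mul]
  · rw [ev, one_pow, one_mul]

private lemma cht_comp (q : F[X]) (r : F) : (q.comp (X + C r)).eval 0 = q.eval r := by
  rw [eval_comp, eval_add, eval_X, eval_C, zero_add]

private lemma cht_disc (a b : k[X]) (r : F) :
    (aF F a).eval r ^ 2 - 4 * (aF F b).eval r = (aF F (disc a b)).eval r := by
  rw [aF_disc, eval_sub, eval_pow, eval_mul]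
  norm_num

/-- The chart at infinity. -/
private lemma cht_inf {n : ℕ} {a b : k[X]} (ha : a.natDegree ≤ 2 * n) (hb : b.natDegree ≤ 4 * n)
    {e : L →+* LaurentSeries F} (he : IsPlace e (algebraMap F[X] L X)⁻¹) :
    IsLoc a b (reflect (2 * n) (aF F a)) (reflect (4 * n) (aF F b)) (algebraMap F[X] L X)⁻¹
      (algebraMap F[X] L X ^ (2 * n)) (algebraMap F[X] L X ^ (3 * n)) e := by
  obtain ⟨T, hT⟩ : ∃ T, T = algebraMap F[X] L X := ⟨_, rfl⟩
  have hT0 : T ≠ 0 := by
    rw [hT]
    intro h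
    rw [IsFractionRing.to_map_eq_zero_iff] at h
    exact X_ne_zero h
  have ev : ∀ q : F[X], q.eval₂ ((algebraMap F[X] L).comp C) T = algebraMap F[X] L q := by
    intro q
    rw [hT, ← hom_eval₂, eval₂_C_X]
  have key : ∀ (N : ℕ) (q : F[X]), q.natDegree ≤ N →
      algebraMap F[X] L q = T ^ N * (reflect N q).eval₂ ((algebraMap F[X] L).comp C) T⁻¹ := by
    intro N q hq
    let _ : Invertible T := invertibleOfNonzero hT0
    have h := eval₂_reflect_mul_pow ((algebraMap F[X] L).comp C) T N q hq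
    rw [invOf_eq_inv, ev] at h
    rw [← h, mul_comm]
  have hnat : ∀ q : k[X], (aF F q).natDegree ≤ q.natDegree := fun q => natDegree_map_le
  rw [← hT] at he ⊢
  refine ⟨Or.inr (by rw [hT]), pow_ne_zero _ hT0, pow_ne_zero _ hT0, ?_, ?_, ?_, he⟩
  · rw [← pow_mul, ← pow_mul]
    congr 1
    ring
  · exact key _ _ ((hnat a).trans ha)
  · rw [← pow_mul, show 2 * n * 2 = 4 * n by ring]
    exact key _ _ ((hnat b).trans hb)

private lemma cht_eval_reflect (N : ℕ) (q : F[X]) : (reflect N q).eval 0 = q.coeff N := by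
  rw [← coeff_zero_eq_eval_zero, coeff_reflect, revAt_le (Nat.zero_le N), Nat.sub_zero]

private lemma cht_even {r : F} {e : L →+* LaurentSeries F} {x : L}
    (he : vX F (e x) = WithZero.exp (-ord r x))
    (hy : ∃ y : LaurentSeries F, y ≠ 0 ∧ vX F (e x) = vX F y ^ 2) : Even (ord r x) := by
  obtain ⟨y, -, hy⟩ := hy
  rw [he] at hy
  have h1 := congrArg WithZero.log hy
  rw [WithZero.log_exp, WithZero.log_pow] at h1
  have h2 : ord r x = 2 * (-WithZero.log (vX F y)) := by
    simp at h1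
    linarith
  rw [h2]
  exact even_two_mul _

private lemma cht_sum [IsAlgClosed F] {p : k[X]} (hp : p ≠ 0) {x : L} (hx : x ≠ 0)
    (h1 : ∀ r : F, (aF F p).eval r ≠ 0 → Even (ord r x))
    (h2 : ∀ e : L →+* LaurentSeries F, IsPlace e (algebraMap F[X] L X)⁻¹ →
      ∃ y : LaurentSeries F, y ≠ 0 ∧ vX F (e x) = vX F y ^ 2) :
    Even (∑ s : p.rootSet F, ord (s : F) x) := by
  have hp' : aF F p ≠ 0 := (Polynomial.map_ne_zero_iff (algebraMap k F).injective).2 hp
  have hmem : ∀ r : F, r ∈ (aF F p).roots.toFinset ↔ r ∈ p.rootSet F := by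
    intro r
    rw [Multiset.mem_toFinset, mem_roots hp', IsRoot.def, mem_rootSet, aF, eval_map_algebraMap]
    exact ⟨fun h => ⟨hp, h⟩, fun h => h.2⟩
  rw [← Finset.sum_subtype (aF F p).roots.toFinset hmem (fun r => ord r x)]
  obtain ⟨e, he, hsum⟩ := exists_place_inf (F := F) L
  refine hsum x hx _ (fun r hr => h1 r fun h => hr ?_) (h2 e he)
  rw [Multiset.mem_toFinset, mem_roots hp']
  exact h

theorem even_pi1 {a b : k[X]} {u : (AdjoinRoot (poly F L (surf a b)))ˣ}
    (hu : u ∈ unramified 2 F (poly F L (surf a b))) {r : F} (hr : (aF F b).eval r ≠ 0) :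
    Even (ord r (pi1 F L a b u)) := by
  obtain ⟨e, he, hord⟩ := exists_place L r
  exact cht_even (hord _ (u.isUnit.map (pi1 F L a b)).ne_zero)
    ((cht_loc a b r he).pi1 (by rw [cht_comp]; exact hr) hu)

theorem even_q [IsAlgClosed F] (h2 : (2 : k) ≠ 0) {a b : k[X]} (hirr : Irreducible (quad F L a b))
    {u : (AdjoinRoot (poly F L (surf a b)))ˣ} (hu : u ∈ unramified 2 F (poly F L (surf a b))) {q : L}
    (hq : IsQ F L a b u q) {r : F} (hr : (aF F (disc a b)).eval r ≠ 0) : Even (ord r q) := by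
  obtain ⟨e, he, hord⟩ := exists_place L r
  exact cht_even (hord _ hq.1)
    ((cht_loc a b r he).q h2 hirr (by rw [cht_comp, cht_comp, cht_disc]; exact hr) hu hq)

/-- (at infinity: `α`, `β` the reversed polynomials `reflect (2 n) a`, `reflect (4 n) b`, `τ = 1 / t`, `w = t ^ (2 n)`,
`z = t ^ (3 n)`) -/
theorem sum_pi1 [IsAlgClosed F] {n : ℕ} {a b : k[X]} (ha : a.natDegree ≤ 2 * n) (hb : b.natDegree = 4 * n)
    (hb0 : b ≠ 0) {u : (AdjoinRoot (poly F L (surf a b)))ˣ} (hu : u ∈ unramified 2 F (poly F L (surf a b))) :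
    Even (∑ s : b.rootSet F, ord (s : F) (pi1 F L a b u)) := by
  refine cht_sum hb0 (u.isUnit.map (pi1 F L a b)).ne_zero (fun r hr => even_pi1 hu hr) fun e he => ?_
  refine (cht_inf ha hb.le he).pi1 ?_ hu
  rw [cht_eval_reflect, ← hb, aF, coeff_map]
  exact (map_ne_zero (algebraMap k F)).2 (leadingCoeff_ne_zero.2 hb0)

theorem sum_q [IsAlgClosed F] (h2 : (2 : k) ≠ 0) {n : ℕ} {a b : k[X]} (hirr : Irreducible (quad F L a b))
    (ha : a.natDegree ≤ 2 * n) (hb : b.natDegree = 4 * n) (hd : (disc a b).natDegree = 4 * n) (hd0 : disc a b ≠ 0)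
    {u : (AdjoinRoot (poly F L (surf a b)))ˣ} (hu : u ∈ unramified 2 F (poly F L (surf a b))) {q : L}
    (hq : IsQ F L a b u q) : Even (∑ s : (disc a b).rootSet F, ord (s : F) q) := by
  refine cht_sum hd0 hq.1 (fun r hr => even_q h2 hirr hu hq hr) fun e he => ?_
  refine (cht_inf ha hb.le he).q h2 hirr ?_ hu hq
  have h3 : (aF F a).coeff (2 * n) ^ 2 - 4 * (aF F b).coeff (4 * n) = algebraMap k F ((disc a b).coeff (4 * n)) := by
    unfold disc aF
    have h4 : (a ^ 2).coeff (4 * n) = a.coeff (2 * n) ^ 2 := by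
      have h5 := coeff_pow_of_natDegree_le (m := 2) ha
      rw [show 2 * (2 * n) = 4 * n by ring] at h5
      exact h5
    have h6 : ((4 : k[X]) * b).coeff (4 * n) = 4 * b.coeff (4 * n) := by
      have h7 : (4 : k[X]) = C (4 : k) := (map_ofNat C 4).symm
      rw [h7, coeff_C_mul]
    rw [coeff_sub, h4, h6, map_sub, map_mul, map_pow, coeff_map, coeff_map, map_ofNat]
  rw [cht_eval_reflect, cht_eval_reflect, h3, ← hd]
  exact (map_ne_zero (algebraMap k F)).2 (leadingCoeff_ne_zero.2 hd0)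

end

end Pool.Agent.Lib.MP_89bcae_ag.Xe
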