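import Mathlib
import Pool.Agent.Lib.MP_89bcae_ag.Xe.Defs

/-!
# The components of the branch curve (row PA2)
-/

open Polynomial IsDedekindDomain

open scoped Classical

namespace Pool.Agent.Lib.MP_89bcae_ag.Xe

open Pool.Agent.Lib.MP_89bcae_ag.Ze

open Pool.Agent.Lib.MP_89bcae_ag.Xs (ord aF Cst)

section

variable {k F L : Type} [Field k] [Field F] [Algebra k F] [Field L] [Algebra F[X] L] [IsFractionRing F[X] L]

lemma aF_ne_zero {a : k[X]} (ha : a ≠ 0) : algebraMap F[X] L (aF F a) ≠ 0 := by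
  rw [Ne, _root_.map_eq_zero_iff _ (IsFractionRing.injective F[X] L), aF,
    Polynomial.map_eq_zero_iff (algebraMap k F).injective]
  exact ha

omit [IsFractionRing F[X] L] in
private lemma PA2_eval (a b : k[X]) : (quad F L a b).eval 0 = algebraMap F[X] L (aF F b) := by
  unfold quad
  rw [eval_add, eval_add, eval_mul, eval_pow, eval_X, eval_C, eval_C]
  ring

private lemma PA2_coprime {a b : k[X]} (hb : b ≠ 0) : IsCoprime (X : L[X]) (quad F L a b) := by
  have hb0 : algebraMap F[X] L (aF F b) ≠ 0 := aF_ne_zero hb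
  refine ⟨-C (algebraMap F[X] L (aF F b))⁻¹ * (X + C (algebraMap F[X] L (aF F a))),
    C (algebraMap F[X] L (aF F b))⁻¹, ?_⟩
  have h1 : C (algebraMap F[X] L (aF F b))⁻¹ * C (algebraMap F[X] L (aF F b)) = (1 : L[X]) := by
    rw [← C_mul, inv_mul_cancel₀ hb0, C_1]
  unfold quad
  linear_combination h1

lemma pi_injective {a b : k[X]} (hb : b ≠ 0) {u : AdjoinRoot (poly F L (surf a b))} (h1 : pi1 F L a b u = 0)
    (h0 : pi0 F L a b u = 0) : u = 0 := by
  obtain ⟨A, rfl⟩ := AdjoinRoot.mk_surjective u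
  rw [pi1_mk] at h1
  rw [pi0_mk, AdjoinRoot.mk_eq_zero] at h0
  rw [AdjoinRoot.mk_eq_zero, poly_surf]
  refine (PA2_coprime hb).mul_dvd ?_ h0
  rw [X_dvd_iff, coeff_zero_eq_eval_zero, h1]

lemma pi1_surjective (a b : k[X]) : Function.Surjective (pi1 F L a b) := by
  intro y
  exact ⟨AdjoinRoot.mk _ (C y), by rw [pi1_mk, eval_C]⟩

lemma pi0_surjective (a b : k[X]) : Function.Surjective (pi0 F L a b) := by
  intro z
  obtain ⟨A, rfl⟩ := AdjoinRoot.mk_surjective z
  exact ⟨AdjoinRoot.mk _ A, by rw [pi0_mk]⟩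

lemma pi_surjective {a b : k[X]} (hb : b ≠ 0) (y : L) (z : AdjoinRoot (quad F L a b)) :
    ∃ u : AdjoinRoot (poly F L (surf a b)), pi1 F L a b u = y ∧ pi0 F L a b u = z := by
  obtain ⟨B, rfl⟩ := AdjoinRoot.mk_surjective z
  have hb0 : algebraMap F[X] L (aF F b) ≠ 0 := aF_ne_zero hb
  refine ⟨AdjoinRoot.mk _ (B + C ((y - B.eval 0) / algebraMap F[X] L (aF F b)) * quad F L a b), ?_, ?_⟩
  · rw [pi1_mk, eval_add, eval_mul, eval_C, PA2_eval, div_mul_cancel₀ _ hb0]
    ring
  · rw [pi0_mk, map_add, map_mul, AdjoinRoot.mk_self, mul_zero, add_zero]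

/-- An element both components of which are squares is a square. -/
theorem exists_sq_of {a b : k[X]} (hb : b ≠ 0) {u : (AdjoinRoot (poly F L (surf a b)))ˣ} {y : L}
    {z : AdjoinRoot (quad F L a b)} (h1 : pi1 F L a b u = y ^ 2) (h0 : pi0 F L a b u = z ^ 2) :
    ∃ v : (AdjoinRoot (poly F L (surf a b)))ˣ, u = v ^ 2 := by
  obtain ⟨v, hv1, hv0⟩ := pi_surjective hb y z
  have huv : (u : AdjoinRoot (poly F L (surf a b))) = v ^ 2 := by
    rw [← sub_eq_zero]
    refine pi_injective hb ?_ ?_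
    · rw [map_sub, map_pow, h1, hv1, sub_self]
    · rw [map_sub, map_pow, h0, hv0, sub_self]
  have hunit : IsUnit v := by
    rw [← isUnit_pow_iff (n := 2) two_ne_zero, ← huv]
    exact u.isUnit
  obtain ⟨w, rfl⟩ := hunit
  refine ⟨w, Units.ext ?_⟩
  rw [huv, Units.val_pow_eq_pow_val]

/-- The point `(0, 0)` of order two: `h = x ^ 2 + a x + b - x` divides `x ^ 2 - x (x ^ 2 + a x + b)`. -/
theorem exists_point {a b : k[X]} (hb : b ≠ 0) :
    ∃ u ∈ points 2 (poly F L (surf a b)), pi1 F L a b u = algebraMap F[X] L (aF F b) ∧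
      pi0 F L a b u = -AdjoinRoot.root (quad F L a b) := by
  have hcop : IsCoprime (quad F L a b - X) (poly F L (surf a b)) := by
    rw [poly_surf]
    refine IsCoprime.mul_right ?_ ?_
    · have h1 := (PA2_coprime (F := F) (L := L) (a := a) hb).symm
      obtain ⟨s, t, hst⟩ := h1
      exact ⟨s, t + s, by linear_combination hst⟩
    · have h1 := PA2_coprime (F := F) (L := L) (a := a) hb
      obtain ⟨s, t, hst⟩ := h1
      exact ⟨-s, t + s, by linear_combination hst⟩
  have hunit : IsUnit (AdjoinRoot.mk (poly F L (surf a b)) (quad F L a b - X)) := by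
    obtain ⟨s, t, hst⟩ := hcop
    refine IsUnit.of_mul_eq_one_right (AdjoinRoot.mk _ s) ?_
    have h2 := congrArg (AdjoinRoot.mk (poly F L (surf a b))) hst
    rw [map_add, map_mul, map_mul, AdjoinRoot.mk_self, mul_zero, add_zero, map_one] at h2
    exact h2
  obtain ⟨u, hu⟩ := hunit
  refine ⟨u, Subgroup.subset_closure (Or.inr ⟨quad F L a b - X, X, ?_, ?_, hu⟩), ?_, ?_⟩
  · refine (quad_monic a b).sub_of_left ?_
    rw [degree_X, degree_eq_natDegree (quad_monic a b).ne_zero, quad_natDegree]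
    norm_num
  · exact ⟨-X, by rw [poly_surf]; ring⟩
  · rw [hu, pi1_mk, eval_sub, PA2_eval, eval_X, sub_zero]
  · rw [hu, pi0_mk, map_sub, AdjoinRoot.mk_self, zero_sub, AdjoinRoot.mk_X]

end

end Pool.Agent.Lib.MP_89bcae_ag.Xe
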