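import Mathlib
import Pool.Agent.Lib.MP_89bcae_ag.Tk.K056

/-!
# The pairs `(a, b)`: the coefficients, the conditions at the primes, full pairs

`v : PIdx N → R` is the vector of the coefficients of `a` (degree at most `2 N`) and of `b` (degree at
most `4 N`), `Δ = a ^ 2 - 4 b`.
-/

open Polynomial

open scoped Classical

namespace Pool.Agent.Lib.MP_89bcae_ag

/-- The indices of the coefficients of `a` and of `b`. -/
abbrev PIdx (N : ℕ) : Type := Fin (2 * N + 1) ⊕ Fin (4 * N + 1)

section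

variable {N : ℕ} {R : Type*} [CommRing R]

/-- The polynomial `a`. -/
noncomputable def polA (v : PIdx N → R) : R[X] := ∑ j : Fin (2 * N + 1), C (v (Sum.inl j)) * X ^ (j : ℕ)

/-- The polynomial `b`. -/
noncomputable def polB (v : PIdx N → R) : R[X] := ∑ j : Fin (4 * N + 1), C (v (Sum.inr j)) * X ^ (j : ℕ)

/-- The polynomial `Δ = a ^ 2 - 4 b`. -/
noncomputable def polD (v : PIdx N → R) : R[X] := polA v ^ 2 - 4 * polB v

end

/-- Modulo `p`, `f` and `g` have the degree `n`, `g` is separable, and `f` has exactly one double root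
`z`; the value of `f` at a lift of `z` is not divisible by `p ^ 2`. -/
structure IsColP (p n : ℕ) (f g : ℤ[X]) : Prop where
  leadf : ¬ (p : ℤ) ∣ f.coeff n
  leadg : ¬ (p : ℤ) ∣ g.coeff n
  sep : (g.map (Int.castRingHom (ZMod p))).Separable
  dbl : ∃ z : ℤ, (p : ℤ) ∣ f.eval z ∧ ¬ (p : ℤ) ^ 2 ∣ f.eval z ∧
    ∃ h : (ZMod p)[X], f.map (Int.castRingHom (ZMod p)) = (X - C (z : ZMod p)) ^ 2 * h ∧
      h.eval (z : ZMod p) ≠ 0 ∧ h.Separable

/-- `f` is irreducible of degree `n` modulo some prime. -/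
def HasTypeA (n : ℕ) (f : ℤ[X]) : Prop :=
  ∃ (p : ℕ) (_ : Fact p.Prime), TypeAX14 (f.map (Int.castRingHom (ZMod p))) n

/-- `f` is modulo some prime the product of a linear polynomial and of an irreducible polynomial of
degree `n - 1`. -/
def HasTypeB (n : ℕ) (f : ℤ[X]) : Prop :=
  ∃ (p : ℕ) (_ : Fact p.Prime), TypeBX14 (f.map (Int.castRingHom (ZMod p))) n

/-- The pair of polynomials has a collision modulo some prime. -/
def HasCol (n : ℕ) (f g : ℤ[X]) : Prop := ∃ p : ℕ, p.Prime ∧ IsColP p n f g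

/-- The conditions at the primes on the pair `(a, b)`. -/
structure GoodP {N : ℕ} (v : PIdx N → ℤ) : Prop where
  bA : HasTypeA (4 * N) (polB v)
  bB : HasTypeB (4 * N) (polB v)
  bC : HasCol (4 * N) (polB v) (polD v)
  dA : HasTypeA (4 * N) (polD v)
  dB : HasTypeB (4 * N) (polD v)
  dC : HasCol (4 * N) (polD v) (polB v)

/-- The Galois group of `F` over `k` is transitive on the pairs of different roots of `f`. -/
def IsTwo (k F : Type*) [Field k] [Field F] [Algebra k F] (f : k[X]) : Prop :=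
  ∀ x y x' y' : F, aeval x f = 0 → aeval y f = 0 → aeval x' f = 0 → aeval y' f = 0 → x ≠ y →
    x' ≠ y' → ∃ σ : F ≃ₐ[k] F, σ x = x' ∧ σ y = y'

/-- An element of the Galois group exchanges two roots of `f` and fixes the other ones and the roots of
`g`. -/
def HasSwap (k F : Type*) [Field k] [Field F] [Algebra k F] (f g : k[X]) : Prop :=
  ∃ (σ : F ≃ₐ[k] F) (u w : F), u ≠ w ∧ aeval u f = 0 ∧ aeval w f = 0 ∧ σ u = w ∧ σ w = u ∧
    (∀ s, aeval s f = 0 → s ≠ u → s ≠ w → σ s = s) ∧ ∀ s, aeval s g = 0 → σ s = s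

/-- The Galois group induces all the pairs of permutations of the roots of `f` and of the roots of
`g`. -/
def IsFullP (k F : Type*) [Field k] [Field F] [Algebra k F] (f g : k[X]) : Prop :=
  ∀ (τ : Equiv.Perm (f.rootSet F)) (τ' : Equiv.Perm (g.rootSet F)), ∃ σ : F ≃ₐ[k] F,
    (∀ s : f.rootSet F, σ s = τ s) ∧ ∀ s : g.rootSet F, σ s = τ' s

end Pool.Agent.Lib.MP_89bcae_ag
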