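import Mathlib
import Pool.Agent.Lib.MP_89bcae_ag.Tk.K048
import Pool.Agent.Lib.MP_89bcae_ag.Tk.K055
import Pool.Agent.Lib.MP_89bcae_ag.Tk.K056

/-!
# Generic conditions on the coefficients

A condition on points `u` with coordinates in a field is generic if it is implied by the nonvanishing
of a nonzero polynomial with integral coefficients.

(Copy of `Gph/Gen.lean` and of some lemmas of `Gph/Shift.lean`, `Gph/Den.lean`, with other imports.)
-/

open Polynomial Filter Topology

open scoped Classical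

set_option linter.all false

namespace Pool.Agent.Lib.MP_89bcae_ag

section

variable {κ : Type}

/-- A condition which is implied by the nonvanishing of a nonzero polynomial with integral
coefficients. -/
def IsGeneric (C : ∀ (K : Type) [Field K], (κ → K) → Prop) : Prop :=
  ∃ Δ : MvPolynomial κ ℤ, Δ ≠ 0 ∧ ∀ (K : Type) [Field K] (u : κ → K),
    MvPolynomial.aeval u Δ ≠ 0 → C K u

theorem IsGeneric.true : IsGeneric (fun (K : Type) [Field K] (_ : κ → K) => True) :=
  ⟨1, one_ne_zero, fun _ _ _ _ => trivial⟩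

theorem IsGeneric.mono {C C' : ∀ (K : Type) [Field K], (κ → K) → Prop} (h : IsGeneric C)
    (hCC : ∀ (K : Type) [Field K] (u : κ → K), C K u → C' K u) : IsGeneric C' := by
  obtain ⟨Δ, h0, h1⟩ := h
  exact ⟨Δ, h0, fun K _ u hu => hCC K u (h1 K u hu)⟩

theorem IsGeneric.and {C C' : ∀ (K : Type) [Field K], (κ → K) → Prop} (h : IsGeneric C)
    (h' : IsGeneric C') :
    IsGeneric (fun (K : Type) [Field K] (u : κ → K) => C K u ∧ C' K u) := by
  obtain ⟨Δ, h0, h1⟩ := h
  obtain ⟨Δ', h0', h1'⟩ := h'
  refine ⟨Δ * Δ', mul_ne_zero h0 h0', fun K _ u hu => ?_⟩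
  rw [map_mul] at hu
  exact ⟨h1 K u (left_ne_zero_of_mul hu), h1' K u (right_ne_zero_of_mul hu)⟩

/-- Finite conjunctions (the product of the polynomials). -/
theorem IsGeneric.all {T : Type} [Finite T] {C : T → ∀ (K : Type) [Field K], (κ → K) → Prop}
    (h : ∀ t, IsGeneric (C t)) :
    IsGeneric (fun (K : Type) [Field K] (u : κ → K) => ∀ t, C t K u) := by
  have := Fintype.ofFinite T
  choose Δ h0 h1 using h
  refine ⟨∏ t, Δ t, Finset.prod_ne_zero_iff.mpr fun t _ => h0 t, fun K _ u hu t => ?_⟩
  refine h1 t K u fun ht => hu ?_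
  rw [map_prod]
  exact Finset.prod_eq_zero (Finset.mem_univ t) ht

/-- A polynomial which does not vanish at one point. -/
theorem isGeneric_ne (Δ : MvPolynomial κ ℤ) (h : ∃ u : κ → ℚ, MvPolynomial.aeval u Δ ≠ 0) :
    IsGeneric (fun (K : Type) [Field K] (u : κ → K) => MvPolynomial.aeval u Δ ≠ 0) := by
  obtain ⟨u, hu⟩ := h
  refine ⟨Δ, fun h0 => hu ?_, fun K _ v hv => hv⟩
  rw [h0, map_zero]

/-- The value of a polynomial with coefficients in `ℤ[κ]` at the point `u`. -/
noncomputable def spec {K : Type} [Field K] (u : κ → K) (f : (MvPolynomial κ ℤ)[X]) : K[X] :=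
  f.map (MvPolynomial.aeval (R := ℤ) u).toRingHom

theorem resultant_ne_zero_iff_h21 {K : Type} [Field K] {F G : K[X]} {m n : ℕ}
    (hF : F.natDegree ≤ m) (hG : G.natDegree ≤ n) (h : F.coeff m ≠ 0) :
    resultant F G m n ≠ 0 ↔ IsCoprime F G := by
  have hm : F.natDegree = m := le_antisymm hF (le_natDegree_of_ne_zero h)
  have hF0 : F ≠ 0 := by
    rintro rfl
    exact h (coeff_zero m)
  obtain ⟨k, rfl⟩ := Nat.exists_eq_add_of_le hG
  rw [resultant_add_right_deg _ _ _ _ _ le_rfl, mul_ne_zero_iff]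
  subst hm
  rw [Ne, Ne, resultant_eq_zero_iff]
  constructor
  · rintro ⟨_, h2⟩
    by_contra hc
    exact h2 ⟨Or.inl hF0, hc⟩
  · intro hc
    exact ⟨pow_ne_zero _ h, fun h2 => h2.2 hc⟩

/-- **Coprimality is a generic condition** if it holds at one point. `Δ` is the product of the leading
coefficient `f.coeff m` and of the resultant `Polynomial.resultant f g m n` (formal degrees `m` and
`n`); `Polynomial.resultant_map_map`, `Polynomial.resultant_eq_zero_iff` (over a field),
`Polynomial.resultant_add_right_deg` (to pass from the degree of `g_u` to `n`, the leading coefficient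
of `f_u` not being zero). If one of `f_u`, `g_u` is zero treat it separately (`m = 0`: `f_u` is a
nonzero constant). -/
theorem isGeneric_isCoprime (f g : (MvPolynomial κ ℤ)[X]) (m n : ℕ) (hf : f.natDegree ≤ m)
    (hg : g.natDegree ≤ n) (u₀ : κ → ℚ) (h1 : (spec u₀ f).coeff m ≠ 0)
    (h2 : IsCoprime (spec u₀ f) (spec u₀ g)) :
    IsGeneric (fun (K : Type) [Field K] (u : κ → K) =>
      (spec u f).coeff m ≠ 0 ∧ IsCoprime (spec u f) (spec u g)) := by
  have key : ∀ (K : Type) [Field K] (u : κ → K),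
      MvPolynomial.aeval u (f.coeff m * resultant f g m n) =
        (spec u f).coeff m * resultant (spec u f) (spec u g) m n := by
    intro K _ u
    rw [map_mul, spec, spec, resultant_map_map, coeff_map]
    rfl
  refine ⟨f.coeff m * resultant f g m n, ?_, ?_⟩
  · intro h0
    have h3 := key ℚ u₀
    rw [h0, map_zero] at h3
    refine mul_ne_zero h1 ?_ h3.symm
    exact (resultant_ne_zero_iff_h21 (natDegree_map_le.trans hf) (natDegree_map_le.trans hg) h1).2 h2
  · intro K _ u hu
    rw [key K u] at hu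
    have h3 := left_ne_zero_of_mul hu
    exact ⟨h3, (resultant_ne_zero_iff_h21 (natDegree_map_le.trans hf)
      (natDegree_map_le.trans hg) h3).1 (right_ne_zero_of_mul hu)⟩

/-- Separability is a generic condition if it holds at one point. -/
theorem isGeneric_separable (f : (MvPolynomial κ ℤ)[X]) (m : ℕ) (hf : f.natDegree ≤ m)
    (u₀ : κ → ℚ) (h1 : (spec u₀ f).coeff m ≠ 0) (h2 : (spec u₀ f).Separable) :
    IsGeneric (fun (K : Type) [Field K] (u : κ → K) =>
      (spec u f).coeff m ≠ 0 ∧ (spec u f).Separable) := by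
  have hd : ∀ (K : Type) [Field K] (u : κ → K),
      spec u (derivative f) = derivative (spec u f) := by
    intro K _ u
    rw [spec, spec, derivative_map]
  obtain ⟨Δ, hΔ, h⟩ := isGeneric_isCoprime f (derivative f) m m hf
    ((natDegree_derivative_le f).trans ((Nat.sub_le _ _).trans hf)) u₀ h1 (by
      rw [hd]
      exact h2)
  refine ⟨Δ, hΔ, fun K _ u hu => ?_⟩
  have h3 : (spec u f).coeff m ≠ 0 ∧ IsCoprime (spec u f) (spec u (derivative f)) := h K u hu
  rw [hd] at h3
  exact h3

end

section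

variable {κ : Type} [Fintype κ]

/-- **Schwartz-Zippel**, for all large primes (`Δ` is not zero modulo the primes which do not divide
one fixed nonzero coefficient; `MvPolynomial.schwartz_zippel_totalDegree` with
`S = Finset.univ`; rename `κ` to `Fin (card κ)`). -/
theorem count_zeros (Δ : MvPolynomial κ ℤ) (hΔ : Δ ≠ 0) :
    ∃ P₀ D : ℕ, ∀ p : ℕ, p.Prime → P₀ ≤ p →
      ({u : κ → ZMod p | MvPolynomial.aeval u Δ = 0}).ncard * p ≤ D * p ^ Fintype.card κ := by
  obtain ⟨s, hs⟩ := MvPolynomial.ne_zero_iff.1 hΔ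
  refine ⟨(Δ.coeff s).natAbs + 1, Δ.totalDegree, ?_⟩
  intro p hp hle
  have : Fact p.Prime := ⟨hp⟩
  set n := Fintype.card κ with hn
  let e : κ ≃ Fin n := Fintype.equivFin κ
  set g : MvPolynomial κ (ZMod p) := MvPolynomial.map (Int.castRingHom (ZMod p)) Δ with hg
  set q : MvPolynomial (Fin n) (ZMod p) := MvPolynomial.rename e g with hq
  have hg0 : g ≠ 0 := by
    rw [MvPolynomial.ne_zero_iff]
    refine ⟨s, ?_⟩
    rw [hg, MvPolynomial.coeff_map, eq_intCast, Ne, ZMod.intCast_zmod_eq_zero_iff_dvd]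
    intro hdvd
    have h1 : p ∣ (Δ.coeff s).natAbs := Int.natCast_dvd.1 hdvd
    have h2 := Nat.le_of_dvd (Int.natAbs_pos.2 hs) h1
    omega
  have hq0 : q ≠ 0 := by
    intro h
    apply hg0
    apply MvPolynomial.rename_injective e e.injective
    rw [map_zero]
    exact h
  have hdeg : q.totalDegree ≤ Δ.totalDegree := by
    refine (MvPolynomial.totalDegree_rename_le e g).trans ?_
    rw [hg]
    apply Finset.sup_mono
    exact MvPolynomial.support_map_subset _ _
  have heval : ∀ f : Fin n → ZMod p, MvPolynomial.eval f q = MvPolynomial.aeval (f ∘ e) Δ := by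
    intro f
    rw [hq, MvPolynomial.eval_rename, hg, MvPolynomial.eval_map, MvPolynomial.aeval_def,
      algebraMap_int_eq]
  have hset : {u : κ → ZMod p | MvPolynomial.aeval u Δ = 0} =
      (fun f : Fin n → ZMod p => f ∘ e) '' {f | MvPolynomial.eval f q = 0} := by
    ext u
    constructor
    · intro hu
      refine ⟨u ∘ e.symm, ?_, ?_⟩
      · show MvPolynomial.eval (u ∘ e.symm) q = 0
        rw [heval]
        have : (u ∘ e.symm) ∘ e = u := by
          ext c
          simp
        rw [this]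
        exact hu
      · ext c
        simp
    · rintro ⟨f, hf, rfl⟩
      show MvPolynomial.aeval (f ∘ e) Δ = 0
      rw [← heval]
      exact hf
  have hinj : Function.Injective (fun f : Fin n → ZMod p => f ∘ e) := by
    intro f f' h
    ext i
    have := congrFun h (e.symm i)
    simpa using this
  rw [hset, Set.ncard_image_of_injective _ hinj]
  have hfin : {f : Fin n → ZMod p | MvPolynomial.eval f q = 0} =
      (((Fintype.piFinset fun _ : Fin n => (Finset.univ : Finset (ZMod p))).filter
        (fun f => MvPolynomial.eval f q = 0) : Finset (Fin n → ZMod p)) : Set (Fin n → ZMod p)) := by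
    ext f
    simp
  rw [hfin, Set.ncard_coe_finset]
  have hsz := MvPolynomial.schwartz_zippel_totalDegree hq0 (Finset.univ : Finset (ZMod p))
  rw [Finset.card_univ, ZMod.card] at hsz
  have hp0 : (0 : ℚ≥0) < p := by exact_mod_cast hp.pos
  rw [div_le_div_iff₀ (by positivity) hp0] at hsz
  have h1 : ((Fintype.piFinset fun _ : Fin n => (Finset.univ : Finset (ZMod p))).filter
      (fun f => MvPolynomial.eval f q = 0)).card * p ≤ q.totalDegree * p ^ n := by
    exact_mod_cast hsz
  exact h1.trans (Nat.mul_le_mul_right _ hdeg)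

/-- The polynomial vectors with the values of `u` at the places `s c`. -/
theorem count_collapse {p : ℕ} [Fact p.Prime] (s : κ → κ) (c₁ c₂ : κ)
    (hs : ∀ c, s (s c) = s c) (hs' : ∀ c, c ≠ c₁ → c ≠ c₂ → s c = c)
    (P : (κ → ZMod p) → Prop) :
    ({u : κ → ZMod p | P (u ∘ s)}).ncard ≤
      p ^ 2 * ({u : κ → ZMod p | u ∘ s = u ∧ P u}).ncard := by
  have h1 : ((Set.univ : Set (ZMod p × ZMod p)) ×ˢ
      ({u : κ → ZMod p | u ∘ s = u ∧ P u})).ncard =
      p ^ 2 * ({u : κ → ZMod p | u ∘ s = u ∧ P u}).ncard := by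
    rw [Set.ncard_prod, Set.ncard_univ, Nat.card_prod, Nat.card_zmod, pow_two]
  rw [← h1]
  refine Set.ncard_le_ncard_of_injOn (fun u => ((u c₁, u c₂), u ∘ s)) ?_ ?_ (Set.toFinite _)
  · intro u hu
    refine ⟨Set.mem_univ _, ?_, hu⟩
    funext c
    simp only [Function.comp_apply]
    rw [hs c]
  · intro u _ u' _ h
    have h2 : u c₁ = u' c₁ := congrArg (fun t => t.1.1) h
    have h3 : u c₂ = u' c₂ := congrArg (fun t => t.1.2) h
    have h4 : u ∘ s = u' ∘ s := congrArg (fun t => t.2) h
    funext c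
    by_cases hc1 : c = c₁
    · rw [hc1]
      exact h2
    · by_cases hc2 : c = c₂
      · rw [hc2]
        exact h3
      · have h5 := congrFun h4 c
        simp only [Function.comp_apply] at h5
        rwa [hs' c hc1 hc2] at h5

/-- Reduction of vectors modulo `p`. -/
def redp (p : ℕ) (w : κ → ZMod (p ^ 2)) : κ → ZMod p :=
  fun c => ZMod.castHom (dvd_pow_self p two_ne_zero) (ZMod p) (w c)

/-- The number of the lifts to `ZMod (p ^ 2)`. -/
theorem card_lift_h16 {p : ℕ} (hp : p.Prime) (S : Set (κ → ZMod p)) :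
    S.ncard * p ^ Fintype.card κ ≤ ({w : κ → ZMod (p ^ 2) | redp p w ∈ S}).ncard := by
  have : NeZero p := ⟨hp.ne_zero⟩
  have : NeZero (p ^ 2) := ⟨pow_ne_zero 2 hp.ne_zero⟩
  have h1 : (S ×ˢ (Set.univ : Set (κ → Fin p))).ncard = S.ncard * p ^ Fintype.card κ := by
    rw [Set.ncard_prod, Set.ncard_univ, Nat.card_eq_fintype_card, Fintype.card_fun,
      Fintype.card_fin]
  rw [← h1]
  have hlt : ∀ (a : ZMod p) (c : Fin p), a.val + p * (c : ℕ) < p ^ 2 := by
    intro a c
    have h2 := ZMod.val_lt a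
    have h3 := c.2
    nlinarith
  refine Set.ncard_le_ncard_of_injOn
    (fun v i => (((v.1 i).val + p * (v.2 i : ℕ) : ℕ) : ZMod (p ^ 2))) ?_ ?_ (Set.toFinite _)
  · rintro ⟨s, c⟩ ⟨hs, -⟩
    have h2 : redp p (fun i => ((((s i).val + p * (c i : ℕ) : ℕ) : ZMod (p ^ 2)))) = s := by
      funext i
      unfold redp
      rw [map_natCast]
      push_cast
      rw [ZMod.natCast_self, zero_mul, add_zero, ZMod.natCast_val, ZMod.cast_id]
    change redp p (fun i => ((((s i).val + p * (c i : ℕ) : ℕ) : ZMod (p ^ 2)))) ∈ S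
    rw [h2]
    exact hs
  · rintro ⟨s, c⟩ - ⟨s', c'⟩ - h
    have h2 : ∀ i, (s i).val + p * (c i : ℕ) = (s' i).val + p * (c' i : ℕ) := by
      intro i
      have h3 := congrFun h i
      simp only at h3
      rw [ZMod.natCast_eq_natCast_iff'] at h3
      rwa [Nat.mod_eq_of_lt (hlt _ _), Nat.mod_eq_of_lt (hlt _ _)] at h3
    have h4 : ∀ i, s i = s' i := by
      intro i
      have h5 := congrArg (· % p) (h2 i)
      simp only [Nat.add_mul_mod_self_left] at h5
      rw [Nat.mod_eq_of_lt (ZMod.val_lt _), Nat.mod_eq_of_lt (ZMod.val_lt _)] at h5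
      exact ZMod.val_injective p h5
    have h6 : ∀ i, c i = c' i := by
      intro i
      have h7 := h2 i
      rw [h4 i, Nat.add_left_cancel_iff] at h7
      exact Fin.ext (Nat.eq_of_mul_eq_mul_left hp.pos h7)
    simp only [Prod.mk.injEq]
    exact ⟨funext h4, funext h6⟩

/-- Half of the lifts are good, if every bad lift becomes good when `p` is added to a coordinate `c`
(`card_lift14` in LDenA14.lean or SDenA14.lean; see the proof of `count_typeP14` in LPrjA14.lean). -/
theorem half_lift {p : ℕ} (hp : p.Prime) (S : Set (κ → ZMod p)) (c : κ)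
    (G : Set (κ → ZMod (p ^ 2)))
    (hG : ∀ w, redp p w ∈ S → w ∉ G → Function.update w c (w c + (p : ZMod (p ^ 2))) ∈ G) :
    S.ncard * p ^ Fintype.card κ ≤ 2 * G.ncard := by
  have : NeZero (p ^ 2) := ⟨pow_ne_zero 2 hp.ne_zero⟩
  have h2 := card_lift_h16 hp S
  have h4 : ({w : κ → ZMod (p ^ 2) | redp p w ∈ S} \ G).ncard ≤ G.ncard := by
    refine Set.ncard_le_ncard_of_injOn
      (fun w => Function.update w c (w c + (p : ZMod (p ^ 2)))) ?_ ?_ (Set.toFinite _)
    · rintro w ⟨hwX, hwG⟩
      exact hG w hwX hwG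
    · intro w _ w' _ h
      funext i
      have h5 := congrFun h i
      simp only at h5
      by_cases hi : i = c
      · subst hi
        rwa [Function.update_self, Function.update_self, add_left_inj] at h5
      · rwa [Function.update_of_ne hi, Function.update_of_ne hi] at h5
  have h5 : ({w : κ → ZMod (p ^ 2) | redp p w ∈ S}).ncard ≤
      ({w : κ → ZMod (p ^ 2) | redp p w ∈ S} \ G).ncard + G.ncard := by
    have h6 : {w : κ → ZMod (p ^ 2) | redp p w ∈ S} ⊆
        ({w : κ → ZMod (p ^ 2) | redp p w ∈ S} \ G) ∪ G := fun w hw => by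
      by_cases h : w ∈ G
      · exact Or.inr h
      · exact Or.inl ⟨hw, h⟩
    exact (Set.ncard_le_ncard h6 (Set.toFinite _)).trans (Set.ncard_union_le _ _)
  omega

end

section

variable {K : Type} [Field K]

theorem isCoprime_comp_iff (f g : K[X]) (z : K) :
    IsCoprime (f.comp (X + C z)) (g.comp (X + C z)) ↔ IsCoprime f g := by
  have key : ∀ (f g : K[X]) (z : K), IsCoprime f g →
      IsCoprime (f.comp (X + C z)) (g.comp (X + C z)) := by
    rintro f g z ⟨a, b, h⟩
    refine ⟨a.comp (X + C z), b.comp (X + C z), ?_⟩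
    rw [← mul_comp, ← mul_comp, ← add_comp, h, one_comp]
  refine ⟨fun h => ?_, key f g z⟩
  have h1 := key _ _ (-z) h
  have e : (X + C z : K[X]).comp (X + C (-z)) = X := by
    rw [add_comp, X_comp, C_comp, add_assoc, ← C_add, neg_add_cancel, C_0, add_zero]
  rwa [comp_assoc, comp_assoc, e, comp_X, comp_X] at h1

theorem separable_comp_iff (f : K[X]) (z : K) :
    (f.comp (X + C z)).Separable ↔ f.Separable := by
  have e : derivative (f.comp (X + C z)) = (derivative f).comp (X + C z) := by
    rw [derivative_comp, derivative_add, derivative_X, derivative_C, add_zero, one_mul]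
  rw [Polynomial.Separable, Polynomial.Separable, e]
  exact isCoprime_comp_iff f (derivative f) z

end

/-- The box, as a set of functions on a finite type, has `(2 H + 1) ^ card` elements. -/
theorem box_ncard_h15 {κ : Type} [Fintype κ] (H : ℕ) :
    ({v : κ → ℤ | ∀ i, |v i| ≤ H}).Finite ∧
      (({v : κ → ℤ | ∀ i, |v i| ≤ H}).ncard : ℝ) = (2 * H + 1) ^ Fintype.card κ := by
  have h1 : {v : κ → ℤ | ∀ i, |v i| ≤ H} =
      ((Fintype.piFinset fun _ : κ => Finset.Icc (-(H : ℤ)) H : Finset (κ → ℤ)) :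
        Set (κ → ℤ)) := by
    ext v
    simp only [Set.mem_ofPred_eq, Finset.mem_coe, Fintype.mem_piFinset, Finset.mem_Icc, abs_le]
  rw [h1]
  refine ⟨Finset.finite_toSet _, ?_⟩
  rw [Set.ncard_coe_finset, Fintype.card_piFinset]
  simp only [Int.card_Icc, Finset.prod_const, Finset.card_univ]
  have h2 : ((H : ℤ) + 1 - -(H : ℤ)).toNat = 2 * H + 1 := by omega
  rw [h2]
  push_cast
  rfl

end Pool.Agent.Lib.MP_89bcae_ag
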