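import Mathlib
import Pool.Agent.Lib.MP_89bcae_ag.Xe.DDefs
import Pool.Agent.Lib.MP_89bcae_ag.Xe.DGen

/-!
# Basic lemmas on the pairs; the translations `t ↦ t + z`; the condition `GenP`
-/

open Polynomial

open scoped Classical

namespace Pool.Agent.Lib.MP_89bcae_ag

section

variable {R : Type*} [CommRing R]

private theorem dsh_deg {k : ℕ} (v : Fin (k + 1) → R) :
    (∑ j : Fin (k + 1), C (v j) * X ^ (j : ℕ)).natDegree ≤ k := by
  refine natDegree_sum_le_of_forall_le _ _ fun j _ => ?_
  exact (natDegree_C_mul_X_pow_le _ _).trans (by omega)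

private theorem dsh_coeff {k : ℕ} (v : Fin (k + 1) → R) (j : Fin (k + 1)) :
    (∑ j : Fin (k + 1), C (v j) * X ^ (j : ℕ)).coeff j = v j := by
  rw [finsetSum_coeff, Finset.sum_eq_single j]
  · rw [coeff_C_mul_X_pow, if_pos rfl]
  · intro k _ hk
    rw [coeff_C_mul_X_pow, if_neg]
    intro h
    exact hk (Fin.ext h.symm)
  · intro h
    exact absurd (Finset.mem_univ j) h

private theorem dsh_map {S : Type*} [CommRing S] (φ : R →+* S) {k : ℕ} (v : Fin (k + 1) → R) :
    (∑ j : Fin (k + 1), C (v j) * X ^ (j : ℕ)).map φ =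
      ∑ j : Fin (k + 1), C (φ (v j)) * X ^ (j : ℕ) := by
  rw [Polynomial.map_sum]
  refine Finset.sum_congr rfl fun j _ => ?_
  rw [Polynomial.map_mul, map_C, Polynomial.map_pow, map_X]

private theorem dsh_sum {k : ℕ} {f : R[X]} (hf : f.natDegree ≤ k) :
    (∑ j : Fin (k + 1), C (f.coeff (j : ℕ)) * X ^ (j : ℕ)) = f := by
  conv_rhs => rw [Polynomial.as_sum_range' f (k + 1) (Nat.lt_succ_of_le hf), Finset.sum_range]
  refine Finset.sum_congr rfl fun j _ => ?_
  rw [C_mul_X_pow_eq_monomial]

private theorem dsh_comp_deg {k : ℕ} {f : R[X]} (hf : f.natDegree ≤ k) (z : R) :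
    (f.comp (X + C z)).natDegree ≤ k := by
  refine natDegree_comp_le.trans ?_
  have h1 : (X + C z : R[X]).natDegree ≤ 1 := by
    refine (natDegree_add_le _ _).trans ?_
    rw [natDegree_C]
    exact max_le natDegree_X_le (Nat.zero_le _)
  calc f.natDegree * (X + C z : R[X]).natDegree ≤ k * 1 := Nat.mul_le_mul hf h1
    _ = k := mul_one k

end

section

variable {N : ℕ} {R : Type*} [CommRing R]

theorem polA_natDegree_le (v : PIdx N → R) : (polA v).natDegree ≤ 2 * N :=
  dsh_deg fun j => v (Sum.inl j)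

theorem polB_natDegree_le (v : PIdx N → R) : (polB v).natDegree ≤ 4 * N :=
  dsh_deg fun j => v (Sum.inr j)

theorem polD_natDegree_le (v : PIdx N → R) : (polD v).natDegree ≤ 4 * N := by
  unfold polD
  refine (natDegree_sub_le _ _).trans (max_le ?_ ?_)
  · refine natDegree_pow_le.trans ?_
    have h := polA_natDegree_le v
    omega
  · have h4 : (4 : R[X]) = C 4 := by
      rw [← map_ofNat C 4]
    rw [h4]
    exact (natDegree_C_mul_le _ _).trans (polB_natDegree_le v)

theorem polA_coeff (v : PIdx N → R) (j : Fin (2 * N + 1)) : (polA v).coeff j = v (Sum.inl j) :=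
  dsh_coeff (fun j => v (Sum.inl j)) j

theorem polB_coeff (v : PIdx N → R) (j : Fin (4 * N + 1)) : (polB v).coeff j = v (Sum.inr j) :=
  dsh_coeff (fun j => v (Sum.inr j)) j

theorem polA_map {S : Type*} [CommRing S] (φ : R →+* S) (v : PIdx N → R) :
    (polA v).map φ = polA (fun x => φ (v x)) :=
  dsh_map φ fun j => v (Sum.inl j)

theorem polB_map {S : Type*} [CommRing S] (φ : R →+* S) (v : PIdx N → R) :
    (polB v).map φ = polB (fun x => φ (v x)) :=
  dsh_map φ fun j => v (Sum.inr j)

theorem polD_map {S : Type*} [CommRing S] (φ : R →+* S) (v : PIdx N → R) :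
    (polD v).map φ = polD (fun x => φ (v x)) := by
  unfold polD
  rw [Polynomial.map_sub, Polynomial.map_pow, Polynomial.map_mul, polA_map, polB_map,
    Polynomial.map_ofNat]

/-- A vector is determined by its polynomials. -/
theorem pidx_ext {v w : PIdx N → R} (hA : polA v = polA w) (hB : polB v = polB w) : v = w := by
  funext x
  rcases x with j | j
  · rw [← polA_coeff v j, hA, polA_coeff]
  · rw [← polB_coeff v j, hB, polB_coeff]

/-- The coefficients of two polynomials. -/
def pvec (N : ℕ) (f g : R[X]) : PIdx N → R := Sum.elim (fun j => f.coeff j) (fun j => g.coeff j)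

theorem polA_pvec {f : R[X]} (g : R[X]) (hf : f.natDegree ≤ 2 * N) : polA (pvec N f g) = f :=
  dsh_sum hf

theorem polB_pvec (f : R[X]) {g : R[X]} (hg : g.natDegree ≤ 4 * N) : polB (pvec N f g) = g :=
  dsh_sum hg

/-- The coefficients of `a(t + z)`, `b(t + z)`. -/
noncomputable def shiftP (z : R) (v : PIdx N → R) : PIdx N → R :=
  pvec N ((polA v).comp (X + C z)) ((polB v).comp (X + C z))

theorem polA_shiftP (z : R) (v : PIdx N → R) : polA (shiftP z v) = (polA v).comp (X + C z) :=
  polA_pvec _ (dsh_comp_deg (polA_natDegree_le v) z)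

theorem polB_shiftP (z : R) (v : PIdx N → R) : polB (shiftP z v) = (polB v).comp (X + C z) :=
  polB_pvec _ (dsh_comp_deg (polB_natDegree_le v) z)

theorem polD_shiftP (z : R) (v : PIdx N → R) : polD (shiftP z v) = (polD v).comp (X + C z) := by
  unfold polD
  rw [polA_shiftP, polB_shiftP, sub_comp, pow_comp, mul_comp]
  congr 2
  have h4 : (4 : R[X]) = C 4 := by
    rw [← map_ofNat C 4]
  rw [h4, C_comp]

theorem shiftP_zero (v : PIdx N → R) : shiftP 0 v = v := by
  refine pidx_ext ?_ ?_
  · rw [polA_shiftP, C_0, add_zero, comp_X]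
  · rw [polB_shiftP, C_0, add_zero, comp_X]

theorem shiftP_shiftP (z z' : R) (v : PIdx N → R) : shiftP z (shiftP z' v) = shiftP (z + z') v := by
  have e : (X + C z' : R[X]).comp (X + C z) = X + C (z + z') := by
    rw [add_comp, X_comp, C_comp, add_assoc, ← C_add]
  refine pidx_ext ?_ ?_
  · rw [polA_shiftP, polA_shiftP, polA_shiftP, comp_assoc, e]
  · rw [polB_shiftP, polB_shiftP, polB_shiftP, comp_assoc, e]

end

section

variable {N : ℕ} {K : Type}

/-- Exactly one double root, at `z`, of `b`; `Δ` separable: the conditions over a field. -/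
structure GenP [CommRing K] (u : PIdx N → K) (z : K) : Prop where
  leadB : (polB u).coeff (4 * N) ≠ 0
  leadD : (polD u).coeff (4 * N) ≠ 0
  sep : (polD u).Separable
  dbl : ∃ h : K[X], polB u = (X - C z) ^ 2 * h ∧ h.eval z ≠ 0 ∧ h.Separable

private theorem dsh_lead [Field K] (f : K[X]) (n : ℕ) (hf : f.natDegree ≤ n) (z : K) :
    (f.comp (X + C z)).coeff n = f.coeff n := by
  rw [← Polynomial.taylor_apply]
  rcases hf.lt_or_eq with h | h
  · rw [Polynomial.coeff_eq_zero_of_natDegree_lt h, Polynomial.coeff_eq_zero_of_natDegree_lt]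
    rw [Polynomial.natDegree_taylor]
    exact h
  · rw [← h, Polynomial.coeff_taylor_natDegree]
    rfl

private theorem GenP.shift_dsh [Field K] {u : PIdx N → K} {z : K} (h : GenP u z) (z' : K) :
    GenP (shiftP z' u) (z - z') := by
  obtain ⟨g, hg, hg0, hgs⟩ := h.dbl
  refine ⟨?_, ?_, ?_, g.comp (X + C z'), ?_, ?_, ?_⟩
  · rw [polB_shiftP, dsh_lead _ _ (polB_natDegree_le u)]
    exact h.leadB
  · rw [polD_shiftP, dsh_lead _ _ (polD_natDegree_le u)]
    exact h.leadD
  · rw [polD_shiftP, separable_comp_iff]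
    exact h.sep
  · rw [polB_shiftP, hg, mul_comp, pow_comp, sub_comp, X_comp, C_comp, C_sub]
    ring
  · rw [eval_comp, eval_add, eval_X, eval_C, sub_add_cancel]
    exact hg0
  · rw [separable_comp_iff]
    exact hgs

/-- (as `GenD.shift_iff`) -/
theorem GenP.shift_iff [Field K] (u : PIdx N → K) (z : K) : GenP u z ↔ GenP (shiftP z u) 0 := by
  constructor
  · intro h
    have h' := h.shift_dsh z
    rwa [sub_self] at h'
  · intro h
    have h' := h.shift_dsh (-z)
    rwa [shiftP_shiftP, neg_add_cancel, shiftP_zero, zero_sub, neg_neg] at h'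

/-- (as `GenD.unique`) -/
theorem GenP.unique [Field K] {u : PIdx N → K} {z z' : K} (h : GenP u z) (h' : GenP u z') :
    z = z' := by
  by_contra hne
  obtain ⟨g, hg, hg0, hgs⟩ := h.dbl
  obtain ⟨g', hg', -, -⟩ := h'.dbl
  have h1 : IsCoprime ((X - C z') ^ 2 : K[X]) ((X - C z) ^ 2) :=
    (isCoprime_X_sub_C_of_isUnit_sub (sub_ne_zero.2 (Ne.symm hne)).isUnit).pow
  have h2 : ((X - C z') ^ 2 : K[X]) ∣ (X - C z) ^ 2 * g := by
    rw [← hg, hg']
    exact dvd_mul_right _ _
  have h3 := h1.dvd_of_dvd_mul_left h2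
  have h4 : (X - C z' : K[X]) * (X - C z') ∣ g := by
    rw [← sq]
    exact h3
  exact not_isUnit_X_sub_C z' (hgs.squarefree _ h4)

end

end Pool.Agent.Lib.MP_89bcae_ag
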