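import Mathlib
import Pool.Agent.Lib.MP_89bcae_ag.Xe.DSh

/-!
# The bijection `(a, b) ↦ (-2 a, Δ)`, which exchanges `b` and `Δ`
-/

open Polynomial

open scoped Classical

namespace Pool.Agent.Lib.MP_89bcae_ag

section

variable {N : ℕ} {R : Type*} [CommRing R]

/-- The coefficients of `-2 a` and `Δ`. -/
noncomputable def exch (v : PIdx N → R) : PIdx N → R := pvec N (C (-2) * polA v) (polD v)

theorem polA_exch (v : PIdx N → R) : polA (exch v) = C (-2) * polA v :=
  polA_pvec _ ((natDegree_C_mul_le _ _).trans (polA_natDegree_le v))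

theorem polB_exch (v : PIdx N → R) : polB (exch v) = polD v :=
  polB_pvec _ (polD_natDegree_le v)

theorem polD_exch (v : PIdx N → R) : polD (exch v) = C 16 * polB v := by
  have h1 : (C (-2) : R[X]) = -2 := by rw [map_neg, map_ofNat]
  have h2 : (C 16 : R[X]) = 16 := map_ofNat _ 16
  rw [polD, polA_exch, polB_exch, polD, h1, h2]
  ring

theorem exch_map {S : Type*} [CommRing S] (φ : R →+* S) (v : PIdx N → R) :
    (fun x => φ (exch v x)) = exch (fun x => φ (v x)) := by
  apply pidx_ext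
  · rw [← polA_map, polA_exch, polA_exch, Polynomial.map_mul, polA_map, map_C, map_neg,
      map_ofNat]
  · rw [← polB_map, polB_exch, polB_exch, polD_map]

theorem exch_injective (h2 : IsUnit (2 : R)) : Function.Injective (exch : (PIdx N → R) → _) := by
  intro v w hvw
  have hu : IsUnit (C (-2) : R[X]) := by
    rw [isUnit_C]
    exact h2.neg
  have hA : polA v = polA w := by
    have h3 : polA (exch v) = polA (exch w) := by rw [hvw]
    rw [polA_exch, polA_exch] at h3
    exact hu.mul_left_cancel h3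
  have hu4 : IsUnit (4 : R[X]) := by
    have h3 : IsUnit (C 2 : R[X]) := isUnit_C.2 h2
    have h4 : (4 : R[X]) = C 2 * C 2 := by
      rw [map_ofNat]
      norm_num
    rw [h4]
    exact h3.mul h3
  have hB : polB v = polB w := by
    have h3 : polB (exch v) = polB (exch w) := by rw [hvw]
    rw [polB_exch, polB_exch, polD, polD, hA] at h3
    exact hu4.mul_left_cancel (sub_right_injective h3)
  exact pidx_ext hA hB

/-- The number of the vectors with a property of the exchanged vector. -/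
theorem ncard_exch [Finite R] (h2 : IsUnit (2 : R)) (Q : (PIdx N → R) → Prop) :
    {v : PIdx N → R | Q (exch v)}.ncard = {v : PIdx N → R | Q v}.ncard := by
  have h3 := exch_injective (N := N) h2
  have h4 : Function.Surjective (exch : (PIdx N → R) → _) :=
    Finite.injective_iff_surjective.1 h3
  exact Set.ncard_preimage_of_injective_subset_range (s := {v : PIdx N → R | Q v}) h3
    (by rw [h4.range_eq]; exact Set.subset_univ _)

end

theorem isColP_of_smul {p n : ℕ} (hp : p.Prime) (hp2 : p ≠ 2) {f g : ℤ[X]}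
    (h : IsColP p n f (C 16 * g)) : IsColP p n f g := by
  refine ⟨h.leadf, fun hd => h.leadg ?_, ?_, h.dbl⟩
  · rw [coeff_C_mul]
    exact Dvd.dvd.mul_left hd _
  · have h1 := h.sep
    rw [Polynomial.map_mul] at h1
    exact h1.of_mul_right

section

variable {N : ℕ}

/-- (`polB w = polyOf8 (w ∘ Sum.inr)`, and the vectors of the coefficients of `a` are free.) -/
theorem ncard_polB {p : ℕ} [Fact p.Prime] (Q : (ZMod p)[X] → Prop) :
    {w : PIdx N → ZMod p | Q (polB w)}.ncard =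
      p ^ (2 * N + 1) * {v : Fin (4 * N + 1) → ZMod p | Q (polyOf8 v)}.ncard := by
  have h1 : {w : PIdx N → ZMod p | Q (polB w)} =
      (Equiv.sumArrowEquivProdArrow (Fin (2 * N + 1)) (Fin (4 * N + 1)) (ZMod p)) ⁻¹'
        ((Set.univ : Set (Fin (2 * N + 1) → ZMod p)) ×ˢ
          {v : Fin (4 * N + 1) → ZMod p | Q (polyOf8 v)}) := by
    ext w
    simp only [Set.mem_setOf_eq, Set.mem_preimage, Set.mem_prod, Set.mem_univ, true_and]
    exact Iff.rfl
  rw [h1, Set.ncard_preimage_of_injective_subset_range (Equiv.injective _)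
    (by rw [Equiv.range_eq_univ]; exact Set.subset_univ _), Set.ncard_prod, Set.ncard_univ]
  congr 1
  rw [Nat.card_eq_fintype_card, Fintype.card_fun, ZMod.card, Fintype.card_fin]

/-- The passage from the counts of `b` to the counts of the pairs. -/
private theorem D7_count (T : ∀ p : ℕ, Fact p.Prime → (ZMod p)[X] → Prop)
    (h : ∃ c : ℝ, 0 < c ∧ ∃ P₀ : ℕ, ∀ p : ℕ, ∀ hp : Fact p.Prime, P₀ ≤ p →
      c * (p : ℝ) ^ (4 * N + 1) ≤
        ({v : Fin (4 * N + 1) → ZMod p | T p hp (polyOf8 v)}.ncard : ℝ)) :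
    ∃ c : ℝ, 0 < c ∧ ∃ P₀ : ℕ, ∀ p : ℕ, ∀ hp : Fact p.Prime, P₀ ≤ p →
      c / p * (p : ℝ) ^ Fintype.card (PIdx N) ≤
        ({w : PIdx N → ZMod p | T p hp (polB w)}.ncard : ℝ) := by
  obtain ⟨c, hc, P₀, h⟩ := h
  refine ⟨c, hc, P₀, fun p hp hpP => ?_⟩
  have h1 := h p hp hpP
  have hp1 : (1 : ℝ) ≤ p := by exact_mod_cast hp.out.one_lt.le
  have hcard : Fintype.card (PIdx N) = (2 * N + 1) + (4 * N + 1) := by
    rw [Fintype.card_sum, Fintype.card_fin, Fintype.card_fin]
  rw [ncard_polB (T p hp), hcard, pow_add]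
  push_cast
  calc c / p * ((p : ℝ) ^ (2 * N + 1) * (p : ℝ) ^ (4 * N + 1))
      ≤ c * ((p : ℝ) ^ (2 * N + 1) * (p : ℝ) ^ (4 * N + 1)) := by
        apply mul_le_mul_of_nonneg_right (div_le_self hc.le hp1)
        positivity
    _ = (p : ℝ) ^ (2 * N + 1) * (c * (p : ℝ) ^ (4 * N + 1)) := by ring
    _ ≤ _ := mul_le_mul_of_nonneg_left h1 (by positivity)

/-- Types A and B of `b` (`count_typeAX14`, `count_typeBX14`). -/
theorem count_polB_A (hN : 1 ≤ N) : ∃ c : ℝ, 0 < c ∧ ∃ P₀ : ℕ, ∀ p : ℕ, ∀ _ : Fact p.Prime, P₀ ≤ p →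
    c / p * (p : ℝ) ^ Fintype.card (PIdx N) ≤
      ({w : PIdx N → ZMod p | TypeAX14 (polB w) (4 * N)}.ncard : ℝ) :=
  D7_count (fun _ _ D => TypeAX14 D (4 * N)) (count_typeAX14 (4 * N) (by omega))

theorem count_polB_B (hN : 1 ≤ N) : ∃ c : ℝ, 0 < c ∧ ∃ P₀ : ℕ, ∀ p : ℕ, ∀ _ : Fact p.Prime, P₀ ≤ p →
    c / p * (p : ℝ) ^ Fintype.card (PIdx N) ≤
      ({w : PIdx N → ZMod p | TypeBX14 (polB w) (4 * N)}.ncard : ℝ) :=
  D7_count (fun _ _ D => TypeBX14 D (4 * N)) (count_typeBX14 (4 * N) (by omega))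

end

end Pool.Agent.Lib.MP_89bcae_ag
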