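import Mathlib
import Pool.Agent.Lib.MP_89bcae_ag.Xe.DSh
import Pool.Agent.Lib.MP_89bcae_ag.Xe.DGen

/-!
# The generic pairs with a double root of `b` at `0`
-/

open Polynomial

open scoped Classical

namespace Pool.Agent.Lib.MP_89bcae_ag

variable {N : ℕ}

/-- The vector with the coefficients of degree `0` and `1` of `b` replaced by `0`. -/
noncomputable def colP {R : Type*} [CommRing R] (u : PIdx N → R) : PIdx N → R :=
  fun x => if x = Sum.inr 0 ∨ x = Sum.inr 1 then 0 else u x

/-- The generic vector. -/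
noncomputable def genV (N : ℕ) : PIdx N → MvPolynomial (PIdx N) ℤ := colP MvPolynomial.X

lemma spec_colP {K : Type} [Field K] (u : PIdx N → K) :
    (fun x => (MvPolynomial.aeval (R := ℤ) u).toRingHom (genV N x)) = colP u := by
  funext x
  unfold genV colP
  split_ifs
  · exact map_zero _
  · exact MvPolynomial.aeval_X u x

lemma spec_polB_genV {K : Type} [Field K] (u : PIdx N → K) : spec u (polB (genV N)) = polB (colP u) := by
  unfold spec
  rw [polB_map, spec_colP]

lemma spec_polD_genV {K : Type} [Field K] (u : PIdx N → K) : spec u (polD (genV N)) = polD (colP u) := by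
  unfold spec
  rw [polD_map, spec_colP]

lemma polB_coeff_last {R : Type*} [CommRing R] (u : PIdx N → R) :
    (polB u).coeff (4 * N) = u (Sum.inr (Fin.last _)) := by
  have h := polB_coeff u (Fin.last (4 * N))
  rwa [Fin.val_last] at h

lemma colP_last {R : Type*} [CommRing R] (hN : 1 ≤ N) (u : PIdx N → R) :
    colP u (Sum.inr (Fin.last (4 * N))) = u (Sum.inr (Fin.last (4 * N))) := by
  unfold colP
  rw [if_neg]
  rintro (h | h)
  · have h1 : Fin.last (4 * N) = 0 := Sum.inr_injective h
    have h2 := congrArg Fin.val h1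
    rw [Fin.val_last, Fin.val_zero] at h2
    omega
  · have h1 : Fin.last (4 * N) = 1 := Sum.inr_injective h
    have h2 := congrArg Fin.val h1
    rw [Fin.val_last, Fin.val_one', Nat.mod_eq_of_lt (by omega)] at h2
    omega

/-- A vector of `b` whose coefficients of degree `0` and `1` vanish is not changed. -/
lemma colP_pvec {R : Type*} [CommRing R] (hN : 1 ≤ N) (f g : R[X]) (h0 : g.coeff 0 = 0) (h1 : g.coeff 1 = 0) :
    colP (pvec N f g) = pvec N f g := by
  funext x
  unfold colP
  split_ifs with h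
  · rcases h with rfl | rfl
    · change 0 = g.coeff ((0 : Fin (4 * N + 1)) : ℕ)
      rw [Fin.val_zero, h0]
    · change 0 = g.coeff ((1 : Fin (4 * N + 1)) : ℕ)
      rw [Fin.val_one', Nat.mod_eq_of_lt (by omega), h1]
  · rfl

/-- The quotient of the generic `b` by `X ^ 2`. -/
noncomputable def genH (N : ℕ) : (MvPolynomial (PIdx N) ℤ)[X] := (polB (genV N)).divX.divX

lemma genH_eq (hN : 1 ≤ N) : polB (genV N) = X ^ 2 * genH N := by
  have h0 : (polB (genV N)).coeff 0 = 0 := by
    have h := polB_coeff (genV N) 0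
    rw [Fin.val_zero] at h
    rw [h]
    unfold genV colP
    rw [if_pos (Or.inl rfl)]
  have h1 : (polB (genV N)).coeff 1 = 0 := by
    have h := polB_coeff (genV N) 1
    rw [Fin.val_one', Nat.mod_eq_of_lt (by omega)] at h
    rw [h]
    unfold genV colP
    rw [if_pos (Or.inr rfl)]
  have e1 := divX_mul_X_add (polB (genV N))
  have e2 := divX_mul_X_add (polB (genV N)).divX
  rw [h0, C_0, add_zero] at e1
  rw [coeff_divX, zero_add, h1, C_0, add_zero] at e2
  unfold genH
  calc polB (genV N) = (polB (genV N)).divX * X := e1.symm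
    _ = (polB (genV N)).divX.divX * X * X := by rw [e2]
    _ = _ := by ring

lemma genH_natDegree (N : ℕ) : (genH N).natDegree ≤ 4 * N - 2 := by
  unfold genH
  rw [natDegree_divX_eq_natDegree_tsub_one, natDegree_divX_eq_natDegree_tsub_one]
  have := polB_natDegree_le (genV N)
  omega

lemma spec_genH {K : Type} [Field K] (hN : 1 ≤ N) (u : PIdx N → K) {h : K[X]}
    (hu : polB (colP u) = X ^ 2 * h) : spec u (genH N) = h := by
  have h1 : spec u (polB (genV N)) = X ^ 2 * spec u (genH N) := by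
    rw [genH_eq hN]
    unfold spec
    rw [Polynomial.map_mul, Polynomial.map_pow, map_X]
  rw [spec_polB_genV, hu] at h1
  exact (mul_left_cancel₀ (pow_ne_zero 2 X_ne_zero) h1).symm

/-- The pair `a = 1`, `b = X ^ (4 N)`. -/
noncomputable def ptD (N : ℕ) : PIdx N → ℚ := pvec N 1 (X ^ (4 * N))

lemma polD_ptD (hN : 1 ≤ N) : polD (colP (ptD N)) = C (-4) * X ^ (4 * N) + C 1 := by
  unfold ptD
  rw [colP_pvec hN _ _ (by rw [coeff_X_pow, if_neg (by omega)]) (by rw [coeff_X_pow, if_neg (by omega)])]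
  unfold polD
  rw [polA_pvec _ (by rw [natDegree_one]; omega), polB_pvec _ (by rw [natDegree_X_pow])]
  have e : (C (-4) : ℚ[X]) = -4 := by rw [C_neg]; rfl
  rw [e, C_1]
  ring

/-- The pair `a = 0`, `b = X ^ (4 N) + X ^ 2`. -/
noncomputable def ptB (N : ℕ) : PIdx N → ℚ := pvec N 0 (X ^ (4 * N) + X ^ 2)

lemma polB_ptB (hN : 1 ≤ N) : polB (colP (ptB N)) = X ^ 2 * (C 1 * X ^ (4 * N - 2) + C 1) := by
  unfold ptB
  rw [colP_pvec hN, polB_pvec]
  · have e : (X : ℚ[X]) ^ (4 * N) = X ^ 2 * X ^ (4 * N - 2) := by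
      rw [← pow_add]
      congr 1
      omega
    rw [e, C_1]
    ring
  · refine (natDegree_add_le _ _).trans ?_
    rw [natDegree_X_pow, natDegree_X_pow]
    omega
  · rw [coeff_add, coeff_X_pow, coeff_X_pow, if_neg (by omega), if_neg (by omega), add_zero]
  · rw [coeff_add, coeff_X_pow, coeff_X_pow, if_neg (by omega), if_neg (by omega), add_zero]

lemma separable_binP {A B : ℚ} (m : ℕ) (hm : m ≠ 0) (hA : A ≠ 0) (hB : B ≠ 0) :
    (C A * X ^ m + C B).Separable := by
  have h1 : (C A * X ^ m + C B : ℚ[X]) = C A * (X ^ m - C (-B / A)) := by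
    rw [mul_sub, ← C_mul]
    have : A * (-B / A) = -B := by field_simp
    rw [this, C_neg, sub_neg_eq_add]
  rw [h1]
  exact Separable.unit_mul (isUnit_C.2 (isUnit_iff_ne_zero.2 hA))
    (separable_X_pow_sub_C _ (by exact_mod_cast hm) (div_ne_zero (neg_ne_zero.2 hB) hA))

theorem isGeneric_genP (hN : 1 ≤ N) :
    IsGeneric (fun (K : Type) [Field K] (u : PIdx N → K) =>
      GenP (fun x => if x = Sum.inr 0 ∨ x = Sum.inr 1 then 0 else u x) 0) := by
  have G1 : IsGeneric (fun (K : Type) [Field K] (u : PIdx N → K) =>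
      MvPolynomial.aeval u (MvPolynomial.X (Sum.inr (Fin.last (4 * N))) : MvPolynomial (PIdx N) ℤ) ≠ 0) := by
    refine isGeneric_ne _ ⟨ptD N, ?_⟩
    rw [MvPolynomial.aeval_X]
    change (X ^ (4 * N) : ℚ[X]).coeff ((Fin.last (4 * N) : Fin (4 * N + 1)) : ℕ) ≠ 0
    rw [Fin.val_last, coeff_X_pow, if_pos rfl]
    exact one_ne_zero
  have G2 := isGeneric_separable (polD (genV N)) (4 * N) (polD_natDegree_le _) (ptD N) (by
    rw [spec_polD_genV, polD_ptD hN, coeff_add, coeff_C_mul_X_pow, if_pos rfl, coeff_C, if_neg (by omega)]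
    norm_num) (by
    rw [spec_polD_genV, polD_ptD hN]
    exact separable_binP _ (by omega) (by norm_num) one_ne_zero)
  have hsH : spec (ptB N) (genH N) = C 1 * X ^ (4 * N - 2) + C 1 := spec_genH hN _ (polB_ptB hN)
  have G3 := isGeneric_separable (genH N) (4 * N - 2) (genH_natDegree N) (ptB N) (by
    rw [hsH, coeff_add, coeff_C_mul_X_pow, if_pos rfl, coeff_C, if_neg (by omega)]
    norm_num) (by
    rw [hsH]
    exact separable_binP _ (by omega) one_ne_zero one_ne_zero)
  have G4 : IsGeneric (fun (K : Type) [Field K] (u : PIdx N → K) =>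
      MvPolynomial.aeval u ((genH N).coeff 0) ≠ 0) := by
    refine isGeneric_ne _ ⟨ptB N, ?_⟩
    have h1 : MvPolynomial.aeval (ptB N) ((genH N).coeff 0) = (spec (ptB N) (genH N)).coeff 0 := by
      unfold spec
      rw [coeff_map]
      rfl
    rw [h1, hsH, coeff_add, coeff_C_mul_X_pow, if_neg (by omega), coeff_C, if_pos rfl]
    norm_num
  refine ((G1.and G2).and (G3.and G4)).mono fun K _ u hu => ?_
  obtain ⟨⟨h1, h2, h3⟩, ⟨-, h4⟩, h5⟩ := hu
  rw [spec_polD_genV] at h2 h3
  have e : (fun x => if x = Sum.inr 0 ∨ x = Sum.inr 1 then 0 else u x) = colP u := rfl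
  rw [e]
  refine ⟨?_, h2, h3, spec u (genH N), ?_, ?_, h4⟩
  · rw [polB_coeff_last, colP_last hN]
    rwa [MvPolynomial.aeval_X] at h1
  · rw [← spec_polB_genV, genH_eq hN, C_0, sub_zero]
    unfold spec
    rw [Polynomial.map_mul, Polynomial.map_pow, map_X]
  · rw [← coeff_zero_eq_eval_zero]
    unfold spec
    rw [coeff_map]
    exact h5

end Pool.Agent.Lib.MP_89bcae_ag
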