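import Mathlib
import Pool.Agent.Lib.MP_89bcae_ag.Xe.DGen

/-!
# The schemes of the counting and of the density, for a finite index type
-/

open Polynomial Filter Topology

open scoped Classical

namespace Pool.Agent.Lib.MP_89bcae_ag

variable {κ : Type} [Fintype κ]

omit [Fintype κ] in
/-- The vectors with a point `z`: `p` times the number of those with the point `0`. -/
private theorem count_transP {p : ℕ} [Fact p.Prime] (T : ZMod p → (κ → ZMod p) → κ → ZMod p)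
    (hT0 : ∀ u, T 0 u = u) (hTT : ∀ z z' u, T z (T z' u) = T (z + z') u)
    (Gen : (κ → ZMod p) → ZMod p → Prop)
    (hT : ∀ u z, Gen u z ↔ Gen (T z u) 0) (hU : ∀ u z z', Gen u z → Gen u z' → z = z') :
    ({u | ∃ z, Gen u z}).ncard = p * ({u | Gen u 0}).ncard := by
  have hss : ∀ (z : ZMod p) (u : κ → ZMod p), T z (T (-z) u) = u := by
    intro z u
    rw [hTT, add_neg_cancel, hT0]
  have hGen : ∀ (z : ZMod p) (u : κ → ZMod p), Gen u 0 → Gen (T (-z) u) z := by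
    intro z u hu
    rw [hT, hss]
    exact hu
  have himg : ({u | ∃ z, Gen u z} : Set (κ → ZMod p)) =
      (fun x : ZMod p × (κ → ZMod p) => T (-x.1) x.2) ''
        ((Set.univ : Set (ZMod p)) ×ˢ {u | Gen u 0}) := by
    ext u
    constructor
    · rintro ⟨z, hz⟩
      refine ⟨(z, T z u), ⟨Set.mem_univ _, (hT u z).mp hz⟩, ?_⟩
      change T (-z) (T z u) = u
      rw [hTT, neg_add_cancel, hT0]
    · rintro ⟨⟨z, u'⟩, ⟨-, hu'⟩, rfl⟩
      exact ⟨z, hGen z u' hu'⟩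
  have hinj : Set.InjOn (fun x : ZMod p × (κ → ZMod p) => T (-x.1) x.2)
      ((Set.univ : Set (ZMod p)) ×ˢ {u | Gen u 0}) := by
    rintro ⟨z, u⟩ ⟨-, hu⟩ ⟨z', u'⟩ ⟨-, hu'⟩ hxy
    have hxy' : T (-z) u = T (-z') u' := hxy
    have h1 : Gen (T (-z) u) z := hGen z u hu
    have h2 : Gen (T (-z) u) z' := by
      rw [hxy']
      exact hGen z' u' hu'
    have h3 : z = z' := hU _ _ _ h1 h2
    subst h3
    have h4 := congrArg (T z) hxy'
    rw [hss, hss] at h4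
    rw [h4]
  rw [himg, hinj.ncard_image, Set.ncard_prod, Set.ncard_univ, Nat.card_eq_fintype_card,
    ZMod.card]

/-- Two coordinates are replaced by `0`. -/
private theorem count_zeroP {p : ℕ} [Fact p.Prime] (c₁ c₂ : κ) (P : (κ → ZMod p) → Prop) :
    ({u : κ → ZMod p | P (fun x => if x = c₁ ∨ x = c₂ then 0 else u x)}).ncard ≤
      p ^ 2 * ({u : κ → ZMod p | P u}).ncard := by
  have h1 : ((Set.univ : Set (ZMod p × ZMod p)) ×ˢ ({u : κ → ZMod p | P u})).ncard =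
      p ^ 2 * ({u : κ → ZMod p | P u}).ncard := by
    rw [Set.ncard_prod, Set.ncard_univ, Nat.card_prod, Nat.card_zmod, pow_two]
  rw [← h1]
  refine Set.ncard_le_ncard_of_injOn
    (fun u => ((u c₁, u c₂), fun x => if x = c₁ ∨ x = c₂ then 0 else u x)) ?_ ?_ (Set.toFinite _)
  · intro u hu
    exact ⟨Set.mem_univ _, hu⟩
  · intro u _ v _ huv
    have h2 := congrArg (fun z => z.1.1) huv
    have h3 := congrArg (fun z => z.1.2) huv
    have h4 := congrArg (fun z => z.2) huv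
    funext x
    by_cases hx : x = c₁ ∨ x = c₂
    · rcases hx with rfl | rfl
      · exact h2
      · exact h3
    · have h5 := congrFun h4 x
      simp only [if_neg hx] at h5
      exact h5

/-- Row 89bX-D3. `count_scheme` (Gph/Shift.lean; copy its proof and the one of `count_trans`) for a
finite index type `κ`, with an action `T` of the translations, and with the coordinates `c₁`, `c₂`
replaced by `0` (instead of the collapse `s`). -/
theorem countP_scheme (c₁ c₂ c : κ)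
    (T : ∀ p : ℕ, ZMod p → (κ → ZMod p) → κ → ZMod p)
    (hT0 : ∀ p : ℕ, p.Prime → ∀ u, T p 0 u = u)
    (hTT : ∀ p : ℕ, p.Prime → ∀ z z' u, T p z (T p z' u) = T p (z + z') u)
    (Δ : MvPolynomial κ ℤ) (hΔ : Δ ≠ 0)
    (Gen : ∀ p : ℕ, (κ → ZMod p) → ZMod p → Prop)
    (hT : ∀ p : ℕ, p.Prime → ∀ u z, Gen p u z ↔ Gen p (T p z u) 0)
    (hU : ∀ p : ℕ, p.Prime → ∀ u z z', Gen p u z → Gen p u z' → z = z')
    (h0 : ∀ p : ℕ, p.Prime → ∀ u : κ → ZMod p, MvPolynomial.aeval u Δ ≠ 0 →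
      Gen p (fun x => if x = c₁ ∨ x = c₂ then 0 else u x) 0)
    (G : ∀ p : ℕ, Set (κ → ZMod (p ^ 2)))
    (hG : ∀ p : ℕ, p.Prime → ∀ w, (∃ z, Gen p (redp p w) z) → w ∉ G p →
      Function.update w c (w c + (p : ZMod (p ^ 2))) ∈ G p) :
    ∃ P₀ : ℕ, ∀ p : ℕ, p.Prime → P₀ ≤ p →
      (1 / 4 : ℝ) / p * ((p ^ 2 : ℕ) : ℝ) ^ Fintype.card κ ≤ (G p).ncard := by
  obtain ⟨P₁, D, hD⟩ := count_zeros Δ hΔ
  refine ⟨max P₁ (2 * D), fun p hp hpP => ?_⟩
  have : Fact p.Prime := ⟨hp⟩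
  have hpos : 0 < p := hp.pos
  set N := Fintype.card κ with hN
  -- the nonzeros of the polynomial
  set Z : Set (κ → ZMod p) := {u | MvPolynomial.aeval u Δ = 0} with hZ
  set A : Set (κ → ZMod p) := {u | Gen p (fun x => if x = c₁ ∨ x = c₂ then 0 else u x) 0} with hA
  set B : Set (κ → ZMod p) := {u | Gen p u 0} with hB
  set E : Set (κ → ZMod p) := {u | ∃ z, Gen p u z} with hE
  have h1 : Z.ncard * p ≤ D * p ^ N := hD p hp ((le_max_left _ _).trans hpP)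
  have h2 : Zᶜ.ncard + Z.ncard = p ^ N := by
    rw [add_comm, Set.ncard_add_ncard_compl, Nat.card_eq_fintype_card, Fintype.card_fun,
      ZMod.card]
  have h3 : Zᶜ.ncard ≤ A.ncard := Set.ncard_le_ncard (fun u hu => h0 p hp u hu) (Set.toFinite _)
  have h4 : A.ncard ≤ p ^ 2 * B.ncard := count_zeroP c₁ c₂ (fun u => Gen p u 0)
  have h5 : E.ncard = p * B.ncard :=
    count_transP (T p) (hT0 p hp) (hTT p hp) (Gen p) (hT p hp) (hU p hp)
  have h6 : E.ncard * p ^ N ≤ 2 * (G p).ncard :=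
    half_lift hp E c (G p) (fun w hw hwG => by
      have h := hG p hp w hw hwG
      have e : ∀ (d1 d2 : DecidableEq κ),
          @Function.update _ _ d1 w c (w c + (p : ZMod (p ^ 2))) =
            @Function.update _ _ d2 w c (w c + (p : ZMod (p ^ 2))) := fun d1 d2 => by
        rw [Subsingleton.elim d1 d2]
      exact (e _ _) ▸ h)
  -- the estimates
  have hp2D : 2 * D ≤ p := (le_max_right _ _).trans hpP
  have hpR : (0 : ℝ) < p := by exact_mod_cast hpos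
  have h1' : (Z.ncard : ℝ) * p ≤ D * (p : ℝ) ^ N := by exact_mod_cast h1
  have h2' : (Zᶜ.ncard : ℝ) + Z.ncard = (p : ℝ) ^ N := by exact_mod_cast h2
  have h34 : (Zᶜ.ncard : ℝ) ≤ (p : ℝ) ^ 2 * B.ncard := by exact_mod_cast h3.trans h4
  have h5' : (E.ncard : ℝ) = p * B.ncard := by exact_mod_cast h5
  have h6' : (E.ncard : ℝ) * (p : ℝ) ^ N ≤ 2 * (G p).ncard := by exact_mod_cast h6
  have hD' : 2 * (D : ℝ) ≤ p := by exact_mod_cast hp2D
  have hpN : (0 : ℝ) < (p : ℝ) ^ N := pow_pos hpR N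
  -- `2 #Z ≤ p ^ N`
  have h7 : 2 * (Z.ncard : ℝ) ≤ (p : ℝ) ^ N := by
    have h8 : 2 * (Z.ncard : ℝ) * p ≤ (p : ℝ) ^ N * p := by
      calc 2 * (Z.ncard : ℝ) * p = 2 * ((Z.ncard : ℝ) * p) := by ring
        _ ≤ 2 * (D * (p : ℝ) ^ N) := by linarith
        _ = (2 * (D : ℝ)) * (p : ℝ) ^ N := by ring
        _ ≤ p * (p : ℝ) ^ N := mul_le_mul_of_nonneg_right hD' hpN.le
        _ = (p : ℝ) ^ N * p := by ring
    exact le_of_mul_le_mul_right h8 hpR
  -- `p ^ N ≤ 2 p ^ 2 #B`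
  have h9 : (p : ℝ) ^ N ≤ 2 * ((p : ℝ) ^ 2 * B.ncard) := by linarith
  have h10 : (p : ℝ) ^ N * (p : ℝ) ^ N ≤ 4 * (p * (G p).ncard) := by
    calc (p : ℝ) ^ N * (p : ℝ) ^ N ≤ 2 * ((p : ℝ) ^ 2 * B.ncard) * (p : ℝ) ^ N :=
          mul_le_mul_of_nonneg_right h9 hpN.le
      _ = 2 * p * ((p * B.ncard) * (p : ℝ) ^ N) := by ring
      _ = 2 * p * ((E.ncard : ℝ) * (p : ℝ) ^ N) := by rw [h5']
      _ ≤ 2 * p * (2 * (G p).ncard) := mul_le_mul_of_nonneg_left h6' (by positivity)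
      _ = 4 * (p * (G p).ncard) := by ring
  have h11 : (((p ^ 2 : ℕ) : ℝ)) ^ N = (p : ℝ) ^ N * (p : ℝ) ^ N := by
    push_cast
    rw [← pow_mul, mul_comm 2 N, pow_mul, sq]
  rw [h11]
  calc (1 / 4 : ℝ) / p * ((p : ℝ) ^ N * (p : ℝ) ^ N)
      ≤ (1 / 4 : ℝ) / p * (4 * (p * (G p).ncard)) :=
        mul_le_mul_of_nonneg_left h10 (by positivity)
    _ = (G p).ncard := by field_simp

/-- One condition, for the functions on `κ`. -/
private theorem transferP (e : κ ≃ Fin (Fintype.card κ)) (P : (κ → ℤ) → Prop) (H : ℕ) :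
    ({a : Fin (Fintype.card κ) → ℤ | (∀ i, |a i| ≤ H) ∧ ¬ P (a ∘ e)}).ncard =
      ({v : κ → ℤ | (∀ i, |v i| ≤ H) ∧ ¬ P v}).ncard := by
  have h1 : {v : κ → ℤ | (∀ i, |v i| ≤ H) ∧ ¬ P v} =
      (fun a : Fin (Fintype.card κ) → ℤ => a ∘ e) '' {a | (∀ i, |a i| ≤ H) ∧ ¬ P (a ∘ e)} := by
    ext v
    simp only [Set.mem_ofPred_eq, Set.mem_image]
    constructor
    · rintro ⟨h2, h3⟩
      refine ⟨v ∘ e.symm, ⟨fun i => h2 _, ?_⟩, ?_⟩
      · have h4 : (v ∘ e.symm) ∘ e = v := by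
          funext x
          simp
        rw [h4]
        exact h3
      · funext x
        simp
    · rintro ⟨a, ⟨h2, h3⟩, rfl⟩
      exact ⟨fun i => h2 _, h3⟩
  rw [h1, Set.ncard_image_of_injective]
  intro a b hab
  funext i
  have h2 := congrFun hab (e.symm i)
  simpa using h2

/-- Row 89bX-D3. `density_prime` and `density_transfer_h15` (Gph/Den.lean; copy) for a finite index
type. -/
theorem densityP_prime (M : ℕ → ℕ) (hM : ∀ p : ℕ, p.Prime → M p = p ∨ M p = p ^ 2)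
    (D : ∀ p : ℕ, Set (κ → ZMod (M p))) (P₀ : ℕ) (c : ℝ) (hc : 0 < c)
    (hD : ∀ p : ℕ, p.Prime → P₀ ≤ p → c / p * ((M p : ℕ) : ℝ) ^ Fintype.card κ ≤ (D p).ncard)
    (P : (κ → ℤ) → Prop)
    (hP : ∀ v, ∀ p : ℕ, p.Prime → P₀ ≤ p → (fun c => (v c : ZMod (M p))) ∈ D p → P v) :
    Tendsto (fun H : ℕ => ({v : κ → ℤ | (∀ i, |v i| ≤ H) ∧ ¬ P v}.ncard : ℝ) /
      (2 * H + 1) ^ Fintype.card κ) atTop (𝓝 0) := by
  let e : κ ≃ Fin (Fintype.card κ) := Fintype.equivFin _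
  have hcopM : ∀ p ∈ {p : ℕ | p.Prime ∧ P₀ ≤ p}, ∀ q ∈ {p : ℕ | p.Prime ∧ P₀ ≤ p}, p ≠ q →
      Nat.Coprime (M p) (M q) := by
    intro p hp q hq hpq
    have h1 : Nat.Coprime p q := (Nat.coprime_primes hp.1 hq.1).mpr hpq
    rcases hM p hp.1 with h2 | h2 <;> rcases hM q hq.1 with h3 | h3 <;> rw [h2, h3]
    · exact h1
    · exact Nat.Coprime.pow_right 2 h1
    · exact Nat.Coprime.pow_left 2 h1
    · exact Nat.Coprime.pow 2 2 h1
  have key : Tendsto (fun H : ℕ => ({a : Fin (Fintype.card κ) → ℤ | (∀ i, |a i| ≤ H) ∧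
      ¬ P (a ∘ e)}.ncard : ℝ) / (2 * H + 1) ^ Fintype.card κ) atTop (𝓝 0) := by
    refine density_crtB7 (Fintype.card κ) M
      (fun p => {w | (fun x => w (e x)) ∈ D p}) (fun p => c / p)
      {p : ℕ | p.Prime ∧ P₀ ≤ p} ?_ hcopM ?_ ?_ (fun a => P (a ∘ e)) ?_
    · intro p hp
      rcases hM p hp.1 with h2 | h2 <;> rw [h2]
      · exact hp.1.pos
      · exact pow_pos hp.1.pos 2
    · intro T
      obtain ⟨S, hS1, hS2⟩ := sum_residue_unbounded14 (q := 1) (a := 1) isUnit_one hc P₀ T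
      exact ⟨S, fun p hp => ⟨(hS1 p hp).1, (hS1 p hp).2.1⟩, hS2⟩
    · intro p hp
      have h1 : ({w : Fin (Fintype.card κ) → ZMod (M p) |
          (fun x => w (e x)) ∈ D p}).ncard = (D p).ncard := by
        refine Set.ncard_congr (fun w _ x => w (e x)) (fun w hw => hw) ?_ ?_
        · intro w w' _ _ h
          funext i
          have h2 := congrFun h (e.symm i)
          simpa using h2
        · intro u hu
          refine ⟨fun i => u (e.symm i), ?_, ?_⟩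
          · show (fun x => u (e.symm (e x))) ∈ D p
            simpa using hu
          · funext x
            simp
      show c / p * ((M p : ℕ) : ℝ) ^ Fintype.card κ ≤ _
      rw [h1]
      exact hD p hp.1 hp.2
    · intro a p hp ha
      exact hP (a ∘ e) p hp.1 hp.2 ha
  refine key.congr fun H => ?_
  rw [transferP e P H]

/-- The box, as a set of functions on a finite type, has `(2 H + 1) ^ card` elements. -/
private theorem boxP (H : ℕ) :
    ({v : κ → ℤ | ∀ i, |v i| ≤ H}).Finite ∧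
      (({v : κ → ℤ | ∀ i, |v i| ≤ H}).ncard : ℝ) = (2 * H + 1) ^ Fintype.card κ := by
  have h1 : {v : κ → ℤ | ∀ i, |v i| ≤ H} =
      ((Fintype.piFinset fun _ : κ => Finset.Icc (-(H : ℤ)) H : Finset (κ → ℤ)) :
        Set (κ → ℤ)) := by
    ext v
    simp only [Set.mem_ofPred_eq, Finset.mem_coe, Fintype.mem_piFinset, Finset.mem_Icc, abs_le]
  rw [h1]
  refine ⟨Finset.finite_toSet _, ?_⟩
  rw [Set.ncard_coe_finset, Fintype.card_piFinset]
  simp only [Int.card_Icc, Finset.prod_const, Finset.card_univ]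
  have h2 : ((H : ℤ) + 1 - -(H : ℤ)).toNat = 2 * H + 1 := by omega
  rw [h2]
  push_cast
  rfl

/-- Row 89bX-D3. Finitely many conditions of density one (as the end of `density_goodG`). -/
theorem densityP_all {T : Type} [Fintype T] (P : T → (κ → ℤ) → Prop)
    (h : ∀ t, Tendsto (fun H : ℕ => ({v : κ → ℤ | (∀ i, |v i| ≤ H) ∧ ¬ P t v}.ncard : ℝ) /
      (2 * H + 1) ^ Fintype.card κ) atTop (𝓝 0)) :
    Tendsto (fun H : ℕ => ({v : κ → ℤ | (∀ i, |v i| ≤ H) ∧ ∀ t, P t v}.ncard : ℝ) /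
      (2 * H + 1) ^ Fintype.card κ) atTop (𝓝 1) := by
  have hbad : Tendsto (fun H : ℕ => ({v : κ → ℤ | (∀ i, |v i| ≤ H) ∧ ¬ ∀ t, P t v}.ncard : ℝ) /
      (2 * H + 1) ^ Fintype.card κ) atTop (𝓝 0) := by
    have hsum : Tendsto (fun H : ℕ => ∑ t : T, ({v : κ → ℤ | (∀ i, |v i| ≤ H) ∧
        ¬ P t v}.ncard : ℝ) / (2 * H + 1) ^ Fintype.card κ) atTop (𝓝 0) := by
      have h1 := tendsto_finsetSum Finset.univ fun (t : T) _ => h t
      simpa using h1
    refine squeeze_zero (fun H => by positivity) (fun H => ?_) hsum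
    have hfin : ∀ t, ({v : κ → ℤ | (∀ i, |v i| ≤ H) ∧ ¬ P t v}).Finite := fun t =>
      (boxP H).1.subset fun v hv => hv.1
    have hsub : {v : κ → ℤ | (∀ i, |v i| ≤ H) ∧ ¬ ∀ t, P t v} ⊆
        (⋃ t ∈ (Finset.univ : Finset T), {v : κ → ℤ | (∀ i, |v i| ≤ H) ∧ ¬ P t v}) := by
      rintro v ⟨hv1, hv2⟩
      push Not at hv2
      obtain ⟨t, ht⟩ := hv2
      simp only [Set.mem_iUnion, Finset.mem_univ, exists_prop, true_and]
      exact ⟨t, hv1, ht⟩
    have hfinU : (⋃ t ∈ (Finset.univ : Finset T), {v : κ → ℤ | (∀ i, |v i| ≤ H) ∧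
        ¬ P t v}).Finite := Finset.univ.finite_toSet.biUnion fun t _ => hfin t
    rw [← Finset.sum_div]
    refine div_le_div_of_nonneg_right ?_ (by positivity)
    have h5 := (Set.ncard_le_ncard hsub hfinU).trans (Finset.set_ncard_biUnion_le _ _)
    exact_mod_cast h5
  have hfinal : ∀ H : ℕ, ({v : κ → ℤ | (∀ i, |v i| ≤ H) ∧ ∀ t, P t v}.ncard : ℝ) /
      (2 * H + 1) ^ Fintype.card κ =
      1 - ({v : κ → ℤ | (∀ i, |v i| ≤ H) ∧ ¬ ∀ t, P t v}.ncard : ℝ) /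
      (2 * H + 1) ^ Fintype.card κ := by
    intro H
    obtain ⟨h1, h2⟩ := boxP (κ := κ) H
    have h3 : {v : κ → ℤ | ∀ i, |v i| ≤ H} =
        {v : κ → ℤ | (∀ i, |v i| ≤ H) ∧ ∀ t, P t v} ∪
        {v : κ → ℤ | (∀ i, |v i| ≤ H) ∧ ¬ ∀ t, P t v} := by
      ext v
      simp only [Set.mem_ofPred_eq, Set.mem_union]
      tauto
    have h4 : Disjoint {v : κ → ℤ | (∀ i, |v i| ≤ H) ∧ ∀ t, P t v}
        {v : κ → ℤ | (∀ i, |v i| ≤ H) ∧ ¬ ∀ t, P t v} := by
      rw [Set.disjoint_left]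
      rintro v ⟨_, h5⟩ ⟨_, h6⟩
      exact h6 h5
    have h5 := Set.ncard_union_eq h4 (h1.subset fun v hv => hv.1) (h1.subset fun v hv => hv.1)
    rw [← h3] at h5
    have h6 : (({v : κ → ℤ | ∀ i, |v i| ≤ H}).ncard : ℝ) =
        ({v : κ → ℤ | (∀ i, |v i| ≤ H) ∧ ∀ t, P t v}.ncard : ℝ) +
        ({v : κ → ℤ | (∀ i, |v i| ≤ H) ∧ ¬ ∀ t, P t v}.ncard : ℝ) := by
      exact_mod_cast h5
    rw [h2] at h6
    have h7 : (0 : ℝ) < (2 * H + 1) ^ Fintype.card κ := by positivity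
    rw [eq_sub_iff_add_eq, ← add_div, ← h6, div_self h7.ne']
  simp_rw [hfinal]
  have h8 := hbad.const_sub 1
  rwa [sub_zero] at h8

end Pool.Agent.Lib.MP_89bcae_ag
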