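import Mathlib
import Pool.Agent.Lib.MP_89bcae_ag.Xe.DColA
import Pool.Agent.Lib.MP_89bcae_ag.Xe.DSch

/-!
# The number of the pairs with a collision modulo `p ^ 2`
-/

open Polynomial

open scoped Classical

namespace Pool.Agent.Lib.MP_89bcae_ag

variable {N : ℕ}

/-- The pairs with a collision modulo `p ^ 2`. -/
def TypePz (p : ℕ) (w : PIdx N → ZMod (p ^ 2)) : Prop :=
  ∃ z : ZMod (p ^ 2), GenP (redp p w) (ZMod.castHom (dvd_pow_self p two_ne_zero) (ZMod p) z) ∧
    (polB w).eval z ≠ 0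

theorem redp_updateP {p : ℕ} {κ : Type} [DecidableEq κ] (w : κ → ZMod (p ^ 2)) (c : κ) :
    redp p (Function.update w c (w c + (p : ZMod (p ^ 2)))) = redp p w := by
  funext d
  unfold redp
  by_cases h : d = c
  · subst h
    rw [Function.update_self, map_add, map_natCast, ZMod.natCast_self, add_zero]
  · rw [Function.update_of_ne h]

theorem polB_update {R : Type} [CommRing R] (w : PIdx N → R) (y : R) :
    polB (Function.update w (Sum.inr 0) (w (Sum.inr 0) + y)) = polB w + C y := by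
  unfold polB
  rw [← Finset.add_sum_erase _ _ (Finset.mem_univ (0 : Fin (4 * N + 1))),
    ← Finset.add_sum_erase (s := Finset.univ) (a := (0 : Fin (4 * N + 1)))
      (f := fun j : Fin (4 * N + 1) => C (w (Sum.inr j)) * X ^ (j : ℕ)) (h := Finset.mem_univ _)]
  have h1 : ∑ x ∈ Finset.univ.erase (0 : Fin (4 * N + 1)),
      C (Function.update w (Sum.inr 0) (w (Sum.inr 0) + y) (Sum.inr x)) * X ^ (x : ℕ) =
      ∑ x ∈ Finset.univ.erase (0 : Fin (4 * N + 1)), C (w (Sum.inr x)) * X ^ (x : ℕ) := by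
    refine Finset.sum_congr rfl fun x hx => ?_
    rw [Function.update_of_ne]
    intro h
    exact (Finset.mem_erase.1 hx).1 (Sum.inr_injective h)
  rw [h1, Function.update_self, Fin.val_zero, pow_zero, mul_one, mul_one, C_add]
  ring

/-- (As `TypeDz.flip`.) -/
theorem TypePz.flip {p : ℕ} (hp : p.Prime) (w : PIdx N → ZMod (p ^ 2))
    (h : ∃ z, GenP (redp p w) z) (hw : ¬ TypePz p w) :
    TypePz p (Function.update w (Sum.inr 0) (w (Sum.inr 0) + (p : ZMod (p ^ 2)))) := by
  obtain ⟨z, hz⟩ := h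
  obtain ⟨y, rfl⟩ := ZMod.castHom_surjective (dvd_pow_self p two_ne_zero) z
  have h0 : (polB w).eval y = 0 := by
    by_contra hne
    exact hw ⟨y, hz, hne⟩
  refine ⟨y, ?_, ?_⟩
  · rw [redp_updateP]
    exact hz
  · rw [polB_update, eval_add, eval_C, h0, zero_add]
    intro h1
    have h2 : p ^ 2 ∣ p := (ZMod.natCast_eq_zero_iff p (p ^ 2)).1 h1
    have h3 := Nat.le_of_dvd hp.pos h2
    have h4 := hp.two_le
    nlinarith

/-- From the residues modulo `p ^ 2` to the integers (as `TypeD.of_z`). -/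
theorem isColP_of_z {p : ℕ} (hp : p.Prime) {v : PIdx N → ℤ}
    (h : TypePz p (fun c => (v c : ZMod (p ^ 2)))) : IsColP p (4 * N) (polB v) (polD v) := by
  obtain ⟨y, hy, hy2⟩ := h
  have hred : redp p (fun c => (v c : ZMod (p ^ 2))) = fun c => (v c : ZMod p) := by
    funext c
    exact map_intCast _ _
  rw [hred] at hy
  have hB : polB (fun c => (v c : ZMod p)) = (polB v).map (Int.castRingHom (ZMod p)) :=
    (polB_map (Int.castRingHom (ZMod p)) v).symm
  have hD : polD (fun c => (v c : ZMod p)) = (polD v).map (Int.castRingHom (ZMod p)) :=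
    (polD_map (Int.castRingHom (ZMod p)) v).symm
  have hB2 : polB (fun c => (v c : ZMod (p ^ 2))) = (polB v).map (Int.castRingHom (ZMod (p ^ 2))) :=
    (polB_map (Int.castRingHom (ZMod (p ^ 2))) v).symm
  obtain ⟨m, rfl⟩ := ZMod.intCast_surjective y
  have hm : (ZMod.castHom (dvd_pow_self p two_ne_zero) (ZMod p)) (m : ZMod (p ^ 2)) =
      (m : ZMod p) := map_intCast _ _
  rw [hm] at hy
  refine ⟨?_, ?_, ?_, ?_⟩
  · intro hdvd
    apply hy.leadB
    rw [hB, coeff_map]
    exact (ZMod.intCast_zmod_eq_zero_iff_dvd _ p).2 hdvd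
  · intro hdvd
    apply hy.leadD
    rw [hD, coeff_map]
    exact (ZMod.intCast_zmod_eq_zero_iff_dvd _ p).2 hdvd
  · rw [← hD]
    exact hy.sep
  · obtain ⟨g, hg1, hg3, hg4⟩ := hy.dbl
    rw [hB] at hg1
    refine ⟨m, ?_, ?_, g, hg1, hg3, hg4⟩
    · rw [← ZMod.intCast_zmod_eq_zero_iff_dvd]
      have h1 : ((polB v).map (Int.castRingHom (ZMod p))).eval (m : ZMod p) =
          (((polB v).eval m : ℤ) : ZMod p) := by
        rw [eval_intCast_map]
        rfl
      rw [← h1, hg1, eval_mul, eval_pow, eval_sub, eval_X, eval_C, sub_self]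
      ring
    · intro hdvd
      apply hy2
      have h1 : ((p ^ 2 : ℕ) : ℤ) ∣ (polB v).eval m := by
        rw [Nat.cast_pow]
        exact hdvd
      rw [← ZMod.intCast_zmod_eq_zero_iff_dvd] at h1
      rw [hB2, eval_intCast_map]
      exact h1

/-- The count (`countP_scheme`). -/
theorem count_typePz (hN : 1 ≤ N) :
    ∃ P₀ : ℕ, ∀ p : ℕ, p.Prime → P₀ ≤ p →
      (1 / 4 : ℝ) / p * ((p ^ 2 : ℕ) : ℝ) ^ Fintype.card (PIdx N) ≤
        ({w : PIdx N → ZMod (p ^ 2) | TypePz p w}).ncard := by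
  obtain ⟨Δ, hΔ, h0⟩ := isGeneric_genP hN
  refine countP_scheme (Sum.inr 0) (Sum.inr 1) (Sum.inr 0) (fun p z u => shiftP z u) ?_ ?_ Δ hΔ
    (fun p u z => GenP u z) ?_ ?_ ?_ (fun p => {w | TypePz p w}) ?_
  · intro p hp u
    exact shiftP_zero u
  · intro p hp z z' u
    exact shiftP_shiftP z z' u
  · intro p hp u z
    have : Fact p.Prime := ⟨hp⟩
    exact GenP.shift_iff u z
  · intro p hp u z z' h h'
    have : Fact p.Prime := ⟨hp⟩
    exact h.unique h'
  · intro p hp u hu
    have : Fact p.Prime := ⟨hp⟩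
    have h1 := h0 (ZMod p) u hu
    have e : ∀ d d' : ∀ x : PIdx N, Decidable (x = Sum.inr 0 ∨ x = Sum.inr 1),
        (fun x : PIdx N => @ite _ (x = Sum.inr 0 ∨ x = Sum.inr 1) (d x) (0 : ZMod p) (u x)) =
          fun x : PIdx N => @ite _ (x = Sum.inr 0 ∨ x = Sum.inr 1) (d' x) (0 : ZMod p) (u x) := by
      intro d d'
      rw [Subsingleton.elim d d']
    exact (e _ _) ▸ h1
  · intro p hp w hz hw
    have h1 := TypePz.flip hp w hz hw
    have e : ∀ d d' : DecidableEq (PIdx N),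
        @Function.update _ _ d w (Sum.inr 0) (w (Sum.inr 0) + (p : ZMod (p ^ 2))) =
          @Function.update _ _ d' w (Sum.inr 0) (w (Sum.inr 0) + (p : ZMod (p ^ 2))) := by
      intro d d'
      rw [Subsingleton.elim d d']
    exact (e _ _) ▸ h1

end Pool.Agent.Lib.MP_89bcae_ag
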