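import Mathlib
import Pool.Agent.Lib.MP_89bcae_ag.Xe.DColB
import Pool.Agent.Lib.MP_89bcae_ag.Xe.DBij

/-!
# Almost all pairs are good
-/

open Polynomial Filter Topology

open scoped Classical

namespace Pool.Agent.Lib.MP_89bcae_ag

variable {N : ℕ}

private lemma D8_two {n : ℕ} (h : Nat.Coprime 2 n) : IsUnit (2 : ZMod n) := by
  have h1 := (ZMod.isUnit_iff_coprime 2 n).2 h
  exact_mod_cast h1

private lemma D8_cop {p : ℕ} (hp : p.Prime) (h3 : 3 ≤ p) : Nat.Coprime 2 p :=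
  (Nat.coprime_primes Nat.prime_two hp).2 (by omega)

/-- A condition modulo `p` on `b` and on `Δ`. -/
private lemma D8_mod (Q : ∀ p : ℕ, Fact p.Prime → (ZMod p)[X] → Prop)
    (hcount : ∃ c : ℝ, 0 < c ∧ ∃ P₀ : ℕ, ∀ p : ℕ, ∀ hp : Fact p.Prime, P₀ ≤ p →
      c / p * (p : ℝ) ^ Fintype.card (PIdx N) ≤
        ({w : PIdx N → ZMod p | Q p hp (polB w)}.ncard : ℝ)) :
    Tendsto (fun H : ℕ => ({v : PIdx N → ℤ | (∀ i, |v i| ≤ H) ∧ ¬ ∃ (p : ℕ) (hp : Fact p.Prime),
        Q p hp ((polB v).map (Int.castRingHom (ZMod p)))}.ncard : ℝ) /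
      (2 * H + 1) ^ Fintype.card (PIdx N)) atTop (𝓝 0) ∧
    Tendsto (fun H : ℕ => ({v : PIdx N → ℤ | (∀ i, |v i| ≤ H) ∧ ¬ ∃ (p : ℕ) (hp : Fact p.Prime),
        Q p hp ((polD v).map (Int.castRingHom (ZMod p)))}.ncard : ℝ) /
      (2 * H + 1) ^ Fintype.card (PIdx N)) atTop (𝓝 0) := by
  obtain ⟨c, hc, P₀, h1⟩ := hcount
  constructor
  · refine densityP_prime (fun p => p) (fun p _ => Or.inl rfl)
      (fun p => {w : PIdx N → ZMod p | ∃ hp : Fact p.Prime, Q p hp (polB w)}) P₀ c hc ?_ _ ?_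
    · intro p hp hP
      have : Fact p.Prime := ⟨hp⟩
      refine (h1 p ⟨hp⟩ hP).trans (Nat.cast_le.2 ?_)
      exact Set.ncard_le_ncard (fun w hw => ⟨⟨hp⟩, hw⟩) (Set.toFinite _)
    · rintro v p hp _ ⟨hp', hQ⟩
      refine ⟨p, hp', ?_⟩
      rw [polB_map]
      exact hQ
  · refine densityP_prime (fun p => p) (fun p _ => Or.inl rfl)
      (fun p => {w : PIdx N → ZMod p | ∃ hp : Fact p.Prime, Q p hp (polB (exch w))})
      (max P₀ 3) c hc ?_ _ ?_
    · intro p hp hP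
      have : Fact p.Prime := ⟨hp⟩
      refine (h1 p ⟨hp⟩ ((le_max_left _ _).trans hP)).trans (Nat.cast_le.2 ?_)
      rw [← ncard_exch (D8_two (D8_cop hp ((le_max_right _ _).trans hP)))
        (fun w => Q p ⟨hp⟩ (polB w))]
      exact Set.ncard_le_ncard (fun w hw => ⟨⟨hp⟩, hw⟩) (Set.toFinite _)
    · rintro v p hp _ ⟨hp', hQ⟩
      refine ⟨p, hp', ?_⟩
      rw [polD_map]
      rw [polB_exch] at hQ
      exact hQ

/-- The collisions of `b` and of `Δ`. -/
private lemma D8_col (hN : 1 ≤ N) :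
    Tendsto (fun H : ℕ => ({v : PIdx N → ℤ | (∀ i, |v i| ≤ H) ∧
        ¬ HasCol (4 * N) (polB v) (polD v)}.ncard : ℝ) /
      (2 * H + 1) ^ Fintype.card (PIdx N)) atTop (𝓝 0) ∧
    Tendsto (fun H : ℕ => ({v : PIdx N → ℤ | (∀ i, |v i| ≤ H) ∧
        ¬ HasCol (4 * N) (polD v) (polB v)}.ncard : ℝ) /
      (2 * H + 1) ^ Fintype.card (PIdx N)) atTop (𝓝 0) := by
  obtain ⟨P₀, h1⟩ := count_typePz hN
  constructor
  · refine densityP_prime (fun p => p ^ 2) (fun p _ => Or.inr rfl)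
      (fun p => {w : PIdx N → ZMod (p ^ 2) | TypePz p w}) P₀ (1 / 4) (by norm_num) h1 _ ?_
    intro v p hp _ hv
    exact ⟨p, hp, isColP_of_z hp hv⟩
  · refine densityP_prime (fun p => p ^ 2) (fun p _ => Or.inr rfl)
      (fun p => {w : PIdx N → ZMod (p ^ 2) | TypePz p (exch w)}) (max P₀ 3) (1 / 4)
      (by norm_num) ?_ _ ?_
    · intro p hp hP
      have : Fact p.Prime := ⟨hp⟩
      have : NeZero (p ^ 2) := ⟨pow_ne_zero 2 hp.ne_zero⟩
      refine (h1 p hp ((le_max_left _ _).trans hP)).trans (Nat.cast_le.2 ?_)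
      rw [← ncard_exch (R := ZMod (p ^ 2)) (D8_two (Nat.Coprime.pow_right 2
        (D8_cop hp ((le_max_right _ _).trans hP)))) (fun w => TypePz p w)]
    · intro v p hp hP hv
      have h3 : 3 ≤ p := (le_max_right _ _).trans hP
      have hv' : TypePz p (exch (fun c => (v c : ZMod (p ^ 2)))) := hv
      have h4 : exch (fun c => (v c : ZMod (p ^ 2))) =
          fun c => ((exch v c : ℤ) : ZMod (p ^ 2)) :=
        (exch_map (Int.castRingHom (ZMod (p ^ 2))) v).symm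
      rw [h4] at hv'
      have h5 := isColP_of_z hp hv'
      rw [polB_exch, polD_exch] at h5
      exact ⟨p, hp, isColP_of_smul hp (by omega) h5⟩

/-- Row 89bX-D8. **Almost all pairs are good.** (`densityP_prime` for the six conditions,
`densityP_all`; for `Δ` the sets `{w | Q (exch w)}` and `ncard_exch`; `P₀ ≥ 3`.) -/
theorem density_goodP (hN : 1 ≤ N) :
    Tendsto (fun H : ℕ => ({v : PIdx N → ℤ | (∀ i, |v i| ≤ H) ∧ GoodP v}.ncard : ℝ) /
      (2 * H + 1) ^ Fintype.card (PIdx N)) atTop (𝓝 1) := by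
  obtain ⟨hbA, hdA⟩ := D8_mod (N := N) (fun p _ f => TypeAX14 f (4 * N)) (count_polB_A hN)
  obtain ⟨hbB, hdB⟩ := D8_mod (N := N) (fun p _ f => TypeBX14 f (4 * N)) (count_polB_B hN)
  obtain ⟨hbC, hdC⟩ := D8_col hN
  have h1 := densityP_all (κ := PIdx N) (T := Fin 6) (fun t v => match t with
    | 0 => HasTypeA (4 * N) (polB v)
    | 1 => HasTypeB (4 * N) (polB v)
    | 2 => HasCol (4 * N) (polB v) (polD v)
    | 3 => HasTypeA (4 * N) (polD v)
    | 4 => HasTypeB (4 * N) (polD v)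
    | 5 => HasCol (4 * N) (polD v) (polB v)) (by
      intro t
      fin_cases t
      · exact hbA
      · exact hbB
      · exact hbC
      · exact hdA
      · exact hdB
      · exact hdC)
  refine h1.congr fun H => ?_
  congr 3
  ext v
  refine and_congr_right fun _ => ⟨fun h => ?_, fun h t => ?_⟩
  · exact ⟨h 0, h 1, h 2, h 3, h 4, h 5⟩
  · fin_cases t
    · exact h.bA
    · exact h.bB
    · exact h.bC
    · exact h.dA
    · exact h.dB
    · exact h.dC

end Pool.Agent.Lib.MP_89bcae_ag
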