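import Mathlib
import Pool.Agent.Lib.MP_89bcae_ag.Xe.DDefs
import Pool.Agent.Lib.MP_89bcae_ag.Tk.K048

/-!
# Full pairs
-/

open Polynomial

open scoped Classical

namespace Pool.Agent.Lib.MP_89bcae_ag

private lemma D2_root {k F : Type*} [Field k] [Field F] [Algebra k F] (f : k[X])
    (σ : F ≃ₐ[k] F) {x : F} (hx : aeval x f = 0) : aeval (σ x) f = 0 := by
  rw [aeval_algHom_apply, hx, map_zero]

private lemma D2_one {k F : Type*} [Field k] [Field F] [Algebra k F] {f g : k[X]} (hf0 : f ≠ 0)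
    (hg0 : g ≠ 0) (hf : IsTwo k F f) (hfg : HasSwap k F f g) (τ : Equiv.Perm (f.rootSet F)) :
    ∃ σ : F ≃ₐ[k] F, (∀ s : f.rootSet F, σ s = τ s) ∧ ∀ s : g.rootSet F, σ s = s := by
  obtain ⟨s0, u, w, huw, hu, hw, hsu, hsw, hfix, hfixg⟩ := hfg
  induction τ using Equiv.Perm.swap_induction_on with
  | one => exact ⟨AlgEquiv.refl, fun s => rfl, fun s => rfl⟩
  | swap_mul τ x y hxy ih =>
    obtain ⟨σ, h1, h2⟩ := ih
    have hx := ((mem_rootSet_of_ne hf0).1 x.2)
    have hy := ((mem_rootSet_of_ne hf0).1 y.2)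
    obtain ⟨ρ, hρ1, hρ2⟩ := hf u w x y hu hw hx hy huw (fun h => hxy (Subtype.ext h))
    have hsx : ρ.symm x = u := by rw [← hρ1, AlgEquiv.symm_apply_apply]
    have hsy : ρ.symm y = w := by rw [← hρ2, AlgEquiv.symm_apply_apply]
    refine ⟨σ.trans (ρ.symm.trans (s0.trans ρ)), fun s => ?_, fun s => ?_⟩
    · show ρ (s0 (ρ.symm (σ s))) = _
      rw [h1 s, Equiv.Perm.mul_apply]
      by_cases h3 : τ s = x
      · rw [h3, Equiv.swap_apply_left, hsx, hsu, hρ2]
      · by_cases h4 : τ s = y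
        · rw [h4, Equiv.swap_apply_right, hsy, hsw, hρ1]
        · rw [Equiv.swap_apply_of_ne_of_ne h3 h4]
          have h5 := ((mem_rootSet_of_ne hf0).1 (τ s).2)
          rw [hfix _ (D2_root f ρ.symm h5), AlgEquiv.apply_symm_apply]
          · intro h6
            apply h3
            apply Subtype.ext
            rw [← hρ1, ← h6, AlgEquiv.apply_symm_apply]
          · intro h6
            apply h4
            apply Subtype.ext
            rw [← hρ2, ← h6, AlgEquiv.apply_symm_apply]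
    · show ρ (s0 (ρ.symm (σ s))) = _
      have h5 := ((mem_rootSet_of_ne hg0).1 s.2)
      rw [h2 s, hfixg _ (D2_root g ρ.symm h5), AlgEquiv.apply_symm_apply]

/-- Row 89bX-D2. The conjugates of the element of `HasSwap k F f g` by the elements given by `IsTwo`
induce all the transpositions of the roots of `f` and fix the roots of `g`; the transpositions generate
(`Equiv.Perm.closure_isSwap`, or `Equiv.Perm.swap_induction_on`); the same for `g`; compose. -/
theorem isFullP_of {k F : Type*} [Field k] [Field F] [Algebra k F] {f g : k[X]} (hf0 : f ≠ 0)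
    (hg0 : g ≠ 0) (hf : IsTwo k F f) (hg : IsTwo k F g) (hfg : HasSwap k F f g)
    (hgf : HasSwap k F g f) : IsFullP k F f g := by
  intro τ τ'
  obtain ⟨σ, h1, h2⟩ := D2_one hf0 hg0 hf hfg τ
  obtain ⟨σ', h1', h2'⟩ := D2_one hg0 hf0 hg hgf τ'
  refine ⟨σ.trans σ', fun s => ?_, fun s => ?_⟩
  · show σ' (σ s) = _
    rw [h1 s, h2' (τ s)]
  · show σ' (σ s) = _
    rw [h2 s, h1' s]

/-- Row 89bX-D2. A common root `s` of `f` and `g`: some `τ` maps `s` to `u`, so `u` is a root of `g`,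
fixed by `σ`; but `σ u = w ≠ u`. -/
theorem isCoprime_of_hasSwap {k F : Type*} [Field k] [Field F] [Algebra k F] [IsAlgClosed F]
    {f g : k[X]} (hf : IsTwo k F f) (hfg : HasSwap k F f g) : IsCoprime f g := by
  obtain ⟨s0, u, w, huw, hu, hw, hsu, hsw, -, hfixg⟩ := hfg
  rw [Polynomial.isCoprime_iff_aeval_ne_zero_of_isAlgClosed k F]
  intro s
  by_contra hs
  rw [not_or, not_not, not_not] at hs
  obtain ⟨hsf, hsg⟩ := hs
  obtain ⟨y, hy, hys⟩ : ∃ y, aeval y f = 0 ∧ s ≠ y := by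
    by_cases h : s = u
    · exact ⟨w, hw, fun h2 => huw (h.symm.trans h2)⟩
    · exact ⟨u, hu, h⟩
  obtain ⟨τ, hτ, -⟩ := hf s y u w hsf hy hu hw hys huw
  have h1 : aeval u g = 0 := by
    rw [← hτ]
    exact D2_root g τ hsg
  have h2 := hfixg u h1
  rw [hsu] at h2
  exact huw h2.symm

/-- Row 89bX-D2. (`pair2_of_types14` with the inclusions of `ℚ` in `ℚ_[p]` and `ℚ_[q]`;
`lead_of_red14` for the degree.) -/
theorem isTwo_of_types {F : Type} [Field F] [Algebra ℚ F] [IsAlgClosure ℚ F] {n : ℕ} (hn : 3 ≤ n)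
    {f : ℤ[X]} (hf : f.natDegree ≤ n) (hA : HasTypeA n f) (hB : HasTypeB n f) :
    f.natDegree = n ∧ (f.map (Int.castRingHom ℚ)).Separable ∧
      IsTwo ℚ F (f.map (Int.castRingHom ℚ)) := by
  obtain ⟨p, hp, hA⟩ := hA
  obtain ⟨q, hq, hB⟩ := hB
  have hcl : IsAlgClosed F := IsAlgClosure.isAlgClosed ℚ
  have hal : Algebra.IsAlgebraic ℚ F := IsAlgClosure.isAlgebraic
  obtain ⟨h1, h2⟩ := pair2_of_types14 (k := ℚ) (F := F) (algebraMap ℚ ℚ_[p]) (algebraMap ℚ ℚ_[q])
    hf hn hA hB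
  refine ⟨(lead_of_red14 hf (by omega) hA.2).1, h1, ?_⟩
  intro x y x' y' hx hy hx' hy' hxy hxy'
  refine h2 x y x' y' ?_ ?_ ?_ ?_ ?_ ?_
  · rw [comp_X]; exact hx
  · rw [comp_X]; exact hy
  · rw [comp_X]; exact hx'
  · rw [comp_X]; exact hy'
  · rw [aeval_X, aeval_X]; exact hxy
  · rw [aeval_X, aeval_X]; exact hxy'

end Pool.Agent.Lib.MP_89bcae_ag
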