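import Mathlib
import Pool.Agent.Lib.MP_89bcae_ag.Xe.DDefs
import Pool.Agent.Lib.MP_89bcae_ag.Xe.DPlc

/-!
# A collision gives a transposition of the roots of `f` which fixes the roots of `g`
-/

open Polynomial

open scoped Classical

namespace Pool.Agent.Lib.MP_89bcae_ag

section

variable {F : Type} [Field F] [Algebra ℚ F]

theorem natDegree_of_not_dvd {p n : ℕ} {f : ℤ[X]} (hf : f.natDegree ≤ n)
    (h : ¬ (p : ℤ) ∣ f.coeff n) : f.natDegree = n ∧ ¬ (p : ℤ) ∣ f.leadingCoeff := by
  have h1 : f.coeff n ≠ 0 := by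
    intro h0
    apply h
    rw [h0]
    exact dvd_zero _
  have h2 : f.natDegree = n := le_antisymm hf (le_natDegree_of_ne_zero h1)
  refine ⟨h2, ?_⟩
  rw [leadingCoeff, h2]
  exact h

theorem aeval_map_rat (f : ℤ[X]) (s : F) : aeval s (f.map (Int.castRingHom ℚ)) = aeval s f := by
  rw [aeval_def, eval₂_map, aeval_def]
  congr 1
  exact RingHom.ext_int _ _

/-- The roots in `F` of a separable polynomial. -/
theorem exists_rootsP [IsAlgClosure ℚ F] {f : ℤ[X]} (hsep : (f.map (Int.castRingHom ℚ)).Separable) :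
    ∃ R : Finset F, (∀ s, s ∈ R ↔ aeval s f = 0) ∧
      f.map (algebraMap ℤ F) = C (algebraMap ℤ F f.leadingCoeff) * ∏ s ∈ R, (X - C s) := by
  have _ : IsAlgClosed F := IsAlgClosure.isAlgClosed ℚ
  have _ : CharZero F := algebraRat.charZero F
  have e1 : (f.map (Int.castRingHom ℚ)).map (algebraMap ℚ F) = f.map (algebraMap ℤ F) := by
    rw [Polynomial.map_map]
    congr 1
    exact RingHom.ext_int _ _
  have hs : (f.map (algebraMap ℤ F)).Separable := by
    rw [← e1]
    exact hsep.map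
  have hnd : (f.map (algebraMap ℤ F)).roots.Nodup := nodup_roots hs
  have hinj : Function.Injective (algebraMap ℤ F) := by
    rw [algebraMap_int_eq]
    exact Int.cast_injective
  refine ⟨(f.map (algebraMap ℤ F)).roots.toFinset, ?_, ?_⟩
  · intro s
    rw [Multiset.mem_toFinset, mem_roots hs.ne_zero, IsRoot.def, eval_map, ← aeval_def]
  · have h1 := (IsAlgClosed.splits (f.map (algebraMap ℤ F))).eq_prod_roots
    rw [leadingCoeff_map_of_injective hinj] at h1
    conv_lhs => rw [h1]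
    rw [Finset.prod_multiset_map_count]
    congr 1
    refine Finset.prod_congr rfl fun s hs => ?_
    rw [Multiset.mem_toFinset] at hs
    rw [Multiset.count_eq_one_of_mem hnd hs, pow_one]

end

theorem hasSwap_of_isColP {F : Type} [Field F] [Algebra ℚ F] [IsAlgClosure ℚ F] {p n : ℕ}
    (hp : p.Prime) {f g : ℤ[X]} (hf : f.natDegree ≤ n) (hg : g.natDegree ≤ n)
    (hsep : (f.map (Int.castRingHom ℚ)).Separable) (h : IsColP p n f g) :
    HasSwap ℚ F (f.map (Int.castRingHom ℚ)) (g.map (Int.castRingHom ℚ)) := by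
  have : Fact p.Prime := ⟨hp⟩
  have : CharZero F := algebraRat.charZero F
  obtain ⟨-, hlf⟩ := natDegree_of_not_dvd hf h.leadf
  obtain ⟨-, hlg⟩ := natDegree_of_not_dvd hg h.leadg
  have hf0 : f ≠ 0 := by
    rintro rfl
    apply hlf
    rw [leadingCoeff_zero]
    exact dvd_zero _
  have hg0 : g ≠ 0 := by
    rintro rfl
    apply hlg
    rw [leadingCoeff_zero]
    exact dvd_zero _
  set S : Set F := {s | aeval s f = 0 ∨ aeval s g = 0} with hS
  have hSfin : S.Finite := by
    have h1 : ∀ q : ℤ[X], q ≠ 0 → {s : F | aeval s q = 0}.Finite := by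
      intro q hq
      have h2 : q.map (algebraMap ℤ F) ≠ 0 := by
        rw [Polynomial.map_ne_zero_iff]
        · exact hq
        · rw [algebraMap_int_eq]
          exact Int.cast_injective
      refine (q.map (algebraMap ℤ F)).roots.toFinset.finite_toSet.subset fun s hs => ?_
      rw [Finset.mem_coe, Multiset.mem_toFinset, mem_roots h2, IsRoot.def, eval_map, ← aeval_def]
      exact hs
    exact (h1 f hf0).union (h1 g hg0)
  have hroot : ∀ (q : ℤ[X]) (σ : F ≃ₐ[ℚ] F) (s : F), aeval s q = 0 → aeval (σ s) q = 0 := by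
    intro q σ s hs
    rw [← aeval_map_rat, aeval_algEquiv, AlgHom.comp_apply, aeval_map_rat, hs]
    exact map_zero _
  have hSst : ∀ (σ : F ≃ₐ[ℚ] F), ∀ s ∈ S, σ s ∈ S := fun σ s hs =>
    hs.imp (hroot f σ s) (hroot g σ s)
  obtain ⟨P, hP⟩ := exists_place (F := F) hp S hSfin hSst
  have hSK : ∀ s ∈ S, s ∈ (IntermediateField.adjoin ℚ S).toSubfield := fun s hs =>
    IntermediateField.subset_adjoin ℚ _ hs
  have hSO : ∀ s ∈ S, s ∈ P.O := by
    intro s hs
    rcases id hs with h1 | h1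
    · exact P.root_mem hp hlf (hSK s hs) h1
    · exact P.root_mem hp hlg (hSK s hs) h1
  obtain ⟨R, hR, hfR⟩ := exists_rootsP (F := F) hsep
  have hRS : ∀ s ∈ R, s ∈ S := fun s hs => Or.inl ((hR s).1 hs)
  have hRO : ∀ s ∈ R, s ∈ P.O := fun s hs => hSO s (hRS s hs)
  obtain ⟨z, hz1, hz2, q, hq, hqz, hqs⟩ := h.dbl
  obtain ⟨c, hc⟩ := swRed_h70 hp P f R hRO hfR
  set zb : P.κ := P.redp hp (z : ZMod p) with hzb
  set gb : P.κ[X] := q.map (P.redp hp) with hgb
  have hfb : (f.map (Int.castRingHom (ZMod p))).map (P.redp hp) = (X - C zb) ^ 2 * gb := by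
    rw [hq, Polynomial.map_mul, Polynomial.map_pow, Polynomial.map_sub, map_X, map_C]
  have hgbz : gb.eval zb ≠ 0 := by
    rw [hgb, hzb, eval_map, eval₂_at_apply]
    exact fun h0 => hqz ((map_eq_zero (P.redp hp)).1 h0)
  have hgb0 : gb ≠ 0 := by
    intro h0
    apply hgbz
    rw [h0, eval_zero]
  have hgbs : gb.Separable := hqs.map
  have hfb0 : (X - C zb) ^ 2 * gb ≠ 0 := mul_ne_zero (pow_ne_zero _ (X_sub_C_ne_zero _)) hgb0
  have hprod : C c * ∏ s ∈ R, (X - C (swRd_h70 P s)) = (X - C zb) ^ 2 * gb := by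
    rw [← hfb, ← hc]
  have hc0 : c ≠ 0 := by
    intro h0
    rw [h0, C_0, zero_mul] at hprod
    exact hfb0 hprod.symm
  have hroots : R.val.map (swRd_h70 P) = 2 • {zb} + gb.roots := by
    have h1 := congrArg Polynomial.roots hprod
    rw [roots_C_mul _ hc0, roots_mul hfb0, roots_pow, roots_X_sub_C] at h1
    rw [← h1]
    have h2 := Polynomial.roots_multiset_prod_X_sub_C (R.val.map (swRd_h70 P))
    rw [Multiset.map_map] at h2
    exact h2.symm
  have hcz : (R.filter (fun s => zb = swRd_h70 P s)).card = 2 := by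
    rw [swCount_h70, hroots, Multiset.count_add, Multiset.count_nsmul, Multiset.count_singleton_self]
    have h1 : gb.roots.count zb = 0 := by
      rw [Multiset.count_eq_zero]
      intro h2
      exact hgbz ((mem_roots hgb0).1 h2)
    rw [h1]
  have hct : ∀ t, t ≠ zb → (R.filter (fun s => t = swRd_h70 P s)).card ≤ 1 := by
    intro t ht
    rw [swCount_h70, hroots, Multiset.count_add, Multiset.count_nsmul,
      Multiset.count_singleton, if_neg ht, mul_zero, zero_add]
    exact Multiset.nodup_iff_count_le_one.1 (nodup_roots hgbs) t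
  obtain ⟨u, w, huw, hfil⟩ := Finset.card_eq_two.1 hcz
  have hu : u ∈ R ∧ zb = swRd_h70 P u := by
    have : u ∈ R.filter (fun s => zb = swRd_h70 P s) := by rw [hfil]; simp
    exact Finset.mem_filter.1 this
  have hw : w ∈ R ∧ zb = swRd_h70 P w := by
    have : w ∈ R.filter (fun s => zb = swRd_h70 P s) := by rw [hfil]; simp
    exact Finset.mem_filter.1 this
  have huwR : ∀ s ∈ R, swRd_h70 P s = zb → s = u ∨ s = w := by
    intro s hs hs2
    have : s ∈ R.filter (fun s => zb = swRd_h70 P s) := Finset.mem_filter.2 ⟨hs, hs2.symm⟩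
    rw [hfil] at this
    simpa using this
  -- the ramification
  have hzO : ((z : ℤ) : F) ∈ P.O := P.int_mem z
  have hzrd : swRd_h70 P ((z : ℤ) : F) = zb := by
    rw [swRd_eq_h70 P hzO]
    have e1 : (⟨((z : ℤ) : F), hzO⟩ : P.O) = ((z : ℤ) : P.O) := Subtype.ext (by simp)
    rw [e1, map_intCast, hzb, map_intCast]
  have hfz0 : f.eval z ≠ 0 := by
    intro h0
    apply hz2
    rw [h0]
    exact dvd_zero _
  have haev : aeval ((z : ℤ) : F) f = ((f.eval z : ℤ) : F) := by
    have e1 : ((z : ℤ) : F) = algebraMap ℤ F z := (eq_intCast (algebraMap ℤ F) z).symm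
    rw [e1, aeval_algebraMap_apply, coe_aeval_eq_eval]
    exact eq_intCast (algebraMap ℤ F) _
  have hzR : ((z : ℤ) : F) ∉ R := by
    intro h0
    have h1 := (hR _).1 h0
    rw [haev] at h1
    exact hfz0 (by exact_mod_cast h1)
  have hzK : ((z : ℤ) : F) ∈ (IntermediateField.adjoin ℚ S).toSubfield := intCast_mem _ z
  have hord := P.ord_aeval hp hlf R (fun s hs => hSK s (hRS s hs)) hfR hzK hzR
  rw [haev, P.rat _ hfz0] at hord
  have hval : padicValInt p (f.eval z) = 1 := by
    have h1 : 1 ≤ padicValInt p (f.eval z) := by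
      have := (padicValInt_dvd_iff (p := p) 1 (f.eval z)).1 (by rwa [pow_one])
      exact this.resolve_left hfz0
    have h2 : ¬ 2 ≤ padicValInt p (f.eval z) := fun h3 =>
      hz2 ((padicValInt_dvd_iff (p := p) 2 (f.eval z)).2 (Or.inr h3))
    omega
  have hnn : ∀ s ∈ R, 0 ≤ P.ord (((z : ℤ) : F) - s) := by
    intro s hs
    have h1 : ((z : ℤ) : F) - s ∈ P.O := P.O.sub_mem hzO (hRO s hs)
    rcases ((P.mem_O _).1 h1).2 with h2 | h2
    · exact absurd (sub_eq_zero.1 h2) (fun h3 => hzR (h3 ▸ hs))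
    · exact h2
  have hpos : ∀ s ∈ R, swRd_h70 P s = zb → 0 < P.ord (((z : ℤ) : F) - s) := by
    intro s hs hs2
    refine P.ord_sub_pos hzO (hRO s hs) (fun h3 => hzR (h3 ▸ hs)) ?_
    rw [← swRd_eq_h70 P hzO, ← swRd_eq_h70 P (hRO s hs), hzrd, hs2]
  have hsum : P.ord (((z : ℤ) : F) - u) + P.ord (((z : ℤ) : F) - w) ≤
      ∑ s ∈ R, P.ord (((z : ℤ) : F) - s) := by
    have e1 : P.ord (((z : ℤ) : F) - u) + P.ord (((z : ℤ) : F) - w) =
        ∑ s ∈ ({u, w} : Finset F), P.ord (((z : ℤ) : F) - s) :=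
      (Finset.sum_pair (f := fun s => P.ord (((z : ℤ) : F) - s)) huw).symm
    rw [e1]
    refine Finset.sum_le_sum_of_subset_of_nonneg ?_ (fun s hs _ => hnn s hs)
    intro s hs
    rcases Finset.mem_insert.1 hs with h1 | h1
    · rw [h1]; exact hu.1
    · rw [Finset.mem_singleton.1 h1]; exact hw.1
  have he : 2 ≤ P.e := by
    have h1 := hpos u hu.1 hu.2.symm
    have h2 := hpos w hw.1 hw.2.symm
    rw [hval] at hord
    have h3 : (2 : ℤ) ≤ P.e := by
      push_cast at hord
      linarith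
    exact_mod_cast h3
  obtain ⟨σ, ⟨s₀, hs₀, hs₀ne⟩, hσ⟩ := hP he
  have hσrd : ∀ x ∈ P.O, swRd_h70 P (σ x) = swRd_h70 P x := by
    intro x hx
    obtain ⟨h1, h2⟩ := hσ x hx
    rw [swRd_eq_h70 P h1, swRd_eq_h70 P hx, h2]
  have hσR : ∀ s ∈ R, σ s ∈ R := fun s hs => (hR _).2 (hroot f σ s ((hR s).1 hs))
  -- `σ` fixes the roots of `g`
  have hfixg : ∀ s, aeval s g = 0 → σ s = s := by
    intro s hs
    by_contra hcon
    have hsO : s ∈ P.O := hSO s (Or.inr hs)
    have hσO : σ s ∈ P.O := (hσ s hsO).1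
    have h2 := P.red_ne_of_separable hp (f := g) h.sep hσO hsO (hroot g σ s hs) hs hcon
    apply h2
    rw [← swRd_eq_h70 P hσO, ← swRd_eq_h70 P hsO]
    exact hσrd s hsO
  -- `σ` fixes the other roots of `f`
  have hfixf : ∀ s, aeval s f = 0 → s ≠ u → s ≠ w → σ s = s := by
    intro s hs hsu hsw
    have hsR : s ∈ R := (hR s).2 hs
    have ht : swRd_h70 P s ≠ zb := by
      intro h1
      rcases huwR s hsR h1 with h2 | h2
      · exact hsu h2
      · exact hsw h2
    have h1 := hct _ ht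
    rw [Finset.card_le_one] at h1
    exact h1 (σ s) (Finset.mem_filter.2 ⟨hσR s hsR, (hσrd s (hRO s hsR)).symm⟩) s
      (Finset.mem_filter.2 ⟨hsR, rfl⟩)
  have hσu : σ u = u ∨ σ u = w :=
    huwR _ (hσR u hu.1) (by rw [hσrd u (hRO u hu.1)]; exact hu.2.symm)
  have hσw : σ w = u ∨ σ w = w :=
    huwR _ (hσR w hw.1) (by rw [hσrd w (hRO w hw.1)]; exact hw.2.symm)
  have hσu' : σ u = w := by
    rcases hσu with h1 | h1
    · exfalso
      have h2 : σ w = w := by
        rcases hσw with h3 | h3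
        · exact absurd (σ.injective (h1.trans h3.symm)) huw
        · exact h3
      apply hs₀ne
      rcases hs₀ with h5 | h5
      · by_cases h3 : s₀ = u
        · rw [h3, h1]
        · by_cases h4 : s₀ = w
          · rw [h4, h2]
          · exact hfixf s₀ h5 h3 h4
      · exact hfixg s₀ h5
    · exact h1
  have hσw' : σ w = u := by
    rcases hσw with h1 | h1
    · exact h1
    · exact absurd (σ.injective (hσu'.trans h1.symm)) huw
  refine ⟨σ, u, w, huw, ?_, ?_, hσu', hσw', ?_, ?_⟩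
  · rw [aeval_map_rat]
    exact (hR u).1 hu.1
  · rw [aeval_map_rat]
    exact (hR w).1 hw.1
  · intro s hs
    rw [aeval_map_rat] at hs
    exact hfixf s hs
  · intro s hs
    rw [aeval_map_rat] at hs
    exact hfixg s hs

end Pool.Agent.Lib.MP_89bcae_ag
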