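import Mathlib
import Pool.Agent.Lib.MP_89bcae_ag.Xe.DSh
import Pool.Agent.Lib.MP_89bcae_ag.Xe.DSwap
import Pool.Agent.Lib.MP_89bcae_ag.Xe.DGrp

/-!
# Good pairs are full
-/

open Polynomial

open scoped Classical

namespace Pool.Agent.Lib.MP_89bcae_ag

variable {N : ℕ}

theorem GoodP.full {F : Type} [Field F] [Algebra ℚ F] [IsAlgClosure ℚ F] (hN : 1 ≤ N)
    {v : PIdx N → ℤ} (h : GoodP v) :
    (polB v).natDegree = 4 * N ∧ (polD v).natDegree = 4 * N ∧
      (((polB v) * (polD v)).map (Int.castRingHom ℚ)).Separable ∧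
      IsFullP ℚ F ((polB v).map (Int.castRingHom ℚ)) ((polD v).map (Int.castRingHom ℚ)) := by
  have _ : IsAlgClosed F := IsAlgClosure.isAlgClosed ℚ
  obtain ⟨b1, b2, b3⟩ := isTwo_of_types (F := F) (n := 4 * N) (by omega) (polB_natDegree_le v) h.bA h.bB
  obtain ⟨d1, d2, d3⟩ := isTwo_of_types (F := F) (n := 4 * N) (by omega) (polD_natDegree_le v) h.dA h.dB
  obtain ⟨p, hp, hb⟩ := h.bC
  obtain ⟨q, hq, hd⟩ := h.dC
  have s1 := hasSwap_of_isColP (F := F) hp (polB_natDegree_le v) (polD_natDegree_le v) b2 hb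
  have s2 := hasSwap_of_isColP (F := F) hq (polD_natDegree_le v) (polB_natDegree_le v) d2 hd
  refine ⟨b1, d1, ?_, isFullP_of b2.ne_zero d2.ne_zero b3 d3 s1 s2⟩
  rw [Polynomial.map_mul]
  exact b2.mul d2 (isCoprime_of_hasSwap b3 s1)

end Pool.Agent.Lib.MP_89bcae_ag
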