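import Mathlib
import Pool.Agent.Lib.MP_89bcae_ag.Xe.Defs
import Pool.Agent.Lib.MP_89bcae_ag.Xe.DDen
import Pool.Agent.Lib.MP_89bcae_ag.Xe.DFul

/-!
# Almost all pairs `(a, b)` with integral coefficients are general
-/

open Polynomial Filter Topology

open scoped Classical

namespace Pool.Agent.Lib.MP_89bcae_ag

variable {N : ℕ}

/-- The polynomials `a`, `b` with integral coefficients. -/
lemma polA_int (v : PIdx N → ℤ) : (polA v).map (Int.castRingHom ℚ) =
    ∑ i : Fin (2 * N + 1), C (v (Sum.inl i) : ℚ) * X ^ (i : ℕ) := polA_map _ _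

lemma polB_int (v : PIdx N → ℤ) : (polB v).map (Int.castRingHom ℚ) =
    ∑ i : Fin (4 * N + 1), C (v (Sum.inr i) : ℚ) * X ^ (i : ℕ) := polB_map _ _

theorem isGeneral_of_goodP (F : Type) [Field F] [Algebra ℚ F] [IsAlgClosure ℚ F] (hN : 2 ≤ N)
    {v : PIdx N → ℤ} (h : GoodP v) :
    Xe.IsGeneral F N ((polA v).map (Int.castRingHom ℚ)) ((polB v).map (Int.castRingHom ℚ)) := by
  obtain ⟨h1, h2, h3, h4⟩ := h.full (F := F) (by omega)
  have e : Xe.disc ((polA v).map (Int.castRingHom ℚ)) ((polB v).map (Int.castRingHom ℚ)) =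
      (polD v).map (Int.castRingHom ℚ) := by
    unfold Xe.disc polD
    rw [Polynomial.map_sub, Polynomial.map_pow, Polynomial.map_mul, Polynomial.map_ofNat]
  have hinj : Function.Injective (Int.castRingHom ℚ) := Int.cast_injective
  refine ⟨two_ne_zero, hN, ?_, ?_, ?_, ?_, ?_⟩
  · rw [natDegree_map_eq_of_injective hinj]
    exact polA_natDegree_le v
  · rw [natDegree_map_eq_of_injective hinj]
    exact h1
  · rw [e, natDegree_map_eq_of_injective hinj]
    exact h2
  · rw [e, ← Polynomial.map_mul]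
    exact h3
  · rw [e]
    exact h4

/-- **Almost all pairs `(a, b)` are general.** -/
theorem density_general (F : Type) [Field F] [Algebra ℚ F] [IsAlgClosure ℚ F] {N : ℕ} (hN : 2 ≤ N) :
    Tendsto (fun H : ℕ => ({v : Fin (2 * N + 1) ⊕ Fin (4 * N + 1) → ℤ | (∀ i, |v i| ≤ H) ∧
      Xe.IsGeneral F N (∑ i : Fin (2 * N + 1), C (v (Sum.inl i) : ℚ) * X ^ (i : ℕ))
        (∑ i : Fin (4 * N + 1), C (v (Sum.inr i) : ℚ) * X ^ (i : ℕ))}.ncard : ℝ) /
      (2 * H + 1) ^ (6 * N + 2)) atTop (𝓝 1) := by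
  have hcard : Fintype.card (PIdx N) = 6 * N + 2 := by
    rw [Fintype.card_sum, Fintype.card_fin, Fintype.card_fin]
    omega
  have h1 := density_goodP (N := N) (by omega)
  rw [hcard] at h1
  refine tendsto_of_tendsto_of_tendsto_of_le_of_le h1 (tendsto_const_nhds (x := (1 : ℝ))) ?_ ?_
  · intro H
    have hfin : ({v : PIdx N → ℤ | ∀ i, |v i| ≤ H}).Finite := (box_ncard_h15 H).1
    simp only
    refine div_le_div_of_nonneg_right ?_ (by positivity)
    rw [Nat.cast_le]
    refine Set.ncard_le_ncard (fun v hv => ⟨hv.1, ?_⟩) (hfin.subset fun v hv => hv.1)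
    rw [← polA_int, ← polB_int]
    exact isGeneral_of_goodP F hN hv.2
  · intro H
    obtain ⟨hfin, hbox⟩ := box_ncard_h15 (κ := PIdx N) H
    simp only
    rw [div_le_one (by positivity), ← hcard, ← hbox, Nat.cast_le]
    exact Set.ncard_le_ncard (fun v hv => hv.1) hfin

end Pool.Agent.Lib.MP_89bcae_ag
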