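import Mathlib
import Pool.Agent.Lib.MP_89bcae_ag.Xs.Defs

/-!
# Groups of classes on which each lattice has an automorphism without fixed vectors
-/

open Polynomial

open scoped Classical

namespace Pool.Agent.Lib.MP_89bcae_ag.Xe

/-- Each action of a group `Γ`, which maps onto `G`, on a module `ℤ_2 ^ r` with an equivariant homomorphism onto a group `N / V`,
with `V ≤ N ≤ U`, with kernel `2 ℤ_2 ^ r`, contains an element no power of which fixes a nonzero vector. -/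
def IsMixing {R : Type} [CommRing R] (G : Subgroup (R ≃+* R)) (U V : Subgroup Rˣ) : Prop :=
  ∀ (Γ : Type) [Group Γ] (ρ : Γ →* (R ≃+* R)), ρ.range = G →
    ∀ (r : ℕ) (A : Γ →* ((Fin r → ℤ_[2]) ≃ₗ[ℤ_[2]] (Fin r → ℤ_[2]))) (N : Subgroup Rˣ), V ≤ N → N ≤ U →
      ∀ th : (Fin r → ℤ_[2]) → Rˣ, (∀ v w, th (v + w) / (th v * th w) ∈ V) → (∀ u, u ∈ N ↔ ∃ v, u / th v ∈ V) →
        (∀ v, th v ∈ V ↔ ∃ w, v = w + w) →
          (∀ γ v, Units.map ((ρ γ : R ≃+* R) : R →* R) (th v) / th (A γ v) ∈ V) →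
            ∃ γ : Γ, ∀ m : ℕ, 0 < m → ∀ v, A (γ ^ m) v = v → v = 0

/-- The group `Γ` acts on the module `ℤ_2 ^ r` through `A`; the homomorphism `dX` to the functions on `X` modulo the constant
functions is zero or maps onto the group of the functions with sum `0`, the homomorphism `dY` from its kernel to the functions on
`Y` modulo the constant functions has the same property, and its kernel is `2 ℤ_2 ^ r`; both are equivariant for the
permutations given by `q`. -/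
structure TwoStep {Γ X Y : Type} [Group Γ] [Fintype X] [Fintype Y] (q : Γ →* Equiv.Perm X × Equiv.Perm Y) {r : ℕ}
    (A : Γ →* ((Fin r → ℤ_[2]) ≃ₗ[ℤ_[2]] (Fin r → ℤ_[2])))
    (dX : (Fin r → ℤ_[2]) →+ (X → ZMod 2) ⧸ Xs.Cst X) (dY : dX.ker →+ (Y → ZMod 2) ⧸ Xs.Cst Y) : Prop where
  ranX : (∀ v, dX v = 0) ∨ ∀ y, (∃ v, dX v = y) ↔ ∃ f : X → ZMod 2, ∑ x, f x = 0 ∧ QuotientAddGroup.mk f = y
  ranY : (∀ v, dY v = 0) ∨ ∀ y, (∃ v, dY v = y) ↔ ∃ f : Y → ZMod 2, ∑ x, f x = 0 ∧ QuotientAddGroup.mk f = y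
  ker : ∀ v, dY v = 0 ↔ ∃ w, (v : Fin r → ℤ_[2]) = w + w
  actX : ∀ γ v (f : X → ZMod 2), dX v = QuotientAddGroup.mk f →
    dX (A γ v) = QuotientAddGroup.mk fun x => f ((q γ).1⁻¹ x)
  actY : ∀ (γ : Γ) (v v' : dX.ker) (f : Y → ZMod 2), (v' : Fin r → ℤ_[2]) = A γ v → dY v = QuotientAddGroup.mk f →
    dY v' = QuotientAddGroup.mk fun y => f ((q γ).2⁻¹ y)

end Pool.Agent.Lib.MP_89bcae_ag.Xe
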