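import Mathlib
import Pool.Agent.Lib.MP_89bcae_ag.Zr.Sq

set_option autoImplicit false

/-!
# The lattice of a subquotient
-/

namespace MP89bZ

open Finset

/-- **The lattice.** A separated torsion free `ℤ_2`-module `H` with a homomorphism to a group with finite image and with
kernel `2 H` is free of finite rank. -/
theorem exists_lattice {H : Type*} [AddCommGroup H] [Module ℤ_[2] H]
    (htf : ∀ (a : ℤ_[2]) (h : H), a • h = 0 → a = 0 ∨ h = 0)
    (hsep : ∀ h : H, (∀ n : ℕ, ∃ y, h = (((2 : ℕ) : ℤ_[2]) ^ n) • y) → h = 0)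
    {M : Type*} [AddCommGroup M] (th : H →+ M) (hker : ∀ h : H, th h = 0 → ∃ y, h = y + y) (hfin : Finite th.range) :
    ∃ n : ℕ, Nonempty (H ≃ₗ[ℤ_[2]] (Fin n → ℤ_[2])) := by
  classical
  have hex : ∀ m : th.range, ∃ h, th h = m := fun m => m.2
  choose r hr using hex
  obtain ⟨k, ⟨f⟩⟩ := finite_iff_exists_equiv_fin.1 hfin
  let x : Fin k → H := fun i => r (f.symm i)
  have hx : ∀ h : H, ∃ c : Fin k → ℤ_[2], ∃ y, h = ∑ i, c i • x i + ((2 : ℕ) : ℤ_[2]) • y := by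
    intro h
    let i0 : Fin k := f ⟨th h, ⟨h, rfl⟩⟩
    have h1 : x i0 = r ⟨th h, ⟨h, rfl⟩⟩ := by
      show r (f.symm (f _)) = _
      rw [Equiv.symm_apply_apply]
    have h2 : th (h - x i0) = 0 := by
      rw [map_sub, h1, hr, sub_self]
    obtain ⟨y, hy⟩ := hker _ h2
    refine ⟨Pi.single i0 1, y, ?_⟩
    rw [Finset.sum_eq_single i0]
    · rw [Pi.single_eq_same, one_smul, Nat.cast_smul_eq_nsmul, two_nsmul, ← hy, add_sub_cancel]
    · intro j _ hj
      rw [Pi.single_eq_of_ne hj, zero_smul]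
    · intro h3
      exact absurd (mem_univ _) h3
  have hspan : ⊤ ≤ Submodule.span ℤ_[2] (Set.range x) := by
    intro h _
    obtain ⟨c, hc⟩ := gen_of_sep hsep x hx h
    rw [hc]
    exact Submodule.sum_mem _ fun i _ => Submodule.smul_mem _ _ (Submodule.subset_span ⟨i, rfl⟩)
  have hfin : Module.Finite ℤ_[2] H := ⟨⟨univ.image x, by
    rw [Finset.coe_image, Finset.coe_univ, Set.image_univ]
    exact top_le_iff.1 hspan⟩⟩
  have hntf : Module.IsTorsionFree ℤ_[2] H := Module.IsTorsionFree.of_smul_eq_zero fun a h hh => htf a h hh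
  exact ⟨_, ⟨(Module.finBasis ℤ_[2] H).equivFun⟩⟩

/-- **The lattice of a subquotient.** -/
theorem lemma_M_sub {C G M : Type*} [AddCommGroup C] [Module ℤ_[2] C] [Group G]
    [DistribMulAction G C] [AddCommGroup M] [DistribMulAction G M]
    (hlin : ∀ (g : G) (a : ℤ_[2]) (c : C), g • (a • c) = a • (g • c))
    (W T : Submodule ℤ_[2] C) (Z : C →ₗ[ℤ_[2]] C)
    (hZW : ∀ c ∈ W, Z c ∈ W) (hZT : ∀ c ∈ T, Z c ∈ T)
    (hGW : ∀ (g : G), ∀ c ∈ W, g • c ∈ W) (hGT : ∀ (g : G), ∀ c ∈ T, g • c ∈ T)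
    (hZ : ∀ c ∈ W, ∑ i ∈ range 2, (Z ^ i) c ∈ T)
    (hinj : ∀ c ∈ W, c - Z c ∈ T → c ∈ T)
    (hsep : ∀ c ∈ W, (∀ n : ℕ, ∃ y ∈ W, c - (((2 : ℕ) : ℤ_[2]) ^ n) • y ∈ T) → c ∈ T)
    (E : C → M → Prop) (hE : ∀ c ∈ W, ∃ m, E c m)
    (hadd : ∀ c ∈ W, ∀ c' ∈ W, ∀ m m', E c m → E c' m' → E (c + c') (m + m'))
    (hET : ∀ c ∈ T, ∀ m, E c m → m = 0)
    (hEZ : ∀ c ∈ W, ∀ m, E c m → E (Z c) m)
    (hker : ∀ c ∈ W, E c 0 → ∃ y ∈ W, c - (y - Z y) ∈ T)
    (hGE : ∀ (g : G), ∀ c ∈ W, ∀ m, E c m → E (g • c) (g • m))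
    (hfin : {m | ∃ c ∈ W, E c m}.Finite)
    (hlat : ∀ (n : ℕ) (A : G →* ((Fin n → ℤ_[2]) ≃ₗ[ℤ_[2]] (Fin n → ℤ_[2]))) (th : (Fin n → ℤ_[2]) →+ M),
      (∀ m, (∃ v, th v = m) ↔ ∃ c ∈ W, E c m) → (∀ v, th v = 0 ↔ ∃ w, v = w + w) →
      (∀ g v, th (A g v) = g • th v) → ∃ γ : G, ∀ m : ℕ, 0 < m → ∀ v, A (γ ^ m) v = v → v = 0) :
    ∃ γ : G, ∀ n : ℕ, n ≠ 0 → ∀ c ∈ W, γ ^ n • c - c ∈ T → c ∈ T := by
  classical
  -- uniqueness of values
  have huniq : ∀ c ∈ W, ∀ m m', E c m → E c m' → m = m' := by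
    intro c hc m m' h h'
    obtain ⟨m'', h''⟩ := hE (-c) (W.neg_mem hc)
    have h1 := hadd c hc (-c) (W.neg_mem hc) m m'' h h''
    have h2 := hadd c hc (-c) (W.neg_mem hc) m' m'' h' h''
    rw [add_neg_cancel] at h1 h2
    have h3 := hET 0 T.zero_mem _ h1
    have h4 := hET 0 T.zero_mem _ h2
    exact add_right_cancel (h3.trans h4.symm)
  -- the quotient
  let T' : Submodule ℤ_[2] W := T.comap W.subtype
  have memT' : ∀ w : W, w ∈ T' ↔ (w : C) ∈ T := fun w => Iff.rfl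
  let mk : W →ₗ[ℤ_[2]] W ⧸ T' := T'.mkQ
  have mk_surj : Function.Surjective mk := T'.mkQ_surjective
  have mk_eq : ∀ a b : W, mk a = mk b ↔ (a : C) - b ∈ T := by
    intro a b
    rw [← sub_eq_zero, ← map_sub]
    exact (Submodule.Quotient.mk_eq_zero T').trans (memT' _)
  have mk_zero : ∀ a : W, mk a = 0 ↔ (a : C) ∈ T := by
    intro a
    rw [← map_zero mk, mk_eq, ZeroMemClass.coe_zero, sub_zero]
  -- induced endomorphism
  let ZW : W →ₗ[ℤ_[2]] W := Z.restrict hZW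
  have ZW_coe : ∀ w : W, (ZW w : C) = Z w := fun w => rfl
  let Zb : Module.End ℤ_[2] (W ⧸ T') := T'.mapQ T' ZW fun w hw => by
    rw [Submodule.mem_comap, memT', ZW_coe]
    exact hZT _ ((memT' w).1 hw)
  have Zb_mk : ∀ w, Zb (mk w) = mk (ZW w) := fun w => rfl
  -- induced action
  let φ : G → W →ₗ[ℤ_[2]] W := fun g =>
    { toFun := fun w => ⟨g • (w : C), hGW g w w.2⟩
      map_add' := fun a b => Subtype.ext (smul_add g (a : C) b)
      map_smul' := fun a b => Subtype.ext (hlin g a b) }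
  have φ_coe : ∀ g (w : W), (φ g w : C) = g • (w : C) := fun g w => rfl
  let ψ : G → W ⧸ T' →ₗ[ℤ_[2]] W ⧸ T' := fun g => T'.mapQ T' (φ g) fun w hw => by
    rw [Submodule.mem_comap, memT', φ_coe]
    exact hGT g _ ((memT' w).1 hw)
  have ψ_mk : ∀ g w, ψ g (mk w) = mk (φ g w) := fun g w => rfl
  have ψ_one : ψ 1 = LinearMap.id := by
    refine LinearMap.ext fun q => ?_
    obtain ⟨w, rfl⟩ := mk_surj q
    rw [ψ_mk]
    exact congrArg mk (Subtype.ext (one_smul G (w : C)))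
  have ψ_mul : ∀ u v, ψ (u * v) = (ψ u).comp (ψ v) := by
    intro u v
    refine LinearMap.ext fun q => ?_
    obtain ⟨w, rfl⟩ := mk_surj q
    rw [LinearMap.comp_apply, ψ_mk, ψ_mk, ψ_mk]
    exact congrArg mk (Subtype.ext (mul_smul u v (w : C)))
  let Ψ : G →* ((W ⧸ T') ≃ₗ[ℤ_[2]] (W ⧸ T')) := MonoidHom.mk'
    (fun g => LinearEquiv.ofLinear (ψ g) (ψ g⁻¹) (by rw [← ψ_mul, mul_inv_cancel, ψ_one])
      (by rw [← ψ_mul, inv_mul_cancel, ψ_one])) fun u v => by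
        refine LinearEquiv.ext fun q => ?_
        exact congrArg (fun f : W ⧸ T' →ₗ[ℤ_[2]] W ⧸ T' => f q) (ψ_mul u v)
  have hΨ : ∀ g q, Ψ g q = ψ g q := fun g q => rfl
  -- the homomorphism e
  have hex : ∀ w : W, ∃ m, E w m := fun w => hE w w.2
  choose ew hew using hex
  have e_eq : ∀ a b : W, mk a = mk b → ew a = ew b := by
    intro a b hab
    rw [mk_eq] at hab
    obtain ⟨m, hm⟩ := hE ((a : C) - b) (W.sub_mem a.2 b.2)
    have h1 := hET _ hab m hm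
    rw [h1] at hm
    have h2 := hadd _ (W.sub_mem a.2 b.2) _ b.2 _ _ hm (hew b)
    rw [sub_add_cancel, zero_add] at h2
    exact huniq a a.2 _ _ (hew a) h2
  have ew_add : ∀ a b : W, ew (a + b) = ew a + ew b := fun a b =>
    huniq (a + b : W) (a + b).2 _ _ (hew (a + b)) (hadd a a.2 b b.2 _ _ (hew a) (hew b))
  have ew_zero : ew 0 = 0 := hET 0 T.zero_mem _ (hew 0)
  have ew_uniq : ∀ (w : W) m, E w m → ew w = m := fun w m h => huniq w w.2 _ _ (hew w) h
  let e : W ⧸ T' →+ M :=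
    { toFun := fun q => ew (Function.surjInv mk_surj q)
      map_zero' := by
        rw [← ew_zero]
        exact e_eq _ _ (by rw [Function.surjInv_eq mk_surj, map_zero])
      map_add' := fun a b => by
        rw [← ew_add]
        exact e_eq _ _ (by
          rw [Function.surjInv_eq mk_surj, map_add, Function.surjInv_eq mk_surj,
            Function.surjInv_eq mk_surj]) }
  have e_mk : ∀ w, e (mk w) = ew w := fun w => e_eq _ _ (Function.surjInv_eq mk_surj _)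
  -- `Z = -1`
  have hneg : ∀ q : W ⧸ T', Zb q = -q := by
    intro q
    obtain ⟨w, rfl⟩ := mk_surj q
    have h1 := hZ w w.2
    rw [sum_range_succ, sum_range_one, pow_zero, pow_one, Module.End.one_apply] at h1
    have h2 : mk w + mk (ZW w) = 0 := by
      rw [← map_add, mk_zero]
      exact h1
    rw [Zb_mk]
    exact (neg_eq_of_add_eq_zero_right h2).symm
  have hZb : ∑ i ∈ range 2, Zb ^ i = 0 := by
    rw [sum_range_succ, sum_range_one, pow_zero, pow_one]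
    refine LinearMap.ext fun q => ?_
    rw [LinearMap.add_apply, Module.End.one_apply, hneg, add_neg_cancel, LinearMap.zero_apply]
  have hinjb : ∀ q : W ⧸ T', q - Zb q = 0 → q = 0 := by
    intro q hq
    obtain ⟨w, rfl⟩ := mk_surj q
    rw [Zb_mk, ← map_sub, mk_zero, Submodule.coe_sub, ZW_coe] at hq
    rw [mk_zero]
    exact hinj w w.2 hq
  have hrange : ∀ m, m ∈ e.range ↔ ∃ c ∈ W, E c m := by
    intro m
    constructor
    · rintro ⟨q, rfl⟩
      obtain ⟨w, rfl⟩ := mk_surj q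
      exact ⟨w, w.2, by rw [e_mk]; exact hew w⟩
    · rintro ⟨c, hc, hm⟩
      exact ⟨mk ⟨c, hc⟩, by rw [e_mk]; exact ew_uniq ⟨c, hc⟩ m hm⟩
  have hfin' : Finite e.range := by
    refine (hfin.subset ?_).to_subtype
    intro m hm
    exact (hrange m).1 hm
  have hkerb : ∀ q : W ⧸ T', e q = 0 ↔ ∃ y, q = y + y := by
    intro q
    obtain ⟨w, rfl⟩ := mk_surj q
    constructor
    · intro h
      rw [e_mk] at h
      have h1 := hew w
      rw [h] at h1
      obtain ⟨y, hy, hyT⟩ := hker w w.2 h1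
      refine ⟨mk ⟨y, hy⟩, ?_⟩
      have h2 : mk w = mk ⟨y, hy⟩ - Zb (mk ⟨y, hy⟩) := by
        rw [Zb_mk, ← map_sub, mk_eq]
        exact hyT
      rw [h2, hneg, sub_neg_eq_add]
    · rintro ⟨y, hy⟩
      obtain ⟨y', rfl⟩ := mk_surj y
      have h2 : mk y' + mk y' = mk y' - Zb (mk y') := by rw [hneg, sub_neg_eq_add]
      rw [hy, h2, map_sub, Zb_mk, e_mk, e_mk, sub_eq_zero]
      exact (ew_uniq (ZW y') _ (hEZ y' y'.2 _ (hew y'))).symm
  obtain ⟨n, ⟨B⟩⟩ := exists_lattice (H := W ⧸ T') (torsion_free_of_inj Zb hZb hinjb)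
    (fun q hq => by
      obtain ⟨w, rfl⟩ := mk_surj q
      rw [mk_zero]
      refine hsep w w.2 fun n => ?_
      obtain ⟨y, hy⟩ := hq n
      obtain ⟨y', rfl⟩ := mk_surj y
      rw [← map_smul, mk_eq] at hy
      exact ⟨y', y'.2, hy⟩)
    e (fun q => (hkerb q).1) hfin'
  let A : G →* ((Fin n → ℤ_[2]) ≃ₗ[ℤ_[2]] (Fin n → ℤ_[2])) := MonoidHom.mk' (fun g => (B.symm.trans (Ψ g)).trans B)
    fun u v => by
      refine LinearEquiv.ext fun x => ?_
      show B (Ψ (u * v) (B.symm x)) = B (Ψ u (B.symm (B (Ψ v (B.symm x)))))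
      rw [LinearEquiv.symm_apply_apply, map_mul]
      rfl
  have hA : ∀ g x, A g x = B (ψ g (B.symm x)) := fun g x => rfl
  obtain ⟨γ, hγ⟩ := hlat n A (e.comp (B.symm : (Fin n → ℤ_[2]) →+ W ⧸ T'))
    (fun m => by
      rw [← hrange]
      constructor
      · rintro ⟨v, rfl⟩
        exact ⟨_, rfl⟩
      · rintro ⟨q, rfl⟩
        refine ⟨B q, ?_⟩
        show e (B.symm (B q)) = e q
        rw [LinearEquiv.symm_apply_apply])
    (fun v => by
      show e (B.symm v) = 0 ↔ _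
      rw [hkerb]
      constructor
      · rintro ⟨y, hy⟩
        refine ⟨B y, ?_⟩
        rw [← map_add, ← hy, LinearEquiv.apply_symm_apply]
      · rintro ⟨w, rfl⟩
        exact ⟨B.symm w, map_add _ _ _⟩)
    (fun g v => by
      show e (B.symm (A g v)) = g • e (B.symm v)
      rw [hA, LinearEquiv.symm_apply_apply]
      obtain ⟨w, hw⟩ := mk_surj (B.symm v)
      rw [← hw, ψ_mk, e_mk, e_mk]
      exact ew_uniq (φ g w) _ (hGE g w w.2 _ (hew w)))
  refine ⟨γ, fun m hm c hc hcT => ?_⟩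
  refine (mk_zero ⟨c, hc⟩).1 ?_
  have h1 : B (mk ⟨c, hc⟩) = 0 := by
    refine hγ m (Nat.pos_of_ne_zero hm) _ ?_
    rw [hA, LinearEquiv.symm_apply_apply, ψ_mk]
    congr 1
    rw [mk_eq, φ_coe]
    exact hcT
  exact (LinearEquiv.map_eq_zero_iff B).1 h1

end MP89bZ
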