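import Mathlib
import Pool.Agent.Lib.MP_89bcae_ag.Xe.LM
import Pool.Agent.Lib.MP_89bcae_ag.Xe.DefsM
import Pool.Agent.Lib.MP_89bcae_ag.Zt.FinE

/-!
# One automorphism no power of which fixes a class, from a hypothesis on the lattices
-/

attribute [local instance 100000] Pool.Agent.Lib.MP_89bcae_ag.Brt.tffFields
attribute [local instance 100000] Pool.Agent.Lib.MP_89bcae_ag.Wt.ifrNF Pool.Agent.Lib.MP_89bcae_ag.Wt.iddNF

open Polynomial IsDedekindDomain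

open scoped Classical

namespace Pool.Agent.Lib.MP_89bcae_ag.Xe

section

open Pool.Agent.Lib.MP_89bcae_ag.Wt Pool.Agent.Lib.MP_89bcae_ag.Wt.Lns Pool.Agent.Lib.MP_89bcae_ag.Zq
  Pool.Agent.Lib.MP_89bcae_ag.Zt

open Pool.Agent.Lib.MP_89bcae_ag.Zs (Co1 actA LTprop tc_sub act_neg' toTm tc_zl zA1)

set_option linter.unusedSectionVars false

variable {k F L Ω : Type} [Field k] [Field F] [Algebra k F] [Field L] [Algebra F[X] L]
  [Field Ω] [Algebra L Ω] [IsAlgClosure k F] [IsFractionRing F[X] L] [IsAlgClosure L Ω]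
  {P : k[X][X]} {ζ : k} [hG : IsGood 2 (cOver k F L Ω P)]

attribute [local instance] actA

variable {LT : Co1 2 k F L Ω P → Prop}

/-- **One automorphism no power of which fixes a nontrivial class.** -/
theorem ntj_one_ofM (H : LHyp 2 k F L P ζ) (hLT : LTprop ζ LT)
    (hζ : (zA F L Ω ζ) ^ 2 = 1)
    {M : Type*} [AddCommGroup M] [DistribMulAction (AutO k F L Ω) M]
    (E : Coch 2 k F L Ω P → M → Prop)
    (hE : ∀ c, IsL LT c → ∃ m, E c m)
    (hadd : ∀ c c', IsL LT c → IsL LT c' → ∀ m m', E c m → E c' m' → E (c + c') (m + m'))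
    (hET : ∀ c, TrJ c → ∀ m, E c m → m = 0)
    (hEZ : ∀ c, IsL LT c → ∀ m, E c m → E (Lns.zC ζ hζ c) m)
    (hker : ∀ c, IsL LT c → E c 0 → ∃ c' : Coch 2 k F L Ω P, TrJ c' ∧ ∃ q : Ω → ℤ,
      ∀ σ : Ω ≃ₐ[L] Ω, vJ (zA F L Ω ζ) hζ ((c - c') 1 σ) =
        symJ (toSym P (galA k F σ)) (rm q) - rm q)
    (hGE : ∀ (g : AutO k F L Ω) c, IsL LT c → ∀ m, E c m → E (act (g : AutO k F L Ω) c) (g • m))
    (hfin : {m | ∃ c, IsL LT c ∧ E c m}.Finite)
    (hlat : ∀ (n : ℕ) (A : AutO k F L Ω →* ((Fin n → ℤ_[2]) ≃ₗ[ℤ_[2]] (Fin n → ℤ_[2]))) (th : (Fin n → ℤ_[2]) →+ M),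
      (∀ m, (∃ v, th v = m) ↔ ∃ c, IsL LT c ∧ E c m) → (∀ v, th v = 0 ↔ ∃ w, v = w + w) →
      (∀ g v, th (A g v) = g • th v) → ∃ γ : AutO k F L Ω, ∀ m : ℕ, 0 < m → ∀ v, A (γ ^ m) v = v → v = 0) :
    ∃ γ : AutO k F L Ω, ∀ n : ℕ, 0 < n →
      NTJ 2 (curveL k F L P) LT {(((γ : AutO k F L Ω) ^ n : AutO k F L Ω) : Ω ≃+* Ω)} := by
  have hz : IsPrimitiveRoot (zA F L Ω ζ) 2 := zA_prim H
  let Z : MP89bZ.Tm 2 (Co1 2 k F L Ω P) →ₗ[ℤ_[2]] MP89bZ.Tm 2 (Co1 2 k F L Ω P) :=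
    MP89bZ.Tm.map (zA1 ζ hζ)
  have hZc : ∀ c : MP89bZ.Tm 2 (Co1 2 k F L Ω P), ((Z c : MP89bZ.Tm 2 (Co1 2 k F L Ω P)) :
      Coch 2 k F L Ω P) = Lns.zC ζ hζ (c : Coch 2 k F L Ω P) := fun c => rfl
  have hZi : ∀ (i : ℕ) (c : MP89bZ.Tm 2 (Co1 2 k F L Ω P)),
      (((Z ^ i) c : MP89bZ.Tm 2 (Co1 2 k F L Ω P)) : Coch 2 k F L Ω P) =
        (Lns.zC ζ hζ)^[i] (c : Coch 2 k F L Ω P) := by
    intro i
    induction i with
    | zero => intro c; rfl
    | succ i ih =>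
      intro c
      rw [pow_succ, Module.End.mul_apply, ih, hZc, Function.iterate_succ_apply]
  have e1 : ∀ c ∈ (LJm hLT : Submodule ℤ_[2] (MP89bZ.Tm 2 (Co1 2 k F L Ω P))), Z c ∈ LJm (P := P) hLT := fun c hc => by
    show IsL LT _
    rw [hZc]
    exact IsL.zC hLT hc hζ
  have e2 : ∀ c ∈ TJm k F L Ω 2 P, Z c ∈ TJm k F L Ω 2 P := fun c hc => by
    show TrJ _
    rw [hZc]
    exact TrJ.zC hc ζ hζ
  have e3 : ∀ (g : AutO k F L Ω), ∀ c ∈ LJm (P := P) hLT, g • c ∈ LJm (P := P) hLT :=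
    fun g c hc => IsL.act hLT hc (g : AutO k F L Ω)
  have e4 : ∀ (g : AutO k F L Ω), ∀ c ∈ TJm k F L Ω 2 P, g • c ∈ TJm k F L Ω 2 P :=
    fun g c hc => TrJ.act hc (g : AutO k F L Ω)
  have e5 : ∀ c ∈ LJm (P := P) hLT, ∑ i ∈ Finset.range 2, (Z ^ i) c ∈ TJm k F L Ω 2 P := fun c hc => by
    have h1 : ∑ i ∈ Finset.range 2, (Z ^ i) c = 0 := by
      refine Subtype.ext ?_
      rw [AddSubgroup.val_finsetSum]
      simp only [hZi]
      exact sum_zC_mem ζ hz (c : Coch 2 k F L Ω P)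
    rw [h1]
    exact (TJm k F L Ω 2 P).zero_mem
  have e6 : ∀ (g : AutO k F L Ω), ∀ c ∈ LJm (P := P) hLT, Z (g • c) - g • Z c ∈ TJm k F L Ω 2 P := fun g c hc => by
    have h1 : Z (g • c) - g • Z c = 0 := by
      rw [sub_eq_zero]
      refine Subtype.ext ?_
      rw [hZc]
      exact (act_zC (g : AutO k F L Ω) ζ hζ (c : Coch 2 k F L Ω P)).symm
    rw [h1]
    exact (TJm k F L Ω 2 P).zero_mem
  have e7 : ∀ c ∈ LJm (P := P) hLT, c - Z c ∈ TJm k F L Ω 2 P → c ∈ TJm k F L Ω 2 P := fun c hc h => by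
    have hc' : IsL LT (c : Coch 2 k F L Ω P) := hc
    have h' : TrJ ((c : Coch 2 k F L Ω P) - Lns.zC ζ hζ (c : Coch 2 k F L Ω P)) := h
    exact TrJ.of_sub_zC H hζ hc'.1 h'
  have e8 : ∀ c ∈ LJm (P := P) hLT, (∀ n : ℕ, ∃ y ∈ LJm (P := P) hLT, c - (((2 : ℕ) : ℤ_[2]) ^ n) • y ∈ TJm k F L Ω 2 P) →
      c ∈ TJm k F L Ω 2 P := fun c hc h => by
    have hc' : IsL LT (c : Coch 2 k F L Ω P) := hc
    refine ⟨hc'.1, fun n => ?_⟩
    obtain ⟨y, hy, hyT⟩ := h n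
    obtain ⟨A, hA2⟩ := hyT.2 n
    refine ⟨A, fun σ => ?_⟩
    rw [← hA2 σ]
    show _ = (c : Coch 2 k F L Ω P) n σ -
      (((((2 : ℕ) : ℤ_[2]) ^ n) • y : MP89bZ.Tm 2 (Co1 2 k F L Ω P)) : Coch 2 k F L Ω P) n σ
    rw [MP89bZ.Tm.pow_smul_apply, MP89bZ.Tm.pow_smul, Pi.zero_apply, sub_zero]
  have e9 : ∀ c ∈ LJm (P := P) hLT, E (c : Coch 2 k F L Ω P) 0 → ∃ y ∈ LJm (P := P) hLT, c - (y - Z y) ∈ TJm k F L Ω 2 P := fun c hc h => by
    obtain ⟨c', hc', q, hq⟩ := hker _ hc h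
    obtain ⟨y, hy, hyT⟩ := h1_divL H hLT hζ (IsL.sub hLT hc (IsL.of_trj hLT hc')) q hq
    refine ⟨toTm y hy.1, hy, ?_⟩
    have h1 : (c : Coch 2 k F L Ω P) - (y - Lns.zC ζ hζ y) =
        ((c : Coch 2 k F L Ω P) - c' - (y - Lns.zC ζ hζ y)) + c' := by abel
    show TrJ ((c : Coch 2 k F L Ω P) - (y - Lns.zC ζ hζ y))
    rw [h1]
    exact hyT.add hc'
  obtain ⟨γ, hγ⟩ := MP89bZ.lemma_M_sub
    (C := MP89bZ.Tm 2 (Co1 2 k F L Ω P)) (G := AutO k F L Ω) (M := M)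
    (fun g a c => MP89bZ.Tm.act_smul g a c)
    (LJm (P := P) hLT) (TJm k F L Ω 2 P) Z e1 e2 e3 e4 e5 e7 e8
    (fun c m => E (c : Coch 2 k F L Ω P) m)
    (fun c hc => hE _ hc)
    (fun c hc c' hc' m m' h h' => hadd _ _ hc hc' m m' h h')
    (fun c hc m h => hET _ hc m h)
    (fun c hc m h => by
      rw [hZc]
      exact hEZ _ hc m h)
    e9
    (fun g c hc m h => hGE g _ hc m h)
    (hfin.subset (by
      rintro m ⟨c, hc, hm⟩
      exact ⟨(c : Coch 2 k F L Ω P), hc, hm⟩))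
    (fun n A th h1 h2 h3 => hlat n A th (fun m => by
      rw [h1]
      constructor
      · rintro ⟨c, hc, hm⟩
        exact ⟨(c : Coch 2 k F L Ω P), hc, hm⟩
      · rintro ⟨c, hc, hm⟩
        exact ⟨toTm c hc.1, hc, hm⟩) h2 h3)
  refine ⟨γ, fun n hn c hc hcLT hfix => ?_⟩
  have h1 : TrJ (act ((γ : AutO k F L Ω) ^ n) c - c) :=
    act_sub_of_fixed hc _ fun hγ' => hfix _ hγ' rfl
  have h2 := hγ n hn.ne' (toTm c hc) (show IsL LT c from ⟨hc, hcLT⟩) (by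
    exact h1)
  exact (show TrJ c from h2).2

end

section

open Pool.Agent.Lib.MP_89bcae_ag.Wt Pool.Agent.Lib.MP_89bcae_ag.Wt.Lns Pool.Agent.Lib.MP_89bcae_ag.Bra
  Pool.Agent.Lib.MP_89bcae_ag.Brt Pool.Agent.Lib.MP_89bcae_ag.Zc Pool.Agent.Lib.MP_89bcae_ag.Zt

open Pool.Agent.Lib.MP_89bcae_ag.Zq (TrJ IsTrivialJ IsFixedByJ NTJ)

open Pool.Agent.Lib.MP_89bcae_ag.Zs (LTprop Co1)

open Pool.Agent.Lib.MP_89bcae_ag.Ze

variable {k F L Ω : Type} [Field k] [Field F] [Algebra k F] [IsAlgClosure k F] [Field L] [Algebra F[X] L]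
  [IsFractionRing F[X] L] [Field Ω] [Algebra L Ω] [IsAlgClosure L Ω] {f : k[X][X]} {ζ : k}

/-- No power of one automorphism fixes a class which does not come from points. -/
theorem ntj_one_genM (H : LHyp 2 k F L f ζ)
    (hsep : (curveL k F L f).Separable) (hmon : (curveL k F L f).Monic)
    [hG : IsGood 2 (cOver k F L Ω f)] {LT : Co1 2 k F L Ω f → Prop} (hLT : LTprop ζ LT)
    (p : L[X]) (hp : curveL k F L f = p) {G : Subgroup (AdjoinRoot p ≃+* AdjoinRoot p)}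
    (ρ : AutO k F L Ω →* (AdjoinRoot p ≃+* AdjoinRoot p))
    (hρ1 : ∀ γ A, ρ γ (AdjoinRoot.mk p A) = AdjoinRoot.mk p (A.map (coefR L (resF γ))))
    (hρ2 : ∀ γ, ρ γ ∈ G) (hρ3 : ∀ γ' ∈ G, ∃ γ, ρ γ = γ')
    (hst : ∀ γ ∈ G, ∀ u ∈ points 2 p, Units.map ((γ : AdjoinRoot p ≃+* AdjoinRoot p) : AdjoinRoot p →* AdjoinRoot p) u ∈
      points 2 p)
    {U : Subgroup (AdjoinRoot p)ˣ} (hU : Contains ζ LT p U)
    (hρG : ρ.range = G)
    (hCR : points 2 p ≤ U → (points 2 p).relIndex U ≠ 0 ∧ IsMixing G U (points 2 p)) :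
    ∃ γ : AutO k F L Ω, ∀ n : ℕ, 0 < n →
      NTJ 2 (curveL k F L f) LT {((γ ^ n : AutO k F L Ω) : Ω ≃+* Ω)} := by
  subst hp
  have h2p : (2 : ℕ).Prime := Nat.prime_two
  have hz : IsPrimitiveRoot (zA F L Ω ζ) 2 := zA_prim H
  have hζ0 : zA F L Ω ζ ≠ 0 := hz.ne_zero h2p.ne_zero
  have hVst : ∀ (g : AutO k F L Ω), ∀ u ∈ points 2 (curveL k F L f),
      Units.map ((ρ g : AdjoinRoot (curveL k F L f) ≃+* AdjoinRoot (curveL k F L f)) :
        AdjoinRoot (curveL k F L f) →* AdjoinRoot (curveL k F L f)) u ∈ points 2 (curveL k F L f) :=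
    fun g u hu => hst _ (hρ2 g) u hu
  have hVU : points 2 (curveL k F L f) ≤ U := by
    intro u hu
    obtain ⟨c', A, hc', huA, hk⟩ := kumE_of_mem_points (Ω := Ω) H hz.pow_eq_one hsep hmon hu
    exact hU hz.pow_eq_one c' hc'.1 (fun n => hc'.lt hLT n) A u huA hk
  let _ : DistribMulAction (AutO k F L Ω) (Additive ((AdjoinRoot (curveL k F L f))ˣ ⧸ points 2 (curveL k F L f))) :=
    actQ ρ hVst
  have hsm : ∀ (g : AutO k F L Ω) (u : (AdjoinRoot (curveL k F L f))ˣ),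
      g • (Additive.ofMul (QuotientGroup.mk u : (AdjoinRoot (curveL k F L f))ˣ ⧸ points 2 (curveL k F L f))) =
      Additive.ofMul (QuotientGroup.mk (Units.map ((ρ g : AdjoinRoot (curveL k F L f) ≃+* AdjoinRoot (curveL k F L f)) :
        AdjoinRoot (curveL k F L f) →* AdjoinRoot (curveL k F L f)) u)) := fun g u => actQ_mk ρ hVst g u
  have hzero : ∀ u : (AdjoinRoot (curveL k F L f))ˣ,
      (Additive.ofMul (QuotientGroup.mk u : (AdjoinRoot (curveL k F L f))ˣ ⧸ points 2 (curveL k F L f))) = 0 ↔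
        u ∈ points 2 (curveL k F L f) := by
    intro u
    have h4 : (Additive.ofMul (QuotientGroup.mk u : (AdjoinRoot (curveL k F L f))ˣ ⧸ points 2 (curveL k F L f))) = 0 ↔
        (QuotientGroup.mk u : (AdjoinRoot (curveL k F L f))ˣ ⧸ points 2 (curveL k F L f)) = 1 := Iff.rfl
    rw [h4, QuotientGroup.eq_one_iff]
  obtain ⟨hC, hR⟩ := hCR hVU
  refine ntj_one_ofM (LT := LT) H hLT hz.pow_eq_one
    (M := Additive ((AdjoinRoot (curveL k F L f))ˣ ⧸ points 2 (curveL k F L f)))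
    (fun c m => ∃ (u : (AdjoinRoot (curveL k F L f))ˣ) (A : L[X]),
      (u : AdjoinRoot (curveL k F L f)) = AdjoinRoot.mk (curveL k F L f) A ∧
      m = Additive.ofMul (QuotientGroup.mk u : (AdjoinRoot (curveL k F L f))ˣ ⧸ points 2 (curveL k F L f)) ∧
      IsKumE ζ (fun σ => vJ (zA F L Ω ζ) hz.pow_eq_one (c 1 σ)) A)
    ?_ ?_ ?_ ?_ ?_ ?_ ?_ ?_
  · -- existence
    intro c hc
    obtain ⟨A, hA⟩ := exists_isKumE H hz.pow_eq_one hsep hc.1
    obtain ⟨u, hu⟩ := exists_unitE (hA.isCoprime hsep)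
    exact ⟨_, u, A, hu, rfl, hA⟩
  · -- sums
    rintro c c' - - m m' ⟨u, A, huA, rfl, hu⟩ ⟨u', A', huA', rfl, hu'⟩
    refine ⟨u * u', A * A', by rw [Units.val_mul, huA, huA', map_mul], rfl, ?_⟩
    have h4 := hu.add hζ0 hu'
    refine Eq.mp (congrArg (fun a => IsKumE ζ a _) ?_) h4
    funext σ
    exact (vJ_add _ _ _ _).symm
  · -- trivial classes
    rintro c hc m ⟨u, A, huA, rfl, hu⟩
    rw [hzero]
    exact mem_points H hz.pow_eq_one hsep hmon hc hu huA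
  · -- `Z`
    rintro c hc m ⟨u, A, huA, rfl, hu⟩
    exact ⟨u, A, huA, rfl, isKumE_zC H hz.pow_eq_one hc.1 hu⟩
  · -- kernel
    rintro c hc ⟨u, A, huA, hu0, hu⟩
    obtain ⟨c', A', hc', huA', hk⟩ := kumE_of_mem_points (Ω := Ω) H hz.pow_eq_one hsep hmon ((hzero u).1 hu0.symm)
    refine ⟨c', hc', ?_⟩
    obtain ⟨B, hB⟩ := AdjoinRoot.mk_surjective ((u⁻¹ : (AdjoinRoot (curveL k F L f))ˣ) : AdjoinRoot (curveL k F L f))
    have hAA : ∀ θ : Ω, (cOver k F L Ω f).eval θ = 0 → aeval θ A = aeval θ A' := fun θ hθ =>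
      aeval_eq_of_mkE rfl (huA.symm.trans huA') hθ
    have hAB : ∀ θ : Ω, (cOver k F L Ω f).eval θ = 0 → aeval θ A' * aeval θ B = 1 := by
      intro θ hθ
      rw [← map_mul, ← map_one (aeval (R := L) θ)]
      refine aeval_eq_of_mkE (k := k) (f := f) rfl ?_ hθ
      rw [map_mul, ← huA', hB, Units.mul_inv, map_one]
    have h4 := hu.add hζ0 (hk.neg hAB)
    have h5 : IsKumE ζ (fun σ => vJ (zA F L Ω ζ) hz.pow_eq_one ((c - c') 1 σ)) (A * B) := by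
      refine Eq.mp (congrArg (fun a => IsKumE ζ a _) ?_) h4
      funext σ
      rw [← sub_eq_add_neg]
      exact (vJ_sub _ _ _ _).symm
    refine h5.exists_cob (W := 1) H hsep ?_
    have h6 : AdjoinRoot.mk (curveL k F L f) (A * B) = AdjoinRoot.mk (curveL k F L f) (1 ^ 2) := by
      rw [map_mul, ← huA, hB, Units.mul_inv, one_pow, map_one]
    exact AdjoinRoot.mk_eq_mk.1 h6
  · -- equivariance
    rintro g c hc m ⟨u, A, huA, rfl, hu⟩
    refine ⟨_, A.map (coefR L (resF g)), ?_, hsm g u, ?_⟩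
    · show ρ g (u : AdjoinRoot (curveL k F L f)) = _
      rw [huA, hρ1]
    have h4 := hu.act g
    refine Eq.mp (congrArg (fun a => IsKumE ζ a _) ?_) h4
    funext σ
    exact (vJ_symJ (zA F L Ω ζ) hz.pow_eq_one (toSym f (g : AutO k F L Ω)) (zA_fixed ζ (g : AutO k F L Ω)) _).symm
  · -- finiteness
    have h4 : Finite (quo (points 2 (curveL k F L f)) U) := Nat.finite_of_card_ne_zero (by
      rw [card_quo]
      exact hC)
    refine (Set.finite_range (fun q : quo (points 2 (curveL k F L f)) U =>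
      (q : Additive ((AdjoinRoot (curveL k F L f))ˣ ⧸ points 2 (curveL k F L f))))).subset ?_
    rintro _ ⟨c, hc, u, A, huA, rfl, hu⟩
    exact ⟨⟨_, ⟨u, hU hz.pow_eq_one c hc.1 hc.2 A u huA hu, rfl⟩⟩, rfl⟩
  · -- the lattice
    intro n A th h1 h2 h3
    -- representatives
    have hrep : ∀ v, ∃ u : (AdjoinRoot (curveL k F L f))ˣ, u ∈ U ∧
        th v = Additive.ofMul (QuotientGroup.mk u : (AdjoinRoot (curveL k F L f))ˣ ⧸ points 2 (curveL k F L f)) := by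
      intro v
      obtain ⟨c, hc, u, B, huB, hmu, hu⟩ := (h1 (th v)).1 ⟨v, rfl⟩
      exact ⟨u, hU hz.pow_eq_one c hc.1 hc.2 B u huB hu, hmu⟩
    choose r hrU hr using hrep
    -- the group
    let N : Subgroup (AdjoinRoot (curveL k F L f))ˣ :=
      { carrier := {u | ∃ v, th v = Additive.ofMul (QuotientGroup.mk u :
          (AdjoinRoot (curveL k F L f))ˣ ⧸ points 2 (curveL k F L f))}
        one_mem' := ⟨0, by rw [map_zero]; rfl⟩
        mul_mem' := by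
          rintro u u' ⟨v, hv⟩ ⟨v', hv'⟩
          exact ⟨v + v', by rw [map_add, hv, hv']; rfl⟩
        inv_mem' := by
          rintro u ⟨v, hv⟩
          exact ⟨-v, by rw [map_neg, hv]; rfl⟩ }
    have hNmem : ∀ u, u ∈ N ↔ ∃ v, th v = Additive.ofMul (QuotientGroup.mk u :
        (AdjoinRoot (curveL k F L f))ˣ ⧸ points 2 (curveL k F L f)) := fun u => Iff.rfl
    have hdiv : ∀ u u' : (AdjoinRoot (curveL k F L f))ˣ,
        (Additive.ofMul (QuotientGroup.mk u : (AdjoinRoot (curveL k F L f))ˣ ⧸ points 2 (curveL k F L f)) =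
          Additive.ofMul (QuotientGroup.mk u' : (AdjoinRoot (curveL k F L f))ˣ ⧸ points 2 (curveL k F L f))) ↔
          u / u' ∈ points 2 (curveL k F L f) := by
      intro u u'
      rw [← hzero, ← sub_eq_zero]
      rfl
    have hVN : points 2 (curveL k F L f) ≤ N := fun u hu => (hNmem u).2 ⟨0, by rw [map_zero, ((hzero u).2 hu)]⟩
    have hNU : N ≤ U := by
      intro u hu
      obtain ⟨v, hv⟩ := (hNmem u).1 hu
      rw [hr, hdiv] at hv
      have h4 := U.mul_mem (U.inv_mem (hVU hv)) (hrU v)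
      rwa [inv_div, div_mul_cancel] at h4
    obtain ⟨γ, hγ⟩ := hR (AutO k F L Ω) ρ hρG n A N hVN hNU r
      (fun v w => by
        rw [← hdiv, ← hr, map_add, hr v, hr w]
        rfl)
      (fun u => by
        rw [hNmem]
        constructor
        · rintro ⟨v, hv⟩
          refine ⟨v, ?_⟩
          rw [← hdiv, ← hv, hr]
        · rintro ⟨v, hv⟩
          refine ⟨v, ?_⟩
          rw [← hdiv, ← hr] at hv
          exact hv.symm)
      (fun v => by rw [← hzero, ← hr, h2])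
      (fun g v => by rw [← hdiv, ← hr, h3, hr v, hsm])
    exact ⟨γ, hγ⟩

end

section

open Pool.Agent.Lib.MP_89bcae_ag.Wt Pool.Agent.Lib.MP_89bcae_ag.Wt.Lns Pool.Agent.Lib.MP_89bcae_ag.Bra
  Pool.Agent.Lib.MP_89bcae_ag.Brt Pool.Agent.Lib.MP_89bcae_ag.Zc Pool.Agent.Lib.MP_89bcae_ag.Zt

open Pool.Agent.Lib.MP_89bcae_ag.Zq (NTJ exists_red ntj_congr)

open Pool.Agent.Lib.MP_89bcae_ag.Zp (UB ltprop_ub)

open Pool.Agent.Lib.MP_89bcae_ag.Zs (LTprop Co1 IsCoverField red ext_red map_base_red)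

open Pool.Agent.Lib.MP_89bcae_ag.Ze

/-- The theorem for one automorphism, from the criterion (I). -/
theorem one_of_mixing {k F : Type} [Field k] [Field F] [Algebra k F]
    [IsAlgClosure k F] (hk0 : (2 : k) ≠ 0) {f : k[X][X]} (hB : IsBranch 2 F (RatFunc F) f)
    {p : (RatFunc F)[X]} (hp : poly F (RatFunc F) f = p)
    (hC : points 2 p ≤ unramified 2 F p → (points 2 p).relIndex (unramified 2 F p) ≠ 0 ∧
      IsMixing (galois 2 k F p) (unramified 2 F p) (points 2 p)) :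
    ∀ (K S : Type) [Field K] [Algebra F K] [Field S] [Algebra K S] [IsAlgClosure K S] (t x y : K),
      IsCoverField 2 F f t x y → BrauerInvariantsTrivialOne 2 k F S t x y := by
  have h2p : (2 : ℕ).Prime := Nat.prime_two
  have hk : ((2 : ℕ) : k) ≠ 0 := by exact_mod_cast hk0
  have hd : p.degree ≠ 0 := by
    rw [← hp]
    exact hB.degree_ne_zero h2p
  have hfix : IsFixed k F p := by
    rw [← hp]
    exact fun σ => poly_map f σ
  obtain ⟨ζ, k₁, hζk, hζ, hk₁, hfin, hcl, hζ₁, hk₁0⟩ := exists_red h2p (k := k) (F := F) hk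
  refine brauer_oneE h2p hk hB fun {_} => ?_
  have hgood : IsGood 2 (((red k₁ f).map (base k₁ F (RatFunc F) (RatFunc F))).map
      (algebraMap (RatFunc F) (AlgebraicClosure (RatFunc F)))) := by
    rw [map_base_red]
    infer_instance
  have hgood' : IsGood 2 (cOver k₁ F (RatFunc F) (AlgebraicClosure (RatFunc F)) (red k₁ f)) := hgood
  have hB₁ : IsBranch 2 F (RatFunc F) (red k₁ f) := isBranch_red k₁ hB
  have hp₁ : curveL k₁ F (RatFunc F) (red k₁ f) = p := by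
    rw [curveL_eq_poly, poly_red, hp]
  have hfix₁ : IsFixed k₁ F p := by
    rw [← hp₁, curveL_eq_poly]
    exact fun σ => poly_map _ σ
  have H : LHyp 2 k₁ F (RatFunc F) (red k₁ f) (⟨ζ, hζk⟩ : k₁) := lhyp_of h2p hk₁0 hζ₁ hB₁
  have hsep : (curveL k₁ F (RatFunc F) (red k₁ f)).Separable :=
    (good_of (Ω := AlgebraicClosure (RatFunc F)) h2p hk₁0 hB₁).1
  have hmon : (curveL k₁ F (RatFunc F) (red k₁ f)).Monic := hB₁.monic.map _
  obtain ⟨ρ, hρ1, hρ2, hρ3⟩ := exists_resG (Ω := AlgebraicClosure (RatFunc F)) hfix₁ h2p hζ₁ hd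
  rw [galois_red hd k₁ hζ.pow_eq_one hk₁] at hρ2 hρ3
  have hU : Contains (Ω := AlgebraicClosure (RatFunc F)) (P := red k₁ f) (⟨ζ, hζk⟩ : k₁)
      (UB F 2 (curveL k₁ F (RatFunc F) (red k₁ f))) p (unramified 2 F p) := by
    have h3 := contains_unramified (Ω := AlgebraicClosure (RatFunc F)) h2p hk₁0 hζ₁ hB₁
    have key : ∀ q : (RatFunc F)[X], curveL k₁ F (RatFunc F) (red k₁ f) = q →
        Contains (Ω := AlgebraicClosure (RatFunc F)) (P := red k₁ f) (⟨ζ, hζk⟩ : k₁)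
          (UB F 2 (curveL k₁ F (RatFunc F) (red k₁ f))) q (unramified 2 F q) := by
      rintro q rfl
      exact h3
    exact key p hp₁
  obtain ⟨γ, hγ⟩ := ntj_one_genM (Ω := AlgebraicClosure (RatFunc F))
    (LT := UB F 2 (curveL k₁ F (RatFunc F) (red k₁ f))) H hsep hmon ltprop_ub p hp₁ ρ hρ1 hρ2 hρ3
    (fun γ hγ u hu => points_stable hfix hd hγ hu) hU (le_antisymm (by
      rintro _ ⟨γ, rfl⟩
      exact hρ2 γ) fun γ hγ => hρ3 γ hγ) hC
  refine ⟨⟨(γ : _ ≃+* _), mem_autO_ofE k₁ γ.2⟩, fun n hn => ?_⟩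
  have h3 := hγ n hn
  exact ntj_congr (map_base_red (L := RatFunc F) k₁ (f := f)) h3


end

end Pool.Agent.Lib.MP_89bcae_ag.Xe
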