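import Mathlib
import Pool.Agent.Lib.MP_89bcae_ag.Xe.Defs
import Pool.Agent.Lib.MP_89bcae_ag.Ze.Gal

/-!
# The Galois group and the components
-/

open Polynomial IsDedekindDomain

open scoped Classical

namespace Pool.Agent.Lib.MP_89bcae_ag.Xe

open Pool.Agent.Lib.MP_89bcae_ag.Ze

open Pool.Agent.Lib.MP_89bcae_ag.Xs (ord aF Cst)

section

variable {k F L : Type} [Field k] [Field F] [Algebra k F] [Field L] [Algebra F[X] L] [IsFractionRing F[X] L]

lemma fixed_surf (a b : k[X]) : IsFixed k F (poly F L (surf a b)) := fun σ => poly_map _ σ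

lemma coefR_aF (a : k[X]) (σ : F ≃ₐ[k] F) :
    coefR L σ (algebraMap F[X] L (aF F a)) = algebraMap F[X] L (aF F a) := by
  have h : ((σ : F ≃+* F) : F →+* F).comp (algebraMap k F) = algebraMap k F := RingHom.ext fun c => σ.commutes c
  unfold aF
  rw [coefR_algebraMap, Polynomial.map_map, h]

lemma map_quad (a b : k[X]) (σ : F ≃ₐ[k] F) : (quad F L a b).map (coefR L σ) = quad F L a b := by
  unfold quad
  simp only [Polynomial.map_mul, Polynomial.map_add, Polynomial.map_pow, map_X, map_C, coefR_aF]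

lemma pi1_coefAut (a b : k[X]) (σ : F ≃ₐ[k] F) (u : AdjoinRoot (poly F L (surf a b))) :
    pi1 F L a b (coefAut (fixed_surf a b) σ u) = coefR L σ (pi1 F L a b u) := by
  obtain ⟨A, rfl⟩ := AdjoinRoot.mk_surjective u
  rw [coefAut_mk, pi1_mk, pi1_mk]
  have h := eval₂_hom (p := A) (coefR L σ) 0
  rw [← h, map_zero, eval_map]

lemma pi0_coefAut (a b : k[X]) (σ : F ≃ₐ[k] F) (u : AdjoinRoot (poly F L (surf a b))) :
    pi0 F L a b (coefAut (fixed_surf a b) σ u) = coefHom (coefR L σ) (map_quad a b σ) (pi0 F L a b u) := by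
  obtain ⟨A, rfl⟩ := AdjoinRoot.mk_surjective u
  rw [coefAut_mk, pi0_mk, pi0_mk, coefHom_mk]

lemma isQ_coefAut (a b : k[X]) (σ : F ≃ₐ[k] F) {u : AdjoinRoot (poly F L (surf a b))} {q : L} (h : IsQ F L a b u q) :
    IsQ F L a b (coefAut (fixed_surf a b) σ u) (coefR L σ q) := by
  obtain ⟨hq, v, hv⟩ := h
  refine ⟨(_root_.map_ne_zero _).2 hq, coefHom (coefR L σ) (map_quad a b σ) v, ?_⟩
  rw [pi0_coefAut, hv, map_mul, map_pow, ← AdjoinRoot.algebraMap_eq, coefHom_algebraMap]

lemma ord_coefR (σ : F ≃ₐ[k] F) (r : F) (x : L) : ord (σ r) (coefR L σ x) = ord r x := by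
  unfold Xs.ord
  exact congrArg (fun v => -(WithZero.log v)) (Sup.valuation_coefL L (σ : F ≃+* F) r x)

lemma coefAut_injective {p : L[X]} (hp : IsFixed k F p) (hd : p.degree ≠ 0) : Function.Injective (coefAut hp) := by
  have hnt : Nontrivial (AdjoinRoot p) := AdjoinRoot.nontrivial _ hd
  let i : F →+* AdjoinRoot p := (algebraMap L (AdjoinRoot p)).comp ((algebraMap F[X] L).comp C)
  have hi : Function.Injective i := i.injective
  intro σ τ h
  refine AlgEquiv.ext fun c => hi ?_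
  show algebraMap L _ (algebraMap F[X] L (C (σ c))) = algebraMap L _ (algebraMap F[X] L (C (τ c)))
  rw [← coefAut_const hp, ← coefAut_const hp, h]

end

section

variable {k F : Type} [Field k] [Field F] [Algebra k F]

lemma mem_rootSet_aut {p : k[X]} (σ : F ≃ₐ[k] F) {s : F} (hs : s ∈ p.rootSet F) : σ s ∈ p.rootSet F := by
  rw [mem_rootSet] at hs ⊢
  refine ⟨hs.1, ?_⟩
  have h := aeval_algHom_apply (σ : F →ₐ[k] F) s p
  rw [hs.2, map_zero] at h
  exact h

/-- The permutations of the roots of a polynomial. -/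
noncomputable def rootPerm (p : k[X]) : (F ≃ₐ[k] F) →* Equiv.Perm (p.rootSet F) where
  toFun σ :=
    { toFun := fun s => ⟨σ s, mem_rootSet_aut σ s.2⟩
      invFun := fun s => ⟨σ⁻¹ s, mem_rootSet_aut σ⁻¹ s.2⟩
      left_inv := fun s => Subtype.ext (σ.symm_apply_apply (s : F))
      right_inv := fun s => Subtype.ext (σ.apply_symm_apply (s : F)) }
  map_one' := by
    ext s
    rfl
  map_mul' σ τ := by
    ext s
    rfl

lemma rootPerm_apply (p : k[X]) (σ : F ≃ₐ[k] F) (s : p.rootSet F) : ((rootPerm p σ s : p.rootSet F) : F) = σ s := rfl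

end

end Pool.Agent.Lib.MP_89bcae_ag.Xe
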