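import Mathlib
import Pool.Agent.Lib.MP_89bcae_ag.Xe.Defs
import Pool.Agent.Lib.MP_89bcae_ag.Ze.Norm

/-!
# The norm and the branch curve
-/

open Polynomial IsDedekindDomain

open scoped Classical

namespace Pool.Agent.Lib.MP_89bcae_ag.Xe

open Pool.Agent.Lib.MP_89bcae_ag.Ze

open Pool.Agent.Lib.MP_89bcae_ag.Xs (ord aF Cst)

section

variable {k F L : Type} [Field k] [Field F] [Algebra k F] [Field L] [Algebra F[X] L] [IsFractionRing F[X] L]

/-- (uses Ze/Norm `norm_mk` with `K` the algebraic closure of `L`, for `f` and for `quad`) -/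
theorem norm_eq (a b : k[X]) (u : AdjoinRoot (poly F L (surf a b))) :
    Algebra.norm L u = pi1 F L a b u * Algebra.norm L (pi0 F L a b u) := by
  obtain ⟨A, rfl⟩ := AdjoinRoot.mk_surjective u
  have h1 := norm_mk (K := AlgebraicClosure L) (poly_monic (F := F) (L := L) a b) A
  have h2 := norm_mk (K := AlgebraicClosure L) (quad_monic (F := F) (L := L) a b) A
  have h3 : ((poly F L (surf a b)).map (algebraMap L (AlgebraicClosure L))).roots =
      0 ::ₘ ((quad F L a b).map (algebraMap L (AlgebraicClosure L))).roots := by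
    rw [poly_surf, Polynomial.map_mul, map_X, roots_mul, roots_X, Multiset.singleton_add]
    exact mul_ne_zero X_ne_zero ((quad_monic a b).map _).ne_zero
  rw [h3, Multiset.map_cons, Multiset.prod_cons, ← h2] at h1
  rw [pi1_mk, pi0_mk]
  apply (algebraMap L (AlgebraicClosure L)).injective
  rw [map_mul, h1]
  congr 1
  have h4 := aeval_algebraMap_apply (AlgebraicClosure L) (0 : L) A
  rw [map_zero] at h4
  rw [h4, coe_aeval_eq_eval]

/-- The polynomial `x ^ 2 + a x + b` is separable, if `a ^ 2 - 4 b` is not zero. -/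
private lemma nrm_separable {a b : L} (hd : a ^ 2 - 4 * b ≠ 0) : (X ^ 2 + C a * X + C b : L[X]).Separable := by
  have hu : (C (a ^ 2 - 4 * b) * C (a ^ 2 - 4 * b)⁻¹ : L[X]) = 1 := by
    rw [← C_mul, mul_inv_cancel₀ hd, C_1]
  have hw : (C (a ^ 2 - 4 * b) : L[X]) = C a ^ 2 - 4 * C b := by
    rw [C_sub, C_pow, C_mul]
    rfl
  have hder : derivative (X ^ 2 + C a * X + C b : L[X]) = 2 * X + C a := by
    simp only [derivative_add, derivative_X_pow, derivative_mul, derivative_C, derivative_X]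
    norm_num
    rfl
  refine ⟨-4 * C (a ^ 2 - 4 * b)⁻¹, C (a ^ 2 - 4 * b)⁻¹ * (2 * X + C a), ?_⟩
  rw [hder]
  linear_combination hu - C (a ^ 2 - 4 * b)⁻¹ * hw

private lemma nrm_coprime (a : L) {b : L} (hb : b ≠ 0) : IsCoprime (X : L[X]) (X ^ 2 + C a * X + C b) := by
  have hv : (C b * C b⁻¹ : L[X]) = 1 := by
    rw [← C_mul, mul_inv_cancel₀ hb, C_1]
  refine ⟨-(C b⁻¹ * (X + C a)), C b⁻¹, ?_⟩
  linear_combination hv

/-- (as in Xs/Bra: `x` and `quad` are coprime as `b ≠ 0`, and `quad' = 2 x + a`, `4 quad = (2 x + a) ^ 2 - disc`) -/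
theorem isBranch_surf (h2 : (2 : k) ≠ 0) {a b : k[X]} (hb : b ≠ 0) (hd : disc a b ≠ 0) :
    IsBranch 2 F L (surf a b) := by
  have hm : (X ^ 2 + C a * X + C b : k[X][X]).Monic := by monicity!
  have hn : (X ^ 2 + C a * X + C b : k[X][X]).natDegree = 2 := by compute_degree!
  have hinj := IsFractionRing.injective F[X] L
  have haF : ∀ c : k[X], c ≠ 0 → algebraMap F[X] L (aF F c) ≠ 0 := by
    intro c hc
    refine (map_ne_zero_iff _ hinj).2 ?_
    unfold aF
    exact (Polynomial.map_ne_zero_iff (algebraMap k F).injective).2 hc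
  refine ⟨monic_X.mul hm, ?_, ?_⟩
  · have h3 : (surf a b).natDegree = 3 := by
      unfold surf
      rw [monic_X.natDegree_mul hm, natDegree_X, hn]
    rw [h3]
    norm_num
  · rw [poly_surf]
    refine separable_X.mul ?_ (nrm_coprime _ (haF b hb))
    refine nrm_separable ?_
    have h4 := haF _ hd
    rw [aF_disc, map_sub, map_pow, map_mul, map_ofNat] at h4
    exact h4

end

end Pool.Agent.Lib.MP_89bcae_ag.Xe
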