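import Mathlib
import Pool.Agent.Lib.MP_89bcae_ag.Xe.Defs
import Pool.Agent.Lib.MP_89bcae_ag.Xe.Nrm
import Pool.Agent.Lib.MP_89bcae_ag.Xs.Ord

/-!
# The quadratic extension and the element `q`
-/

open Polynomial IsDedekindDomain

open scoped Classical

namespace Pool.Agent.Lib.MP_89bcae_ag.Xe

open Pool.Agent.Lib.MP_89bcae_ag.Ze

open Pool.Agent.Lib.MP_89bcae_ag.Xs (ord aF Cst)

section

variable {L : Type} [Field L]

private lemma qd_monic {P : L[X]} {α β : L} (hP : P = X ^ 2 + C α * X + C β) : P.Monic := by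
  subst hP
  monicity!

private lemma qd_natDegree {P : L[X]} {α β : L} (hP : P = X ^ 2 + C α * X + C β) : P.natDegree = 2 := by
  subst hP
  compute_degree!

private lemma qd_root {P : L[X]} {α β : L} (hP : P = X ^ 2 + C α * X + C β) :
    AdjoinRoot.root P ^ 2 + AdjoinRoot.of P α * AdjoinRoot.root P + AdjoinRoot.of P β = 0 := by
  subst hP
  have h := AdjoinRoot.eval₂_root (X ^ 2 + C α * X + C β)
  rwa [eval₂_add, eval₂_add, eval₂_mul, eval₂_pow, eval₂_X, eval₂_C, eval₂_C] at h

private lemma qd_rep {P : L[X]} {α β : L} (hP : P = X ^ 2 + C α * X + C β) (w : AdjoinRoot P) :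
    ∃ c d : L, w = AdjoinRoot.of P c + AdjoinRoot.of P d * AdjoinRoot.root P := by
  obtain ⟨A, rfl⟩ := AdjoinRoot.mk_surjective w
  have h1 := modByMonic_add_div A P
  have h2 : AdjoinRoot.mk P A = AdjoinRoot.mk P (A %ₘ P) := by
    conv_lhs => rw [← h1]
    rw [map_add, map_mul, AdjoinRoot.mk_self, zero_mul, add_zero]
  have hne : P ≠ 1 := by
    intro h
    have h3 := qd_natDegree hP
    rw [h, natDegree_one] at h3
    omega
  have h5 : (A %ₘ P).degree ≤ 1 := by
    have h4 := natDegree_modByMonic_lt A (qd_monic hP) hne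
    rw [qd_natDegree hP] at h4
    have h6 : (A %ₘ P).natDegree ≤ 1 := by omega
    exact_mod_cast degree_le_of_natDegree_le h6
  refine ⟨(A %ₘ P).coeff 0, (A %ₘ P).coeff 1, ?_⟩
  rw [h2]
  conv_lhs => rw [eq_X_add_C_of_degree_le_one h5]
  rw [map_add, map_mul, AdjoinRoot.mk_X, AdjoinRoot.mk_C, AdjoinRoot.mk_C]
  exact add_comm _ _

private lemma qd_indep {P : L[X]} {α β : L} (hP : P = X ^ 2 + C α * X + C β) {c d c' d' : L}
    (h : AdjoinRoot.of P c + AdjoinRoot.of P d * AdjoinRoot.root P =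
      AdjoinRoot.of P c' + AdjoinRoot.of P d' * AdjoinRoot.root P) : c = c' ∧ d = d' := by
  rw [← AdjoinRoot.mk_C, ← AdjoinRoot.mk_C, ← AdjoinRoot.mk_C, ← AdjoinRoot.mk_C, ← AdjoinRoot.mk_X, ← map_mul, ← map_add,
    ← map_mul, ← map_add, AdjoinRoot.mk_eq_mk] at h
  have h1 : (C c + C d * X - (C c' + C d' * X) : L[X]) = C (d - d') * X + C (c - c') := by
    rw [C_sub, C_sub]
    ring
  rw [h1] at h
  have h2 : (C (d - d') * X + C (c - c') : L[X]) = 0 := by
    by_contra hne
    have h3 := degree_le_of_dvd h hne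
    rw [degree_eq_natDegree (qd_monic hP).ne_zero, qd_natDegree hP] at h3
    have h4 := degree_linear_le (a := d - d') (b := c - c')
    exact absurd (h3.trans h4) (by decide)
  have h5 := congrArg (fun p : L[X] => p.coeff 0) h2
  have h6 := congrArg (fun p : L[X] => p.coeff 1) h2
  simp at h5 h6
  exact ⟨sub_eq_zero.1 h5, sub_eq_zero.1 h6⟩

private lemma qd_norm {P : L[X]} {α β : L} (hP : P = X ^ 2 + C α * X + C β) (c d : L) :
    Algebra.norm L (AdjoinRoot.of P c + AdjoinRoot.of P d * AdjoinRoot.root P) = c ^ 2 - α * c * d + β * d ^ 2 := by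
  have hdim : (AdjoinRoot.powerBasis' (qd_monic hP)).dim = 2 := by
    rw [AdjoinRoot.powerBasis'_dim, qd_natDegree hP]
  let bs := (AdjoinRoot.powerBasis' (qd_monic hP)).basis.reindex (finCongr hdim)
  have b0 : bs 0 = 1 := by
    show ((AdjoinRoot.powerBasis' (qd_monic hP)).basis.reindex (finCongr hdim)) 0 = 1
    rw [Module.Basis.reindex_apply, PowerBasis.basis_eq_pow]
    simp
  have b1 : bs 1 = AdjoinRoot.root P := by
    show ((AdjoinRoot.powerBasis' (qd_monic hP)).basis.reindex (finCongr hdim)) 1 = _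
    rw [Module.Basis.reindex_apply, PowerBasis.basis_eq_pow]
    simp
  have hsm : ∀ (x : L) (z : AdjoinRoot P), x • z = AdjoinRoot.of P x * z :=
    fun x z => Algebra.smul_def x z
  have hroot := qd_root hP
  have e0 : (AdjoinRoot.of P c + AdjoinRoot.of P d * AdjoinRoot.root P) * bs 0 = c • bs 0 + d • bs 1 := by
    rw [b0, b1, hsm, hsm, mul_one, mul_one]
  have e1 : (AdjoinRoot.of P c + AdjoinRoot.of P d * AdjoinRoot.root P) * bs 1 =
      (-(β * d)) • bs 0 + (c - α * d) • bs 1 := by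
    rw [b0, b1, hsm, hsm, map_neg, map_mul, map_sub, map_mul]
    linear_combination AdjoinRoot.of P d * hroot
  rw [Algebra.norm_eq_matrix_det bs, Matrix.det_fin_two, Algebra.leftMulMatrix_eq_repr_mul,
    Algebra.leftMulMatrix_eq_repr_mul, Algebra.leftMulMatrix_eq_repr_mul, Algebra.leftMulMatrix_eq_repr_mul, e0, e1]
  simp
  ring

end

section

variable {k F L : Type} [Field k] [Field F] [Algebra k F] [Field L] [Algebra F[X] L] [IsFractionRing F[X] L]

/-- (the order of `disc` at one of its roots is `1`; Xs.ord_pow, Xs.ord_algebraMap) -/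
lemma disc_ne_sq [IsAlgClosed F] {a b : k[X]} (hs : (disc a b).Separable) (hd : (disc a b).natDegree ≠ 0) (y : L) :
    y ^ 2 ≠ algebraMap F[X] L (aF F (disc a b)) := by
  intro h
  have hsep : (aF F (disc a b)).Separable := hs.map
  have hdeg : (aF F (disc a b)).natDegree ≠ 0 := by
    unfold aF
    rwa [natDegree_map]
  have hne : aF F (disc a b) ≠ 0 := fun h0 => hdeg (by rw [h0, natDegree_zero])
  obtain ⟨r, hr⟩ := IsAlgClosed.exists_root (aF F (disc a b)) (fun h0 => hdeg (natDegree_eq_of_degree_eq_some h0))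
  have h1 : (aF F (disc a b)).rootMultiplicity r = 1 := by
    have h2 := rootMultiplicity_le_one_of_separable hsep r
    have h3 := (rootMultiplicity_pos hne).2 hr
    omega
  have h4 := congrArg (ord r) h
  rw [Xs.ord_pow, Xs.ord_algebraMap r hne, h1] at h4
  push_cast at h4
  omega

theorem irreducible_quad [IsAlgClosed F] (h2 : (2 : k) ≠ 0) {a b : k[X]} (hs : (disc a b).Separable)
    (hd : (disc a b).natDegree ≠ 0) : Irreducible (quad F L a b) := by
  refine irreducible_of_degree_le_three_of_not_isRoot (by rw [quad_natDegree]; decide) ?_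
  intro x hx
  refine disc_ne_sq (F := F) (L := L) hs hd (2 * x + algebraMap F[X] L (aF F a)) ?_
  have h1 : x ^ 2 + algebraMap F[X] L (aF F a) * x + algebraMap F[X] L (aF F b) = 0 := by
    have h3 : (quad F L a b).eval x = 0 := hx
    unfold quad at h3
    rwa [eval_add, eval_add, eval_mul, eval_pow, eval_X, eval_C, eval_C] at h3
  rw [aF_disc, map_sub, map_pow, map_mul, map_ofNat]
  linear_combination 4 * h1

/-- `disc` is a square in the extension: `(2 x + a) ^ 2`. -/
lemma disc_sq (a b : k[X]) : AdjoinRoot.of (quad F L a b) (algebraMap F[X] L (aF F (disc a b))) =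
    (2 * AdjoinRoot.root (quad F L a b) + AdjoinRoot.of (quad F L a b) (algebraMap F[X] L (aF F a))) ^ 2 := by
  have h := qd_root (P := quad F L a b) rfl
  rw [aF_disc, map_sub, map_pow, map_mul, map_ofNat, map_sub, map_pow, map_mul, map_ofNat]
  linear_combination (-4) * h

/-- Let `r ^ 2` be the norm of `w = pi0 u`, `q = Tr(w) + 2 r`: `(w + r) ^ 2 = w q`; if `q = 0` then `w = - r`. -/
theorem exists_q {a b : k[X]} (hirr : Irreducible (quad F L a b)) {u : (AdjoinRoot (poly F L (surf a b)))ˣ}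
    (hn : ∃ v : L, Algebra.norm L (u : AdjoinRoot (poly F L (surf a b))) = v ^ 2)
    (h1 : ∃ y : L, pi1 F L a b u = y ^ 2) : ∃ q : L, IsQ F L a b u q := by
  have : Fact (Irreducible (quad F L a b)) := ⟨hirr⟩
  obtain ⟨v, hv⟩ := hn
  obtain ⟨y, hy⟩ := h1
  have hy0 : y ≠ 0 := by
    rintro rfl
    have h2 : pi1 F L a b (u : AdjoinRoot (poly F L (surf a b))) ≠ 0 := (u.isUnit.map (pi1 F L a b)).ne_zero
    apply h2
    rw [hy]
    ring
  have hw0 : pi0 F L a b (u : AdjoinRoot (poly F L (surf a b))) ≠ 0 := (u.isUnit.map (pi0 F L a b)).ne_zero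
  rw [norm_eq, hy] at hv
  have hr : Algebra.norm L (pi0 F L a b (u : AdjoinRoot (poly F L (surf a b)))) = (v / y) ^ 2 := by
    rw [div_pow, eq_div_iff (pow_ne_zero 2 hy0), mul_comm]
    exact hv
  obtain ⟨c, d, hcd⟩ := qd_rep (P := quad F L a b) rfl (pi0 F L a b (u : AdjoinRoot (poly F L (surf a b))))
  have hnm := qd_norm (P := quad F L a b) rfl c d
  rw [← hcd] at hnm
  have hroot := qd_root (P := quad F L a b) rfl
  rw [hr] at hnm
  have hnm' := congrArg (AdjoinRoot.of (quad F L a b)) hnm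
  simp only [map_pow, map_add, map_sub, map_mul] at hnm'
  have key : (pi0 F L a b (u : AdjoinRoot (poly F L (surf a b))) + AdjoinRoot.of (quad F L a b) (v / y)) ^ 2 =
      pi0 F L a b (u : AdjoinRoot (poly F L (surf a b))) *
        AdjoinRoot.of (quad F L a b) (2 * c - algebraMap F[X] L (aF F a) * d + 2 * (v / y)) := by
    simp only [map_add, map_sub, map_mul, map_ofNat]
    rw [hcd]
    linear_combination ((AdjoinRoot.of (quad F L a b) d) ^ 2) * hroot + hnm'
  by_cases hq : 2 * c - algebraMap F[X] L (aF F a) * d + 2 * (v / y) = 0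
  · rw [hq, map_zero, mul_zero] at key
    have h3 := pow_eq_zero_iff (two_ne_zero) |>.1 key
    have h4 : pi0 F L a b (u : AdjoinRoot (poly F L (surf a b))) = AdjoinRoot.of (quad F L a b) (-(v / y)) := by
      rw [map_neg]
      exact eq_neg_of_add_eq_zero_left h3
    refine ⟨-(v / y), ?_, 1, ?_⟩
    · intro h5
      rw [h5, map_zero] at h4
      exact hw0 h4
    · rw [one_pow, mul_one]
      exact h4
  · refine ⟨2 * c - algebraMap F[X] L (aF F a) * d + 2 * (v / y), hq,
      (pi0 F L a b (u : AdjoinRoot (poly F L (surf a b))) + AdjoinRoot.of (quad F L a b) (v / y)) /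
        AdjoinRoot.of (quad F L a b) (2 * c - algebraMap F[X] L (aF F a) * d + 2 * (v / y)), ?_⟩
    have h5 : AdjoinRoot.of (quad F L a b) (2 * c - algebraMap F[X] L (aF F a) * d + 2 * (v / y)) ≠ 0 := by
      rw [Ne, map_eq_zero]
      exact hq
    rw [div_pow, key, eq_comm, mul_div_assoc', div_eq_iff (pow_ne_zero 2 h5)]
    ring

/-- `(c + d (2 x + a)) ^ 2` is in `L` only if `c = 0` or `d = 0`. -/
theorem unique_q (h2 : (2 : k) ≠ 0) {a b : k[X]} (hirr : Irreducible (quad F L a b))
    {u : (AdjoinRoot (poly F L (surf a b)))ˣ} {q q' : L} (h : IsQ F L a b u q) (h' : IsQ F L a b u q') :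
    ∃ y : L, y ≠ 0 ∧ (q' = q * y ^ 2 ∨ q' = q * algebraMap F[X] L (aF F (disc a b)) * y ^ 2) := by
  have : Fact (Irreducible (quad F L a b)) := ⟨hirr⟩
  obtain ⟨hq, v, hv⟩ := h
  obtain ⟨hq', v', hv'⟩ := h'
  have hw0 : pi0 F L a b (u : AdjoinRoot (poly F L (surf a b))) ≠ 0 := (u.isUnit.map (pi0 F L a b)).ne_zero
  have hv0 : v ≠ 0 := by
    rintro rfl
    exact hw0 (by rw [hv]; simp)
  have hv'0 : v' ≠ 0 := by
    rintro rfl
    exact hw0 (by rw [hv']; simp)
  have h2L : (2 : L) ≠ 0 := by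
    have h3 : (2 : L) = algebraMap F[X] L (C (algebraMap k F 2)) := by
      rw [map_ofNat, map_ofNat, map_ofNat]
    rw [h3, Ne, FaithfulSMul.algebraMap_eq_zero_iff, C_eq_zero, map_eq_zero]
    exact h2
  obtain ⟨c, d, hcd⟩ := qd_rep (P := quad F L a b) rfl (v / v')
  have hroot := qd_root (P := quad F L a b) rfl
  have h4 : AdjoinRoot.of (quad F L a b) q' = AdjoinRoot.of (quad F L a b) q * (v / v') ^ 2 := by
    rw [div_pow, mul_div_assoc', eq_div_iff (pow_ne_zero 2 hv'0), ← hv, ← hv']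
  rw [hcd] at h4
  have h5 : AdjoinRoot.of (quad F L a b) q' + AdjoinRoot.of (quad F L a b) 0 * AdjoinRoot.root (quad F L a b) =
      AdjoinRoot.of (quad F L a b) (q * (c ^ 2 - algebraMap F[X] L (aF F b) * d ^ 2)) +
      AdjoinRoot.of (quad F L a b) (q * (d * (2 * c - algebraMap F[X] L (aF F a) * d))) *
        AdjoinRoot.root (quad F L a b) := by
    rw [h4]
    simp only [map_sub, map_mul, map_ofNat, map_pow, map_zero]
    linear_combination (AdjoinRoot.of (quad F L a b) q * (AdjoinRoot.of (quad F L a b) d) ^ 2) * hroot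
  obtain ⟨h6, h7⟩ := qd_indep (P := quad F L a b) rfl h5
  have h8 : d * (2 * c - algebraMap F[X] L (aF F a) * d) = 0 := by
    rcases mul_eq_zero.1 h7.symm with h | h
    · exact absurd h hq
    · exact h
  rcases mul_eq_zero.1 h8 with h9 | h9
  · subst h9
    refine ⟨c, ?_, Or.inl ?_⟩
    · rintro rfl
      apply hq'
      rw [h6]
      ring
    · rw [h6]
      ring
  · have h10 : c = algebraMap F[X] L (aF F a) * d / 2 := by
      rw [eq_div_iff h2L]
      linear_combination h9
    refine ⟨d / 2, ?_, Or.inr ?_⟩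
    · intro h11
      have h12 : d = 0 := by
        rcases div_eq_zero_iff.1 h11 with h | h
        · exact h
        · exact absurd h h2L
      apply hq'
      rw [h6, h10, h12]
      ring
    · rw [h6, h10, aF_disc, map_sub, map_pow, map_mul, map_ofNat]
      field_simp
      ring

lemma IsQ.mul {a b : k[X]} {u u' : AdjoinRoot (poly F L (surf a b))} {q q' : L} (h : IsQ F L a b u q)
    (h' : IsQ F L a b u' q') : IsQ F L a b (u * u') (q * q') := by
  obtain ⟨hq, v, hv⟩ := h
  obtain ⟨hq', v', hv'⟩ := h'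
  refine ⟨mul_ne_zero hq hq', v * v', ?_⟩
  rw [map_mul, map_mul, hv, hv']
  ring

lemma isQ_sq {a b : k[X]} (v : (AdjoinRoot (poly F L (surf a b)))ˣ) :
    IsQ F L a b ((v ^ 2 : (AdjoinRoot (poly F L (surf a b)))ˣ) : AdjoinRoot (poly F L (surf a b))) 1 := by
  refine ⟨one_ne_zero, pi0 F L a b v, ?_⟩
  rw [map_one, one_mul, Units.val_pow_eq_pow_val, map_pow]

end

end Pool.Agent.Lib.MP_89bcae_ag.Xe
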