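import Mathlib
import Pool.Agent.Lib.MP_89bcae_ag.Xe.DefsM

/-!
# The two homomorphisms on a lattice
-/

open scoped Classical

namespace Pool.Agent.Lib.MP_89bcae_ag.Xe

section

variable {W A B H : Type} [CommGroup W] [AddCommGroup A] [AddCommGroup B] [AddCommGroup H]

/-- The data on a group `W` of units: `α` is a homomorphism, `β` is a homomorphism on its kernel in `U`. -/
structure TwoMaps (U V N : Subgroup W) (α : W → A) (β : W → B) (PX : A → Prop) (PY : B → Prop) : Prop where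
  le : V ≤ N
  le' : N ≤ U
  mulα : ∀ u v, α (u * v) = α u + α v
  mulβ : ∀ u ∈ U, α u = 0 → ∀ v ∈ U, α v = 0 → β (u * v) = β u + β v
  kerβ : ∀ u ∈ U, α u = 0 → β u = 0 → u ∈ V
  αN : (∀ u ∈ N, α u = 0) ∨ ∀ y, (∃ u ∈ N, α u = y) ↔ PX y
  αV : (∀ u ∈ V, α u = 0) ∨ ∀ y, (∃ u ∈ V, α u = y) ↔ PX y
  αU : ∀ u ∈ U, PX (α u)
  βN : (∀ u ∈ N, α u = 0 → β u = 0) ∨ ∀ y, (∃ u ∈ N, α u = 0 ∧ β u = y) ↔ PY y
  βV : (∀ u ∈ V, α u = 0 → β u = 0) ∨ ∀ y, (∃ u ∈ V, α u = 0 ∧ β u = y) ↔ PY y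
  βU : ∀ u ∈ U, α u = 0 → PY (β u)

variable {U V N : Subgroup W} {α : W → A} {β : W → B} {PX : A → Prop} {PY : B → Prop}

namespace TwoMaps

lemma α_one (h : TwoMaps U V N α β PX PY) : α 1 = 0 := by
  have h1 := h.mulα 1 1
  rw [mul_one] at h1
  exact left_eq_add.1 h1

lemma α_inv (h : TwoMaps U V N α β PX PY) (u : W) : α u⁻¹ = -α u := by
  have h1 := h.mulα u⁻¹ u
  rw [inv_mul_cancel, h.α_one] at h1
  exact eq_neg_of_add_eq_zero_left h1.symm

lemma α_div (h : TwoMaps U V N α β PX PY) (u v : W) : α (u / v) = α u - α v := by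
  rw [div_eq_mul_inv, h.mulα, h.α_inv, sub_eq_add_neg]

lemma β_one (h : TwoMaps U V N α β PX PY) : β 1 = 0 := by
  have h1 := h.mulβ 1 U.one_mem h.α_one 1 U.one_mem h.α_one
  rw [mul_one] at h1
  exact left_eq_add.1 h1

lemma β_div (h : TwoMaps U V N α β PX PY) {u v : W} (hu : u ∈ U) (hu' : α u = 0) (hv : v ∈ U) (hv' : α v = 0) :
    β (u / v) = β u - β v := by
  have h1 := h.mulβ (u / v) (U.div_mem hu hv) (by rw [h.α_div, hu', hv', sub_zero]) v hv hv'
  rw [div_mul_cancel] at h1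
  rw [h1, add_sub_cancel_right]

/-- The map to `A`, made trivial on `V`. -/
noncomputable def α' (V : Subgroup W) (α : W → A) (u : W) : A := if ∀ v ∈ V, α v = 0 then α u else 0

/-- There is an element of `V` which moves an element of the kernel of `α'` into the kernel of `α`. -/
lemma exists_mul (h : TwoMaps U V N α β PX PY) {u : W} (hu : u ∈ N) (hu' : α' V α u = 0) :
    ∃ v ∈ V, α (u * v) = 0 := by
  unfold α' at hu'
  split_ifs at hu' with hV
  · exact ⟨1, V.one_mem, by rw [mul_one, hu']⟩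
  · obtain ⟨v, hv, hv'⟩ := ((h.αV.resolve_left hV) (α u)).2 (h.αU u (h.le' hu))
    exact ⟨v⁻¹, V.inv_mem hv, by rw [h.mulα, h.α_inv, hv', add_neg_cancel]⟩

lemma α'_mul (h : TwoMaps U V N α β PX PY) (u v : W) : α' V α (u * v) = α' V α u + α' V α v := by
  unfold α'
  split_ifs with hV
  · exact h.mulα u v
  · rw [add_zero]

lemma α'_V (v : W) (hv : v ∈ V) : α' V α v = 0 := by
  unfold α'
  split_ifs with hV
  · exact hV v hv
  · rfl

/-- The map to `B`, made trivial on `V`. -/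
noncomputable def β' (V : Subgroup W) (α : W → A) (β : W → B) (u : W) : B :=
  if hV : (∀ v ∈ V, α v = 0 → β v = 0) ∧ ∃ v ∈ V, α (u * v) = 0 then β (u * hV.2.choose) else 0

lemma β'_eq (h : TwoMaps U V N α β PX PY) (hV : ∀ v ∈ V, α v = 0 → β v = 0) {u v : W} (hu : u ∈ N) (hv : v ∈ V)
    (huv : α (u * v) = 0) : β' V α β u = β (u * v) := by
  unfold β'
  have h1 : (∀ v ∈ V, α v = 0 → β v = 0) ∧ ∃ v ∈ V, α (u * v) = 0 := ⟨hV, v, hv, huv⟩
  rw [dif_pos h1]
  have h2 := h1.2.choose_spec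
  have h3 : ∀ w ∈ V, u * w ∈ U := fun w hw => h.le' (N.mul_mem hu (h.le hw))
  have h4 := h.β_div (h3 _ h2.1) h2.2 (h3 v hv) huv
  have h5 : u * h1.2.choose / (u * v) = h1.2.choose / v := by
    rw [mul_div_mul_left_eq_div]
  rw [h5, hV _ (V.div_mem h2.1 hv) (by rw [← h5, h.α_div, h2.2, huv, sub_zero])] at h4
  exact (sub_eq_zero.1 h4.symm)

lemma β'_eq_zero (hV : ¬ ∀ v ∈ V, α v = 0 → β v = 0) (u : W) : β' V α β u = 0 := by
  unfold β'
  rw [dif_neg fun h1 => hV h1.1]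

lemma β'_mul (h : TwoMaps U V N α β PX PY) {u u' : W} (hu : u ∈ N) (hu1 : α' V α u = 0) (hu' : u' ∈ N)
    (hu1' : α' V α u' = 0) : β' V α β (u * u') = β' V α β u + β' V α β u' := by
  by_cases hV : ∀ v ∈ V, α v = 0 → β v = 0
  · obtain ⟨v, hv, hv'⟩ := h.exists_mul hu hu1
    obtain ⟨w, hw, hw'⟩ := h.exists_mul hu' hu1'
    have h2 : u * u' * (v * w) = u * v * (u' * w) := by
      rw [mul_mul_mul_comm]
    rw [h.β'_eq hV (N.mul_mem hu hu') (V.mul_mem hv hw) (by rw [h2, h.mulα, hv', hw', add_zero]), h.β'_eq hV hu hv hv',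
      h.β'_eq hV hu' hw hw', h2]
    exact h.mulβ _ (h.le' (N.mul_mem hu (h.le hv))) hv' _ (h.le' (N.mul_mem hu' (h.le hw))) hw'
  · rw [β'_eq_zero hV, β'_eq_zero hV, β'_eq_zero hV, add_zero]

lemma β'_V (h : TwoMaps U V N α β PX PY) {v : W} (hv : v ∈ V) : β' V α β v = 0 := by
  by_cases hV : ∀ v ∈ V, α v = 0 → β v = 0
  · rw [h.β'_eq hV (h.le hv) (V.inv_mem hv) (by rw [mul_inv_cancel, h.α_one]), mul_inv_cancel, h.β_one]
  · exact β'_eq_zero hV v

lemma mem_of_β' (h : TwoMaps U V N α β PX PY) {u : W} (hu : u ∈ N) (hu' : α' V α u = 0) (hu2 : β' V α β u = 0) :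
    u ∈ V := by
  obtain ⟨v, hv, hv'⟩ := h.exists_mul hu hu'
  have h3 : u * v ∈ U := h.le' (N.mul_mem hu (h.le hv))
  by_cases hV : ∀ v ∈ V, α v = 0 → β v = 0
  · rw [h.β'_eq hV hu hv hv'] at hu2
    have h4 := V.mul_mem (h.kerβ _ h3 hv' hu2) (V.inv_mem hv)
    rwa [mul_inv_cancel_right] at h4
  · obtain ⟨w, hw, hw', hw2⟩ := ((h.βV.resolve_left hV) (β (u * v))).2 (h.βU _ h3 hv')
    have hwU : w ∈ U := h.le' (h.le hw)
    have h4 := h.kerβ (u * v / w) (U.div_mem h3 hwU) (by rw [h.α_div, hv', hw', sub_zero])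
      (by rw [h.β_div h3 hv' hwU hw', hw2, sub_self])
    have h5 := V.mul_mem (V.mul_mem h4 hw) (V.inv_mem hv)
    rwa [div_mul_cancel, mul_inv_cancel_right] at h5

variable {th : H → W}

/-- The homomorphism `dX`. -/
noncomputable def dX (h : TwoMaps U V N α β PX PY) (hadd : ∀ v w, th (v + w) / (th v * th w) ∈ V) : H →+ A :=
  AddMonoidHom.mk' (fun v => α' V α (th v)) fun v w => by
    have h1 := h.α'_mul (th (v + w) / (th v * th w)) (th v * th w)
    rw [div_mul_cancel, α'_V _ (hadd v w), zero_add, h.α'_mul] at h1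
    exact h1

lemma dX_apply (h : TwoMaps U V N α β PX PY) (hadd : ∀ v w, th (v + w) / (th v * th w) ∈ V) (v : H) :
    h.dX hadd v = α' V α (th v) := rfl

/-- The homomorphism `dY`. -/
noncomputable def dY (h : TwoMaps U V N α β PX PY) (hadd : ∀ v w, th (v + w) / (th v * th w) ∈ V)
    (hN : ∀ v, th v ∈ N) : (h.dX hadd).ker →+ B :=
  AddMonoidHom.mk' (fun v => β' V α β (th v)) fun v w => by
    have hv : α' V α (th v) = 0 := v.2
    have hw : α' V α (th w) = 0 := w.2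
    have h1 := h.β'_mul (u := th (v + w) / (th v * th w)) (u' := th v * th w) (h.le (hadd v w)) (α'_V _ (hadd v w))
      (N.mul_mem (hN v) (hN w)) (by rw [h.α'_mul, hv, hw, add_zero])
    rw [div_mul_cancel, h.β'_V (hadd v w), zero_add, h.β'_mul (hN v) hv (hN w) hw] at h1
    exact h1

lemma dY_apply (h : TwoMaps U V N α β PX PY) (hadd : ∀ v w, th (v + w) / (th v * th w) ∈ V)
    (hN : ∀ v, th v ∈ N) (v : (h.dX hadd).ker) : h.dY hadd hN v = β' V α β (th v) := rfl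

lemma ranX (h : TwoMaps U V N α β PX PY) (hadd : ∀ v w, th (v + w) / (th v * th w) ∈ V) (hN : ∀ v, th v ∈ N)
    (hth : ∀ u ∈ N, ∃ v, u / th v ∈ V) :
    (∀ v, h.dX hadd v = 0) ∨ ∀ y, (∃ v, h.dX hadd v = y) ↔ PX y := by
  by_cases hV : ∀ v ∈ V, α v = 0
  · have h0 : ∀ v, h.dX hadd v = α (th v) := by
      intro v
      rw [dX_apply]
      unfold α'
      rw [if_pos hV]
    rcases h.αN with h1 | h1
    · left
      intro v
      rw [h0, h1 _ (hN v)]
    · right
      intro y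
      rw [← h1]
      constructor
      · rintro ⟨v, rfl⟩
        exact ⟨th v, hN v, (h0 v).symm⟩
      · rintro ⟨u, hu, rfl⟩
        obtain ⟨v, hv⟩ := hth u hu
        refine ⟨v, ?_⟩
        have h2 := hV _ hv
        rw [h.α_div] at h2
        rw [h0, ← sub_eq_zero.1 h2]
  · left
    intro v
    rw [dX_apply]
    unfold α'
    rw [if_neg hV]

lemma ranY (h : TwoMaps U V N α β PX PY) (hadd : ∀ v w, th (v + w) / (th v * th w) ∈ V) (hN : ∀ v, th v ∈ N)
    (hth : ∀ u ∈ N, ∃ v, u / th v ∈ V) :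
    (∀ v, h.dY hadd hN v = 0) ∨ ∀ y, (∃ v, h.dY hadd hN v = y) ↔ PY y := by
  by_cases hV : ∀ v ∈ V, α v = 0 → β v = 0
  · have h0 : ∀ v : (h.dX hadd).ker, ∃ w ∈ V, th v * w ∈ N ∧ α (th v * w) = 0 ∧ h.dY hadd hN v = β (th v * w) := by
      intro v
      obtain ⟨w, hw, hw'⟩ := h.exists_mul (hN v) v.2
      exact ⟨w, hw, N.mul_mem (hN v) (h.le hw), hw', by rw [dY_apply, h.β'_eq hV (hN v) hw hw']⟩
    rcases h.βN with h1 | h1
    · left
      intro v
      obtain ⟨w, hw, hw1, hw2, hw3⟩ := h0 v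
      rw [hw3, h1 _ hw1 hw2]
    · right
      intro y
      rw [← h1]
      constructor
      · rintro ⟨v, rfl⟩
        obtain ⟨w, hw, hw1, hw2, hw3⟩ := h0 v
        exact ⟨_, hw1, hw2, hw3.symm⟩
      · rintro ⟨u, hu, hu', rfl⟩
        obtain ⟨v, hv⟩ := hth u hu
        have h3 : th v * (u / th v) = u := mul_div_cancel (th v) u
        have h4 : α' V α (th v) = 0 := by
          have h5 := h.α'_mul (th v) (u / th v)
          rw [h3, α'_V _ hv, add_zero] at h5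
          rw [← h5]
          unfold α'
          split_ifs
          · exact hu'
          · rfl
        refine ⟨⟨v, h4⟩, ?_⟩
        rw [dY_apply]
        have h6 := h.β'_eq hV (hN v) hv (by rw [h3, hu'])
        rw [h3] at h6
        exact h6
  · left
    intro v
    rw [dY_apply, β'_eq_zero hV]

lemma kerY (h : TwoMaps U V N α β PX PY) (hadd : ∀ v w, th (v + w) / (th v * th w) ∈ V) (hN : ∀ v, th v ∈ N)
    (v : (h.dX hadd).ker) : h.dY hadd hN v = 0 ↔ th v ∈ V := by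
  constructor
  · intro h1
    exact h.mem_of_β' (hN v) v.2 h1
  · intro h1
    rw [dY_apply, h.β'_V h1]

/-- Equivariance. -/
lemma actX (h : TwoMaps U V N α β PX PY) (hadd : ∀ v w, th (v + w) / (th v * th w) ∈ V) (g : W →* W)
    (t : A → A) (ht : t 0 = 0) (hg : ∀ u, α (g u) = t (α u)) {v v' : H} (hv : g (th v) / th v' ∈ V) :
    h.dX hadd v' = t (h.dX hadd v) := by
  rw [dX_apply, dX_apply]
  have h1 := h.α'_mul (g (th v) / th v') (th v')
  rw [div_mul_cancel, α'_V _ hv, zero_add] at h1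
  rw [← h1]
  unfold α'
  split_ifs
  · exact hg _
  · exact ht.symm

lemma actY (h : TwoMaps U V N α β PX PY) (hadd : ∀ v w, th (v + w) / (th v * th w) ∈ V) (hN : ∀ v, th v ∈ N)
    (g : W →* W) (hgV : ∀ u ∈ V, g u ∈ V) (hg : ∀ u, α u = 0 → α (g u) = 0) (t : B → B) (ht : t 0 = 0)
    (hg' : ∀ u ∈ U, α u = 0 → β (g u) = t (β u)) {v v' : (h.dX hadd).ker} (hv : g (th v) / th v' ∈ V) :
    h.dY hadd hN v' = t (h.dY hadd hN v) := by
  rw [dY_apply, dY_apply]
  by_cases hV : ∀ v ∈ V, α v = 0 → β v = 0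
  · obtain ⟨w, hw, hw'⟩ := h.exists_mul (hN v) v.2
    have h1 : th v' * (g (th v) / th v' * g w) = g (th v * w) := by
      rw [← mul_assoc, mul_div_cancel, map_mul]
    rw [h.β'_eq hV (hN v) hw hw', h.β'_eq hV (hN v') (V.mul_mem hv (hgV w hw)) (by rw [h1]; exact hg _ hw'), h1]
    exact hg' _ (h.le' (N.mul_mem (hN v) (h.le hw))) hw'
  · rw [β'_eq_zero hV, β'_eq_zero hV, ht]

/-- The group `U / V` is finite. -/
theorem relIndex_ne [Finite A] [Finite B] (h : TwoMaps U V N α β PX PY) : V.relIndex U ≠ 0 := by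
  let rep : A → W := fun y => if h : ∃ u ∈ U, α u = y then h.choose else 1
  have hrep : ∀ u ∈ U, rep (α u) ∈ U ∧ α (rep (α u)) = α u := by
    intro u hu
    have h1 : ∃ v ∈ U, α v = α u := ⟨u, hu, rfl⟩
    have h2 : rep (α u) = h1.choose := dif_pos h1
    rw [h2]
    exact h1.choose_spec
  have hf : ∀ u ∈ U, ∀ v ∈ U, α u = α v → β (u / rep (α u)) = β (v / rep (α u)) → u / v ∈ V := by
    intro u hu v hv h1 h2
    have h3 := hrep u hu
    have h4 : ∀ w ∈ U, α w = α u → w / rep (α u) ∈ U ∧ α (w / rep (α u)) = 0 := by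
      intro w hw hw'
      exact ⟨U.div_mem hw h3.1, by rw [h.α_div, h3.2, hw', sub_self]⟩
    have h5 := h4 u hu rfl
    have h6 := h4 v hv h1.symm
    have h7 := h.kerβ _ (U.div_mem h5.1 h6.1) (by rw [h.α_div, h5.2, h6.2, sub_self])
      (by rw [h.β_div h5.1 h5.2 h6.1 h6.2, h2, sub_self])
    rwa [div_div_div_cancel_right] at h7
  have hfin : Finite (U ⧸ V.subgroupOf U) := by
    refine Finite.of_injective
      (fun x : U ⧸ V.subgroupOf U => (α (x.out : U), β (((x.out : U) : W) / rep (α (x.out : U))))) fun x y hxy => ?_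
    have e1 : α (x.out : U) = α (y.out : U) := congrArg Prod.fst hxy
    have e2 : β (((x.out : U) : W) / rep (α (x.out : U))) = β (((y.out : U) : W) / rep (α (y.out : U))) :=
      congrArg Prod.snd hxy
    rw [← e1] at e2
    have h1 := hf _ (x.out : U).2 _ (y.out : U).2 e1 e2
    rw [← x.out_eq', ← y.out_eq', eq_comm]
    refine QuotientGroup.eq.2 ?_
    rw [Subgroup.mem_subgroupOf]
    show ((y.out : U) : W)⁻¹ * ((x.out : U) : W) ∈ V
    rwa [mul_comm, ← div_eq_mul_inv]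
  exact Subgroup.index_ne_zero_of_finite

end TwoMaps

end

end Pool.Agent.Lib.MP_89bcae_ag.Xe
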