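import Mathlib
import Pool.Agent.Lib.MP_89bcae_ag.Xe.Gal
import Pool.Agent.Lib.MP_89bcae_ag.Xe.Two
import Pool.Agent.Lib.MP_89bcae_ag.Xe.Comp
import Pool.Agent.Lib.MP_89bcae_ag.Xe.Quad
import Pool.Agent.Lib.MP_89bcae_ag.Xe.Cht
import Pool.Agent.Lib.MP_89bcae_ag.Xs.Hrt

/-!
# The two groups of parities
-/

open Polynomial IsDedekindDomain

open scoped Classical

namespace Pool.Agent.Lib.MP_89bcae_ag.Xe

open Pool.Agent.Lib.MP_89bcae_ag.Ze

open Pool.Agent.Lib.MP_89bcae_ag.Xs (ord aF Cst ord_mul ord_pow ord_inv ord_one ord_algebraMap)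

lemma cast_eq_zero {m : ℤ} : ((m : ℤ) : ZMod 2) = 0 ↔ Even m := by
  rw [ZMod.intCast_zmod_eq_zero_iff_dvd, even_iff_two_dvd]
  rfl

lemma zmod2 (c : ZMod 2) : c = 0 ∨ c = 1 := by
  revert c
  decide

section

variable {k F L : Type} [Field k] [Field F] [Algebra k F] [Field L] [Algebra F[X] L] [IsFractionRing F[X] L]

/-- The parities of the orders of an element of `L` at the roots of `p`. -/
noncomputable def par (p : k[X]) (q : L) (s : p.rootSet F) : ZMod 2 := ((ord (s : F) q : ℤ) : ZMod 2)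

lemma par_mul (p : k[X]) {q q' : L} (hq : q ≠ 0) (hq' : q' ≠ 0) :
    (par p (q * q') : p.rootSet F → ZMod 2) = par p q + par p q' := by
  funext s
  show ((ord (s : F) (q * q') : ℤ) : ZMod 2) = _
  rw [ord_mul _ hq hq', Int.cast_add]
  rfl

lemma par_sq (p : k[X]) (q : L) : (par p (q ^ 2) : p.rootSet F → ZMod 2) = 0 := by
  funext s
  show ((ord (s : F) (q ^ 2) : ℤ) : ZMod 2) = 0
  rw [ord_pow, cast_eq_zero]
  exact even_two_mul _

lemma ord_root {p : k[X]} (hp : p.Separable) (s : p.rootSet F) :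
    ord (s : F) (algebraMap F[X] L (aF F p)) = 1 := by
  have h0 : aF F p ≠ 0 := by
    unfold aF
    exact (Polynomial.map_ne_zero_iff (algebraMap k F).injective).2 hp.ne_zero
  rw [ord_algebraMap _ h0]
  have h1 : (aF F p).rootMultiplicity (s : F) ≤ 1 := rootMultiplicity_le_one_of_separable (hp.map) _
  have h2 : 0 < (aF F p).rootMultiplicity (s : F) := by
    rw [rootMultiplicity_pos h0]
    have h3 := (mem_rootSet.1 s.2).2
    rw [IsRoot.def]
    unfold aF
    rw [eval_map_algebraMap]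
    exact h3
  have h4 : (aF F p).rootMultiplicity (s : F) = 1 := by omega
  rw [h4]
  rfl

lemma par_root {p : k[X]} (hp : p.Separable) :
    (par p (algebraMap F[X] L (aF F p)) : p.rootSet F → ZMod 2) = 1 := by
  funext s
  show ((ord (s : F) (algebraMap F[X] L (aF F p)) : ℤ) : ZMod 2) = 1
  rw [ord_root hp]
  rfl

lemma root_ne_sq {p : k[X]} [IsAlgClosed F] (hp : p.Separable) (hd : p.natDegree ≠ 0) {y z : L} (hy : y ≠ 0) :
    y ^ 2 * algebraMap F[X] L (aF F p) ≠ z ^ 2 := by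
  intro h
  have hc : Fintype.card (p.rootSet F) ≠ 0 := by
    rw [card_rootSet_eq_natDegree hp (IsAlgClosed.splits _)]
    exact hd
  obtain ⟨s⟩ := Fintype.card_pos_iff.1 (Nat.pos_of_ne_zero hc)
  have h0 : algebraMap F[X] L (aF F p) ≠ 0 := aF_ne_zero hp.ne_zero
  have h1 := congrArg (fun q => (par p q : p.rootSet F → ZMod 2) s) h
  have h2 : (par p (y ^ 2 * algebraMap F[X] L (aF F p)) : p.rootSet F → ZMod 2) s = 1 := by
    rw [par_mul p (pow_ne_zero 2 hy) h0, par_sq, par_root hp]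
    rfl
  have h3 : (par p (z ^ 2) : p.rootSet F → ZMod 2) s = 0 := by
    rw [par_sq]
    rfl
  have h4 : (1 : ZMod 2) = 0 := h2.symm.trans (h1.trans h3)
  exact one_ne_zero h4

/-- All the parities are even. -/
lemma even_of_par {p : k[X]} (hp : p ≠ 0) {q : L} (h : (par p q : p.rootSet F → ZMod 2) = 0)
    (h' : ∀ r : F, (aF F p).eval r ≠ 0 → Even (ord r q)) (r : F) : Even (ord r q) := by
  by_cases hr : (aF F p).eval r = 0
  · have hs : r ∈ p.rootSet F := by
      rw [mem_rootSet]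
      refine ⟨hp, ?_⟩
      unfold aF at hr
      rwa [eval_map_algebraMap] at hr
    exact cast_eq_zero.1 (congrFun h ⟨r, hs⟩)
  · exact h' r hr

lemma pi1_unit_ne_zero (a b : k[X]) (u : (AdjoinRoot (poly F L (surf a b)))ˣ) : pi1 F L a b u ≠ 0 :=
  (u.isUnit.map (pi1 F L a b)).ne_zero

/-! ### The relation between a unit and the elements `q` -/

/-- The component of `u` or of `u T` is `q` times a square, and the other component is a square. -/
def RelQ (a b : k[X]) (T u : (AdjoinRoot (poly F L (surf a b)))ˣ) (q : L) : Prop :=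
  ∃ v, (v = 1 ∨ v = T) ∧ (∃ y, pi1 F L a b ((u * v : (AdjoinRoot (poly F L (surf a b)))ˣ) : AdjoinRoot _) = y ^ 2) ∧
    IsQ F L a b ((u * v : (AdjoinRoot (poly F L (surf a b)))ˣ) : AdjoinRoot _) q

/-- The point of order two. -/
structure IsPt (a b : k[X]) (T : (AdjoinRoot (poly F L (surf a b)))ˣ) : Prop where
  mem : T ∈ points 2 (poly F L (surf a b))
  pi1 : Xe.pi1 F L a b T = algebraMap F[X] L (aF F b)
  pi0 : Xe.pi0 F L a b T = -AdjoinRoot.root (quad F L a b)

variable [IsAlgClosed F]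

/-- The conditions on the polynomials. -/
structure Hyp (F : Type) [Field F] [Algebra k F] (n : ℕ) (a b : k[X]) : Prop where
  two_ne_zero : (2 : k) ≠ 0
  two_le : 2 ≤ n
  natDegree_le : a.natDegree ≤ 2 * n
  natDegree_eq : b.natDegree = 4 * n
  natDegree_disc : (disc a b).natDegree = 4 * n
  sepb : b.Separable
  sepd : (disc a b).Separable

lemma IsGeneral.hyp {n : ℕ} {a b : k[X]} (hE : IsGeneral F n a b) : Hyp F n a b :=
  ⟨hE.two_ne_zero, hE.two_le, hE.natDegree_le, hE.natDegree_eq, hE.natDegree_disc, hE.separable.of_mul_left,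
    hE.separable.of_mul_right⟩

variable {n : ℕ} {a b : k[X]} {T : (AdjoinRoot (poly F L (surf a b)))ˣ}

lemma Hyp.b_ne (h : Hyp F n a b) : b ≠ 0 := h.sepb.ne_zero

lemma Hyp.d_ne (h : Hyp F n a b) : disc a b ≠ 0 := h.sepd.ne_zero

lemma Hyp.b_deg (h : Hyp F n a b) : b.natDegree ≠ 0 := by
  rw [h.natDegree_eq]
  have := h.two_le
  omega

lemma Hyp.d_deg (h : Hyp F n a b) : (disc a b).natDegree ≠ 0 := by
  rw [h.natDegree_disc]
  have := h.two_le
  omega

lemma Hyp.irr (h : Hyp F n a b) : Irreducible (quad F L a b) := irreducible_quad h.two_ne_zero h.sepd h.d_deg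

lemma Hyp.card_b (h : Hyp F n a b) : Fintype.card (b.rootSet F) = 4 * n := by
  rw [← h.natDegree_eq]
  exact card_rootSet_eq_natDegree h.sepb (IsAlgClosed.splits _)

lemma Hyp.card_d (h : Hyp F n a b) : Fintype.card ((disc a b).rootSet F) = 4 * n := by
  rw [← h.natDegree_disc]
  exact card_rootSet_eq_natDegree h.sepd (IsAlgClosed.splits _)

/-- The element `q` is unique, up to a constant. -/
theorem RelQ.unique (h : Hyp F n a b) (hT : IsPt a b T) {u : (AdjoinRoot (poly F L (surf a b)))ˣ} {q q' : L}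
    (hq : RelQ a b T u q) (hq' : RelQ a b T u q') :
    (par (disc a b) q - par (disc a b) q' : (disc a b).rootSet F → ZMod 2) ∈ Cst ((disc a b).rootSet F) := by
  obtain ⟨v, hv, ⟨y, hy⟩, hvq⟩ := hq
  obtain ⟨v', hv', ⟨y', hy'⟩, hvq'⟩ := hq'
  have hd0 : algebraMap F[X] L (aF F (disc a b)) ≠ 0 := aF_ne_zero h.d_ne
  have hne : ∀ w : (AdjoinRoot (poly F L (surf a b)))ˣ, ∀ y z : L,
      pi1 F L a b ((w * 1 : (AdjoinRoot (poly F L (surf a b)))ˣ) : AdjoinRoot _) = y ^ 2 →
      pi1 F L a b ((w * T : (AdjoinRoot (poly F L (surf a b)))ˣ) : AdjoinRoot _) = z ^ 2 → False := by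
    intro w y z h1 h2
    rw [mul_one] at h1
    rw [Units.val_mul, map_mul, hT.pi1, h1] at h2
    refine root_ne_sq h.sepb h.b_deg (y := y) (z := z) ?_ h2
    rintro rfl
    rw [zero_pow two_ne_zero] at h1
    exact pi1_unit_ne_zero a b w h1
  have key : v = v' := by
    rcases hv with rfl | rfl <;> rcases hv' with rfl | rfl
    · rfl
    · exact (hne u y y' hy hy').elim
    · exact (hne u y' y hy' hy).elim
    · rfl
  subst key
  obtain ⟨z, hz, hz' | hz'⟩ := unique_q h.two_ne_zero h.irr hvq hvq'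
  · rw [hz', par_mul _ hvq.1 (pow_ne_zero 2 hz), par_sq, add_zero, sub_self]
    exact (Cst _).zero_mem
  · rw [hz', par_mul _ (mul_ne_zero hvq.1 hd0) (pow_ne_zero 2 hz), par_sq, add_zero, par_mul _ hvq.1 hd0, par_root h.sepd,
      sub_add_cancel_left]
    exact (Cst _).neg_mem ⟨1, fun _ => rfl⟩

lemma pi0_T_ne (h : Hyp F n a b) (hT : IsPt a b T) : AdjoinRoot.root (quad F L a b) ≠ 0 := by
  have := Fact.mk (h.irr (L := L))
  intro h0
  have h1 := (T.isUnit.map (pi0 F L a b)).ne_zero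
  rw [hT.pi0, h0, neg_zero] at h1
  exact h1 rfl

theorem RelQ.mul (h : Hyp F n a b) (hT : IsPt a b T) {u u' : (AdjoinRoot (poly F L (surf a b)))ˣ} {q q' : L}
    (hq : RelQ a b T u q) (hq' : RelQ a b T u' q') : RelQ a b T (u * u') (q * q') := by
  have := Fact.mk (h.irr (L := L))
  obtain ⟨v, hv, ⟨y, hy⟩, hvq⟩ := hq
  obtain ⟨v', hv', ⟨y', hy'⟩, hvq'⟩ := hq'
  have h1 := hvq.mul hvq'
  have h2 : pi1 F L a b ((u * v : (AdjoinRoot (poly F L (surf a b)))ˣ) * (u' * v' : (AdjoinRoot (poly F L (surf a b)))ˣ)) =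
      (y * y') ^ 2 := by
    rw [map_mul, hy, hy', mul_pow]
  by_cases hvv : v = 1 ∨ v' = 1
  · refine ⟨v * v', ?_, ⟨y * y', ?_⟩, ?_⟩
    · rcases hvv with rfl | rfl
      · rwa [one_mul]
      · rwa [mul_one]
    · rw [← h2, ← Units.val_mul, mul_mul_mul_comm]
    · rwa [← Units.val_mul, mul_mul_mul_comm] at h1
  · push Not at hvv
    have hv1 : v = T := hv.resolve_left hvv.1
    have hv2 : v' = T := hv'.resolve_left hvv.2
    subst hv1
    subst hv2
    have hb0 : algebraMap F[X] L (aF F b) ≠ 0 := aF_ne_zero h.b_ne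
    have h3 := pi0_T_ne h hT
    refine ⟨1, Or.inl rfl, ⟨y * y' / algebraMap F[X] L (aF F b), ?_⟩, ?_⟩
    · rw [mul_one, div_pow, ← h2, eq_div_iff (pow_ne_zero 2 hb0)]
      rw [Units.val_mul, Units.val_mul, Units.val_mul, map_mul, map_mul, map_mul, map_mul, hT.pi1]
      ring
    · obtain ⟨hq0, w, hw⟩ := h1
      refine ⟨hq0, w / AdjoinRoot.root (quad F L a b), ?_⟩
      rw [mul_one, div_pow, ← mul_div_assoc, ← hw, eq_div_iff (pow_ne_zero 2 h3)]
      rw [Units.val_mul, Units.val_mul, Units.val_mul, map_mul, map_mul, map_mul, map_mul, hT.pi0]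
      ring

/-- The existence of `q`. -/
theorem exists_relQ (h : Hyp F n a b) (hT : IsPt a b T)
    (hVU : points 2 (poly F L (surf a b)) ≤ unramified 2 F (poly F L (surf a b)))
    {u : (AdjoinRoot (poly F L (surf a b)))ˣ} (hu : u ∈ unramified 2 F (poly F L (surf a b)))
    (hu' : (par b (pi1 F L a b u) : b.rootSet F → ZMod 2) ∈ Cst (b.rootSet F)) : ∃ q, RelQ a b T u q := by
  have hb0 : algebraMap F[X] L (aF F b) ≠ 0 := aF_ne_zero h.b_ne
  obtain ⟨c, hc⟩ := hu'
  have key : ∃ v, (v = 1 ∨ v = T) ∧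
      (par b (pi1 F L a b ((u * v : (AdjoinRoot (poly F L (surf a b)))ˣ) : AdjoinRoot _)) : b.rootSet F → ZMod 2) = 0 := by
    rcases zmod2 c with rfl | rfl
    · refine ⟨1, Or.inl rfl, ?_⟩
      rw [mul_one]
      exact funext hc
    · refine ⟨T, Or.inr rfl, ?_⟩
      rw [Units.val_mul, map_mul, hT.pi1, par_mul _ (pi1_unit_ne_zero a b u) hb0, par_root h.sepb]
      funext s
      show par b (pi1 F L a b u) s + 1 = 0
      rw [hc]
      rfl
  obtain ⟨v, hv, hv'⟩ := key
  have hmem : u * v ∈ unramified 2 F (poly F L (surf a b)) := by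
    refine Subgroup.mul_mem _ hu ?_
    rcases hv with rfl | rfl
    · exact Subgroup.one_mem _
    · exact hVU hT.mem
  obtain ⟨y, hy⟩ := Xs.exists_sq (pi1_unit_ne_zero a b (u * v)) (even_of_par h.b_ne hv' fun r hr => even_pi1 hmem hr)
  obtain ⟨q, hq⟩ := exists_q h.irr hmem.1 ⟨y, hy⟩
  exact ⟨q, v, hv, ⟨y, hy⟩, hq⟩

/-- The kernel of the second map. -/
theorem RelQ.mem_points (h : Hyp F n a b) (hT : IsPt a b T)
    (hVU : points 2 (poly F L (surf a b)) ≤ unramified 2 F (poly F L (surf a b)))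
    {u : (AdjoinRoot (poly F L (surf a b)))ˣ} (hu : u ∈ unramified 2 F (poly F L (surf a b))) {q : L}
    (hq : RelQ a b T u q)
    (hq' : (par (disc a b) q : (disc a b).rootSet F → ZMod 2) ∈ Cst ((disc a b).rootSet F)) :
    u ∈ points 2 (poly F L (surf a b)) := by
  have := Fact.mk (h.irr (L := L))
  have hd0 : algebraMap F[X] L (aF F (disc a b)) ≠ 0 := aF_ne_zero h.d_ne
  obtain ⟨v, hv, ⟨y, hy⟩, hvq⟩ := hq
  have hvV : v ∈ points 2 (poly F L (surf a b)) := by
    rcases hv with rfl | rfl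
    · exact Subgroup.one_mem _
    · exact hT.mem
  have hmem : u * v ∈ unramified 2 F (poly F L (surf a b)) := Subgroup.mul_mem _ hu (hVU hvV)
  have heven : ∀ r : F, (aF F (disc a b)).eval r ≠ 0 → Even (ord r q) := fun r hr =>
    even_q h.two_ne_zero h.irr hmem hvq hr
  have key : ∃ z, pi0 F L a b ((u * v : (AdjoinRoot (poly F L (surf a b)))ˣ) : AdjoinRoot _) = z ^ 2 := by
    obtain ⟨c, hc⟩ := hq'
    obtain ⟨hq0, w, hw⟩ := hvq
    rcases zmod2 c with rfl | rfl
    · obtain ⟨x, hx⟩ := Xs.exists_sq hq0 (even_of_par h.d_ne (funext hc) heven)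
      refine ⟨AdjoinRoot.of _ x * w, ?_⟩
      rw [hw, hx, map_pow, mul_pow]
    · have h1 : (par (disc a b) (q * algebraMap F[X] L (aF F (disc a b))) : (disc a b).rootSet F → ZMod 2) = 0 := by
        rw [par_mul _ hq0 hd0, par_root h.sepd]
        funext s
        show par (disc a b) q s + 1 = 0
        rw [hc]
        rfl
      obtain ⟨x, hx⟩ := Xs.exists_sq (mul_ne_zero hq0 hd0) (even_of_par h.d_ne h1 fun r hr => by
        rw [ord_mul _ hq0 hd0]
        refine (heven r hr).add ?_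
        rw [ord_algebraMap _ (by
          intro h2
          apply hd0
          rw [h2, map_zero])]
        rw [rootMultiplicity_eq_zero hr]
        exact ⟨0, rfl⟩)
      have h2 := disc_sq (F := F) (L := L) a b
      have h3 : AdjoinRoot.of (quad F L a b) (algebraMap F[X] L (aF F (disc a b))) ≠ 0 :=
        (_root_.map_ne_zero _).2 hd0
      have h4 : 2 * AdjoinRoot.root (quad F L a b) + AdjoinRoot.of (quad F L a b) (algebraMap F[X] L (aF F a)) ≠ 0 := by
        intro h5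
        rw [h5, zero_pow two_ne_zero] at h2
        exact h3 h2
      refine ⟨AdjoinRoot.of _ x * w /
        (2 * AdjoinRoot.root (quad F L a b) + AdjoinRoot.of (quad F L a b) (algebraMap F[X] L (aF F a))), ?_⟩
      rw [hw, div_pow, ← h2, eq_div_iff h3, mul_pow, ← map_pow, ← hx, map_mul]
      ring
  obtain ⟨z, hz⟩ := key
  obtain ⟨w, hw⟩ := exists_sq_of h.b_ne hy hz
  have h1 : u * v ∈ points 2 (poly F L (surf a b)) := by
    rw [hw]
    exact Subgroup.subset_closure (Or.inl ⟨w, rfl⟩)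
  have h2 := Subgroup.mul_mem _ h1 (Subgroup.inv_mem _ hvV)
  rwa [mul_inv_cancel_right] at h2

omit [IsAlgClosed F] in
lemma coefAut_T (h : b ≠ 0) (hT : IsPt a b T) (σ : F ≃ₐ[k] F) :
    Units.map ((coefAut (fixed_surf a b) σ : AdjoinRoot (poly F L (surf a b)) ≃+* AdjoinRoot (poly F L (surf a b))) :
      AdjoinRoot (poly F L (surf a b)) →* AdjoinRoot (poly F L (surf a b))) T = T := by
  apply Units.ext
  show coefAut (fixed_surf a b) σ (T : AdjoinRoot (poly F L (surf a b))) = T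
  rw [← sub_eq_zero]
  apply pi_injective h
  · rw [map_sub, pi1_coefAut, hT.pi1, coefR_aF, sub_self]
  · rw [map_sub, pi0_coefAut, hT.pi0, map_neg, coefHom_root, sub_self]

omit [IsAlgClosed F] in
theorem RelQ.coefAut (h : b ≠ 0) (hT : IsPt a b T) {u : (AdjoinRoot (poly F L (surf a b)))ˣ} {q : L}
    (hq : RelQ a b T u q) (σ : F ≃ₐ[k] F) :
    RelQ a b T (Units.map ((Ze.coefAut (fixed_surf a b) σ : AdjoinRoot (poly F L (surf a b)) ≃+*
      AdjoinRoot (poly F L (surf a b))) : AdjoinRoot (poly F L (surf a b)) →* AdjoinRoot (poly F L (surf a b))) u)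
      (coefR L σ q) := by
  obtain ⟨v, hv, ⟨y, hy⟩, hvq⟩ := hq
  have h1 : Units.map ((Ze.coefAut (fixed_surf a b) σ : AdjoinRoot (poly F L (surf a b)) ≃+*
      AdjoinRoot (poly F L (surf a b))) : AdjoinRoot (poly F L (surf a b)) →* AdjoinRoot (poly F L (surf a b))) u * v =
      Units.map ((Ze.coefAut (fixed_surf a b) σ : AdjoinRoot (poly F L (surf a b)) ≃+*
      AdjoinRoot (poly F L (surf a b))) : AdjoinRoot (poly F L (surf a b)) →* AdjoinRoot (poly F L (surf a b))) (u * v) := by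
    rw [map_mul]
    congr 1
    rcases hv with rfl | rfl
    · rw [map_one]
    · rw [coefAut_T h hT]
  refine ⟨v, hv, ⟨coefR L σ y, ?_⟩, ?_⟩
  · rw [h1]
    show pi1 F L a b (Ze.coefAut (fixed_surf a b) σ ((u * v : (AdjoinRoot (poly F L (surf a b)))ˣ) : AdjoinRoot _)) = _
    rw [pi1_coefAut, hy, map_pow]
  · rw [h1]
    exact isQ_coefAut a b σ hvq

end

end Pool.Agent.Lib.MP_89bcae_ag.Xe
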