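import Mathlib
import Pool.Agent.Lib.MP_89bcae_ag.Xe.Rel
import Pool.Agent.Lib.MP_89bcae_ag.Xg.Wrap

/-!
# The classes of the surfaces `y ^ 2 = x (x ^ 2 + a(t) x + b(t))`
-/

open Polynomial IsDedekindDomain

open scoped Classical

namespace Pool.Agent.Lib.MP_89bcae_ag.Xe

open Pool.Agent.Lib.MP_89bcae_ag.Ze

open Pool.Agent.Lib.MP_89bcae_ag.Xs (ord aF Cst ord_mul ord_pow ord_inv ord_one ord_algebraMap)

section

variable {X : Type}

/-- The functions with sum `0`, modulo the constant functions. -/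
def IsEven (X : Type) [Fintype X] (y : (X → ZMod 2) ⧸ Cst X) : Prop :=
  ∃ f : X → ZMod 2, ∑ x, f x = 0 ∧ QuotientAddGroup.mk f = y

/-- The action of a permutation on the functions. -/
def permF (g : Equiv.Perm X) : (X → ZMod 2) →+ (X → ZMod 2) where
  toFun f := fun x => f (g⁻¹ x)
  map_zero' := rfl
  map_add' _ _ := rfl

/-- The action of a permutation on the functions modulo the constants. -/
def permQ (g : Equiv.Perm X) : (X → ZMod 2) ⧸ Cst X →+ (X → ZMod 2) ⧸ Cst X :=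
  QuotientAddGroup.map _ _ (permF g) (by
    rintro f ⟨c, hc⟩
    exact ⟨c, fun x => hc _⟩)

lemma permQ_mk (g : Equiv.Perm X) (f : X → ZMod 2) :
    permQ g (QuotientAddGroup.mk f) = QuotientAddGroup.mk fun x => f (g⁻¹ x) := rfl

/-- The image of a stable group. -/
lemma range_stable [Fintype X] (hX : 6 ≤ Fintype.card X) (hX' : Even (Fintype.card X)) (M : AddSubgroup (X → ZMod 2))
    (hM : ∀ f ∈ M, ∑ x, f x = 0) (hst : ∀ g : Equiv.Perm X, ∀ f ∈ M, (fun x => f (g⁻¹ x)) ∈ M) :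
    (∀ f ∈ M, f ∈ Cst X) ∨ ∀ f : X → ZMod 2, ∑ x, f x = 0 → f ∈ M := by
  by_cases h : ∀ f ∈ M, f ∈ Cst X
  · exact Or.inl h
  · push Not at h
    obtain ⟨f, hf, hf'⟩ := h
    exact Or.inr (Xs.heart_irreducible hX hX' M hM (fun g _ => hst g) hf hf')

end

section

variable {k F L : Type} [Field k] [Field F] [Algebra k F] [Field L] [Algebra F[X] L] [IsFractionRing F[X] L]

lemma par_coefR (p : k[X]) (σ : F ≃ₐ[k] F) (q : L) :
    (par p (coefR L σ q) : p.rootSet F → ZMod 2) = fun s => par p q ((rootPerm p σ)⁻¹ s) := by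
  funext s
  show ((ord (s : F) (coefR L σ q) : ℤ) : ZMod 2) = ((ord (((rootPerm p σ)⁻¹ s : p.rootSet F) : F) q : ℤ) : ZMod 2)
  have h1 : (s : F) = σ ((((rootPerm p σ)⁻¹ s : p.rootSet F)) : F) := by
    rw [← rootPerm_apply]
    exact congrArg Subtype.val ((rootPerm p σ).apply_symm_apply s).symm
  rw [h1, ord_coefR]

/-- The first map. -/
noncomputable def mα (a b : k[X]) (u : (AdjoinRoot (poly F L (surf a b)))ˣ) : (b.rootSet F → ZMod 2) ⧸ Cst (b.rootSet F) :=
  QuotientAddGroup.mk (par b (pi1 F L a b u))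

/-- The second map. -/
noncomputable def mβ (a b : k[X]) (T u : (AdjoinRoot (poly F L (surf a b)))ˣ) :
    ((disc a b).rootSet F → ZMod 2) ⧸ Cst ((disc a b).rootSet F) :=
  if h : ∃ q, RelQ a b T u q then QuotientAddGroup.mk (par (disc a b) h.choose) else 0

variable {n : ℕ} {a b : k[X]} {T : (AdjoinRoot (poly F L (surf a b)))ˣ}

/-- The automorphism of the units. -/
noncomputable abbrev um (a b : k[X]) (σ : F ≃ₐ[k] F) :
    (AdjoinRoot (poly F L (surf a b)))ˣ →* (AdjoinRoot (poly F L (surf a b)))ˣ :=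
  Units.map ((coefAut (fixed_surf a b) σ : AdjoinRoot (poly F L (surf a b)) ≃+* AdjoinRoot (poly F L (surf a b))) :
    AdjoinRoot (poly F L (surf a b)) →* AdjoinRoot (poly F L (surf a b)))

lemma mα_mul (u v : (AdjoinRoot (poly F L (surf a b)))ˣ) : mα a b (u * v) = mα a b u + mα a b v := by
  unfold mα
  rw [Units.val_mul, map_mul, par_mul _ (pi1_unit_ne_zero a b u) (pi1_unit_ne_zero a b v)]
  rfl

lemma mα_eq_zero {u : (AdjoinRoot (poly F L (surf a b)))ˣ} :
    mα a b u = 0 ↔ (par b (pi1 F L a b u) : b.rootSet F → ZMod 2) ∈ Cst (b.rootSet F) :=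
  QuotientAddGroup.eq_zero_iff _

lemma mα_um (σ : F ≃ₐ[k] F) (u : (AdjoinRoot (poly F L (surf a b)))ˣ) :
    mα a b (um a b σ u) = permQ (rootPerm b σ) (mα a b u) := by
  unfold mα
  rw [permQ_mk, ← par_coefR, ← pi1_coefAut]
  rfl

variable [IsAlgClosed F]

lemma mβ_eq (h : Hyp F n a b) (hT : IsPt a b T) {u : (AdjoinRoot (poly F L (surf a b)))ˣ} {q : L}
    (hq : RelQ a b T u q) : mβ a b T u = QuotientAddGroup.mk (par (disc a b) q) := by
  have h1 : ∃ q, RelQ a b T u q := ⟨q, hq⟩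
  unfold mβ
  rw [dif_pos h1, QuotientAddGroup.eq, neg_add_eq_sub]
  exact RelQ.unique h hT hq h1.choose_spec

/-- The even functions. -/
lemma sum_α (h : Hyp F n a b) {u : (AdjoinRoot (poly F L (surf a b)))ˣ}
    (hu : u ∈ unramified 2 F (poly F L (surf a b))) : ∑ s, (par b (pi1 F L a b u) : b.rootSet F → ZMod 2) s = 0 := by
  have h1 := sum_pi1 h.natDegree_le h.natDegree_eq h.b_ne hu
  unfold par
  rw [← Int.cast_sum]
  exact cast_eq_zero.2 h1

lemma sum_β (h : Hyp F n a b) (hT : IsPt a b T)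
    (hVU : points 2 (poly F L (surf a b)) ≤ unramified 2 F (poly F L (surf a b)))
    {u : (AdjoinRoot (poly F L (surf a b)))ˣ}
    (hu : u ∈ unramified 2 F (poly F L (surf a b))) {q : L} (hq : RelQ a b T u q) :
    ∑ s, (par (disc a b) q : (disc a b).rootSet F → ZMod 2) s = 0 := by
  obtain ⟨v, hv, -, hvq⟩ := hq
  have hmem : u * v ∈ unramified 2 F (poly F L (surf a b)) := by
    refine Subgroup.mul_mem _ hu ?_
    rcases hv with rfl | rfl
    · exact Subgroup.one_mem _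
    · exact hVU hT.mem
  have h1 := sum_q h.two_ne_zero h.irr h.natDegree_le h.natDegree_eq h.natDegree_disc h.d_ne hmem hvq
  unfold par
  rw [← Int.cast_sum]
  exact cast_eq_zero.2 h1

/-- All the pairs of permutations come from automorphisms. -/
lemma exists_aut (hE : IsGeneral F n a b) (g : Equiv.Perm (b.rootSet F)) (g' : Equiv.Perm ((disc a b).rootSet F)) :
    ∃ σ : F ≃ₐ[k] F, rootPerm b σ = g ∧ rootPerm (disc a b) σ = g' := by
  obtain ⟨σ, h1, h2⟩ := hE.galois g g'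
  exact ⟨σ, Equiv.ext fun s => Subtype.ext (h1 s), Equiv.ext fun s => Subtype.ext (h2 s)⟩

/-- The image of a stable group under the first map. -/
lemma range_α (hE : IsGeneral F n a b) {N : Subgroup (AdjoinRoot (poly F L (surf a b)))ˣ}
    (hNU : N ≤ unramified 2 F (poly F L (surf a b))) (hst : ∀ σ : F ≃ₐ[k] F, ∀ u ∈ N, um a b σ u ∈ N) :
    (∀ u ∈ N, mα a b u = 0) ∨ ∀ y, (∃ u ∈ N, mα a b u = y) ↔ IsEven (b.rootSet F) y := by
  have h := hE.hyp
  have h2n := h.two_le
  let M : AddSubgroup (b.rootSet F → ZMod 2) :=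
    { carrier := {f | ∃ u ∈ N, par b (pi1 F L a b u) = f}
      zero_mem' := ⟨1, N.one_mem, by
        have h1 := par_sq (F := F) b (1 : L)
        rwa [one_pow, ← map_one (pi1 F L a b), ← Units.val_one] at h1⟩
      add_mem' := by
        rintro f g ⟨u, hu, rfl⟩ ⟨v, hv, rfl⟩
        exact ⟨u * v, N.mul_mem hu hv, by
          rw [Units.val_mul, map_mul, par_mul _ (pi1_unit_ne_zero a b u) (pi1_unit_ne_zero a b v)]⟩
      neg_mem' := by
        rintro f ⟨u, hu, rfl⟩
        refine ⟨u, hu, ?_⟩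
        funext s
        exact (CharTwo.neg_eq _).symm }
  rcases range_stable (X := b.rootSet F) (by rw [h.card_b]; omega) (by rw [h.card_b]; exact ⟨2 * n, by ring⟩) M
    (by
      rintro f ⟨u, hu, rfl⟩
      exact sum_α h (hNU hu))
    (by
      rintro g f ⟨u, hu, rfl⟩
      obtain ⟨σ, hσ, -⟩ := exists_aut hE g 1
      refine ⟨_, hst σ u hu, ?_⟩
      show par b (pi1 F L a b (coefAut (fixed_surf a b) σ (u : AdjoinRoot (poly F L (surf a b))))) = _
      rw [pi1_coefAut, par_coefR, hσ]) with h1 | h1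
  · left
    intro u hu
    rw [mα_eq_zero]
    exact h1 _ ⟨u, hu, rfl⟩
  · right
    intro y
    constructor
    · rintro ⟨u, hu, rfl⟩
      exact ⟨_, sum_α h (hNU hu), rfl⟩
    · rintro ⟨f, hf, rfl⟩
      obtain ⟨u, hu, rfl⟩ := h1 f hf
      exact ⟨u, hu, rfl⟩

/-- The image of a stable group under the second map. -/
lemma range_β (hE : IsGeneral F n a b) (hT : IsPt a b T)
    (hVU : points 2 (poly F L (surf a b)) ≤ unramified 2 F (poly F L (surf a b)))
    {N : Subgroup (AdjoinRoot (poly F L (surf a b)))ˣ}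
    (hNU : N ≤ unramified 2 F (poly F L (surf a b))) (hst : ∀ σ : F ≃ₐ[k] F, ∀ u ∈ N, um a b σ u ∈ N) :
    (∀ u ∈ N, mα a b u = 0 → mβ a b T u = 0) ∨
      ∀ y, (∃ u ∈ N, mα a b u = 0 ∧ mβ a b T u = y) ↔ IsEven ((disc a b).rootSet F) y := by
  have h := hE.hyp
  have h2n := h.two_le
  have hex : ∀ u ∈ N, mα a b u = 0 → ∃ q, RelQ a b T u q := fun u hu hu' =>
    exists_relQ h hT hVU (hNU hu) (mα_eq_zero.1 hu')
  let M : AddSubgroup ((disc a b).rootSet F → ZMod 2) :=
    { carrier := {f | ∃ u ∈ N, mα a b u = 0 ∧ ∃ q, RelQ a b T u q ∧ par (disc a b) q = f}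
      zero_mem' := by
        refine ⟨1, N.one_mem, ?_, 1, ⟨1, Or.inl rfl, ⟨1, ?_⟩, ?_⟩, ?_⟩
        · have h1 := mα_mul (F := F) (L := L) (a := a) (b := b) 1 1
          rw [mul_one] at h1
          exact left_eq_add.1 h1
        · rw [mul_one, Units.val_one, map_one, one_pow]
        · have h1 := isQ_sq (F := F) (L := L) (a := a) (b := b) 1
          rw [one_pow] at h1
          rwa [mul_one]
        · have h1 := par_sq (F := F) (disc a b) (1 : L)
          rwa [one_pow] at h1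
      add_mem' := by
        rintro f g ⟨u, hu, hu', q, hq, rfl⟩ ⟨v, hv, hv', q', hq', rfl⟩
        refine ⟨u * v, N.mul_mem hu hv, by rw [mα_mul, hu', hv', add_zero], q * q', hq.mul h hT hq', ?_⟩
        rw [par_mul _ hq.choose_spec.2.2.1 hq'.choose_spec.2.2.1]
      neg_mem' := by
        rintro f ⟨u, hu, hu', q, hq, rfl⟩
        refine ⟨u, hu, hu', q, hq, ?_⟩
        funext s
        exact (CharTwo.neg_eq _).symm }
  rcases range_stable (X := (disc a b).rootSet F) (by rw [h.card_d]; omega)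
    (by rw [h.card_d]; exact ⟨2 * n, by ring⟩) M
    (by
      rintro f ⟨u, hu, hu', q, hq, rfl⟩
      exact sum_β h hT hVU (hNU hu) hq)
    (by
      rintro g f ⟨u, hu, hu', q, hq, rfl⟩
      obtain ⟨σ, -, hσ⟩ := exists_aut hE 1 g
      refine ⟨_, hst σ u hu, by rw [mα_um, hu', map_zero], coefR L σ q, hq.coefAut h.b_ne hT σ, ?_⟩
      rw [par_coefR, hσ]) with h1 | h1
  · left
    intro u hu hu'
    obtain ⟨q, hq⟩ := hex u hu hu'
    rw [mβ_eq h hT hq, QuotientAddGroup.eq_zero_iff]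
    exact h1 _ ⟨u, hu, hu', q, hq, rfl⟩
  · right
    intro y
    constructor
    · rintro ⟨u, hu, hu', rfl⟩
      obtain ⟨q, hq⟩ := hex u hu hu'
      exact ⟨_, sum_β h hT hVU (hNU hu) hq, (mβ_eq h hT hq).symm⟩
    · rintro ⟨f, hf, rfl⟩
      obtain ⟨u, hu, hu', q, hq, rfl⟩ := h1 f hf
      exact ⟨u, hu, hu', mβ_eq h hT hq⟩

/-- The two maps. -/
theorem twoMaps (hE : IsGeneral F n a b) (hT : IsPt a b T)
    (hVU : points 2 (poly F L (surf a b)) ≤ unramified 2 F (poly F L (surf a b)))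
    {N : Subgroup (AdjoinRoot (poly F L (surf a b)))ˣ} (hVN : points 2 (poly F L (surf a b)) ≤ N)
    (hNU : N ≤ unramified 2 F (poly F L (surf a b))) (hst : ∀ σ : F ≃ₐ[k] F, ∀ u ∈ N, um a b σ u ∈ N) :
    TwoMaps (unramified 2 F (poly F L (surf a b))) (points 2 (poly F L (surf a b))) N (mα a b) (mβ a b T)
      (IsEven (b.rootSet F)) (IsEven ((disc a b).rootSet F)) := by
  have h := hE.hyp
  have hex : ∀ u ∈ unramified 2 F (poly F L (surf a b)), mα a b u = 0 → ∃ q, RelQ a b T u q := fun u hu hu' =>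
    exists_relQ h hT hVU hu (mα_eq_zero.1 hu')
  have hVst : ∀ σ : F ≃ₐ[k] F, ∀ u ∈ points 2 (poly F L (surf a b)), um a b σ u ∈ points 2 (poly F L (surf a b)) :=
    fun σ u hu => points_coefAut (fixed_surf a b) σ hu
  refine ⟨hVN, hNU, mα_mul, ?_, ?_, range_α hE hNU hst, range_α hE hVU hVst, ?_, range_β hE hT hVU hNU hst,
    range_β hE hT hVU hVU hVst, ?_⟩
  · intro u hu hu' v hv hv'
    obtain ⟨q, hq⟩ := hex u hu hu'
    obtain ⟨q', hq'⟩ := hex v hv hv'
    rw [mβ_eq h hT hq, mβ_eq h hT hq', mβ_eq h hT (hq.mul h hT hq'),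
      par_mul _ hq.choose_spec.2.2.1 hq'.choose_spec.2.2.1]
    rfl
  · intro u hu hu' hu2
    obtain ⟨q, hq⟩ := hex u hu hu'
    rw [mβ_eq h hT hq, QuotientAddGroup.eq_zero_iff] at hu2
    exact hq.mem_points h hT hVU hu hu2
  · intro u hu
    exact ⟨_, sum_α h hu, rfl⟩
  · intro u hu hu'
    obtain ⟨q, hq⟩ := hex u hu hu'
    exact ⟨_, sum_β h hT hVU hu hq, (mβ_eq h hT hq).symm⟩

omit [IsAlgClosed F] in
lemma exists_pt (hb : b ≠ 0) : ∃ T : (AdjoinRoot (poly F L (surf a b)))ˣ, IsPt a b T := by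
  obtain ⟨T, h1, h2, h3⟩ := exists_point (F := F) (L := L) (a := a) hb
  exact ⟨T, h1, h2, h3⟩

/-- The group is finite. -/
theorem relIndex_ne (hE : IsGeneral F n a b)
    (hVU : points 2 (poly F L (surf a b)) ≤ unramified 2 F (poly F L (surf a b))) :
    (points 2 (poly F L (surf a b))).relIndex (unramified 2 F (poly F L (surf a b))) ≠ 0 := by
  obtain ⟨T, hT⟩ := exists_pt (F := F) (L := L) (a := a) hE.hyp.b_ne
  have hVst : ∀ σ : F ≃ₐ[k] F, ∀ u ∈ points 2 (poly F L (surf a b)), um a b σ u ∈ points 2 (poly F L (surf a b)) :=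
    fun σ u hu => points_coefAut (fixed_surf a b) σ hu
  have hM := twoMaps hE hT hVU le_rfl hVU hVst
  exact hM.relIndex_ne

/-- **The surfaces are mixing.** -/
theorem isMixing_surf (hE : IsGeneral F n a b)
    (hVU : points 2 (poly F L (surf a b)) ≤ unramified 2 F (poly F L (surf a b))) :
    IsMixing (galois 2 k F (poly F L (surf a b))) (unramified 2 F (poly F L (surf a b)))
      (points 2 (poly F L (surf a b))) := by
  obtain ⟨T, hT⟩ := exists_pt (F := F) (L := L) (a := a) hE.hyp.b_ne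
  have h := hE.hyp
  have h2n := h.two_le
  have hd : (poly F L (surf a b)).degree ≠ 0 := by
    rw [Polynomial.degree_eq_natDegree (poly_monic a b).ne_zero, poly_natDegree]
    norm_num
  have hVst : ∀ σ : F ≃ₐ[k] F, ∀ u ∈ points 2 (poly F L (surf a b)), um a b σ u ∈ points 2 (poly F L (surf a b)) :=
    fun σ u hu => points_coefAut (fixed_surf a b) σ hu
  intro Γ _ ρ hρ r A N hVN hNU th hadd hran hker hact
  -- the automorphisms of `F`
  have hex : ∀ γ : Γ, ∃ σ : F ≃ₐ[k] F, coefAut (fixed_surf (F := F) (L := L) a b) σ = ρ γ := by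
    intro γ
    have h1 : ρ γ ∈ galois 2 k F (poly F L (surf a b)) := by
      rw [← hρ]
      exact ⟨γ, rfl⟩
    obtain ⟨σ, -, hσ⟩ := exists_coefAut (fixed_surf a b) hd h1
    exact ⟨σ, hσ⟩
  choose τ hτ using hex
  let τ' : Γ →* (F ≃ₐ[k] F) := MonoidHom.mk' τ fun γ γ' => by
    apply coefAut_injective (fixed_surf (F := F) (L := L) a b) hd
    rw [hτ, map_mul, map_mul, hτ, hτ]
  have hsurj : ∀ σ : F ≃ₐ[k] F, ∃ γ, τ' γ = σ := by
    intro σ
    have h1 : coefAut (fixed_surf (F := F) (L := L) a b) σ ∈ ρ.range := by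
      rw [hρ]
      refine coefAut_mem _ fun c hc => ?_
      rcases sq_eq_one_iff.mp hc with h | h
      · rw [h, map_one]
      · rw [h, map_neg, map_one]
    obtain ⟨γ, hγ⟩ := h1
    refine ⟨γ, coefAut_injective (fixed_surf (F := F) (L := L) a b) hd ?_⟩
    rw [← hγ]
    exact hτ γ
  let q : Γ →* Equiv.Perm (b.rootSet F) × Equiv.Perm ((disc a b).rootSet F) :=
    ((rootPerm b).prod (rootPerm (disc a b))).comp τ'
  have hq : Function.Surjective q := by
    rintro ⟨g, g'⟩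
    obtain ⟨σ, h1, h2⟩ := exists_aut hE g g'
    obtain ⟨γ, rfl⟩ := hsurj σ
    exact ⟨γ, Prod.ext h1 h2⟩
  have hth : ∀ v, th v ∈ N := fun v => (hran _).2 ⟨v, by rw [div_self']; exact Subgroup.one_mem _⟩
  have hact' : ∀ γ v, um a b (τ γ) (th v) / th (A γ v) ∈ points 2 (poly F L (surf a b)) := by
    intro γ v
    have h1 := hact γ v
    rwa [← hτ γ] at h1
  have hNst : ∀ σ : F ≃ₐ[k] F, ∀ u ∈ N, um a b σ u ∈ N := by
    intro σ u hu
    obtain ⟨γ, hγ⟩ := hsurj σ
    obtain ⟨v, hv⟩ := (hran u).1 hu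
    have h1 := hVst σ _ hv
    have h2 := hact' γ v
    have hγ' : τ γ = σ := hγ
    rw [hγ'] at h2
    rw [_root_.map_div] at h1
    refine (hran _).2 ⟨A γ v, ?_⟩
    have h3 := Subgroup.mul_mem _ h1 h2
    rwa [div_mul_div_cancel] at h3
  have hM := twoMaps hE hT hVU hVN hNU hNst
  have hth' : ∀ u ∈ N, ∃ v, u / th v ∈ points 2 (poly F L (surf a b)) := fun u hu => (hran u).1 hu
  have key : TwoStep q A (hM.dX hadd) (hM.dY hadd hth) := by
    refine ⟨hM.ranX hadd hth hth', hM.ranY hadd hth hth', fun v => ?_, fun γ v f hv => ?_, fun γ v v' f hv hf => ?_⟩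
    · rw [hM.kerY hadd hth, hker]
    · rw [hM.actX hadd (um a b (τ γ)) (permQ (rootPerm b (τ γ))) (map_zero _) (fun u => mα_um _ u) (hact' γ v), hv]
      rfl
    · have h1 : um a b (τ γ) (th v) / th v' ∈ points 2 (poly F L (surf a b)) := by
        rw [hv]
        exact hact' γ v
      rw [hM.actY hadd hth (um a b (τ γ)) (hVst (τ γ)) (fun u hu => by rw [mα_um, hu, map_zero])
        (permQ (rootPerm (disc a b) (τ γ))) (map_zero _) (fun u hu hu' => ?_) h1, hf]
      · rfl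
      · obtain ⟨q, hq⟩ := exists_relQ h hT hVU hu (mα_eq_zero.1 hu')
        rw [mβ_eq h hT hq, mβ_eq h hT (hq.coefAut h.b_ne hT (τ γ)), permQ_mk, par_coefR]
  exact key.exists_elt (by rw [h.card_b]; exact ⟨n, rfl⟩) (by rw [h.card_b]; omega)
    (by rw [h.card_d]; exact ⟨n, rfl⟩) (by rw [h.card_d]; omega) hq

end

end Pool.Agent.Lib.MP_89bcae_ag.Xe
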