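import Mathlib
import Pool.Agent.Lib.MP_89bcae_ag.Zt.DefsT

/-!
# From one automorphism to the Galois groups
-/

open Polynomial

open scoped Classical

namespace Pool.Agent.Lib.MP_89bcae_ag.Xe

open Pool.Agent.Lib.MP_89bcae_ag.Zt (BrauerInvariantsTrivialOne)

open Pool.Agent.Lib.MP_89bcae_ag.Bra (BrauerInvariantsTrivial)

/-- An automorphism which maps a finite set to itself has a power which fixes its elements. -/
lemma exists_pow_fix {S : Type} (δ : Equiv.Perm S) (R : Finset S) (h : ∀ x ∈ R, δ x ∈ R) :
    ∃ n : ℕ, 0 < n ∧ ∀ x ∈ R, (δ ^ n) x = x := by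
  have hinj : Function.Injective (fun x : R => (⟨δ x, h x x.2⟩ : R)) := fun x y hxy =>
    Subtype.ext (δ.injective (congrArg Subtype.val hxy))
  let g : Equiv.Perm R := Equiv.ofBijective _ (Finite.injective_iff_bijective.1 hinj)
  have hg : ∀ (n : ℕ) (x : R), (((g ^ n) x : R) : S) = (δ ^ n) x := by
    intro n
    induction n with
    | zero => intro x; rfl
    | succ n ih =>
      intro x
      rw [pow_succ, pow_succ, Equiv.Perm.mul_apply, Equiv.Perm.mul_apply, ih]
      rfl
  refine ⟨orderOf g, orderOf_pos g, fun x hx => ?_⟩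
  have h1 := hg (orderOf g) ⟨x, hx⟩
  rw [pow_orderOf_eq_one] at h1
  exact h1.symm

/-- If no power of one automorphism over `k(t, x, y)` fixes a nonzero class then, for all the finite extensions `k'` of `k`,
the automorphisms over `k'(t, x, y)` fix none. -/
theorem trivial_of_one {ℓ : ℕ} {k F K S : Type} [Field k] [Field F] [Algebra k F] [Field K] [Algebra F K] [Field S]
    [Algebra K S] {t x y : K} (h : BrauerInvariantsTrivialOne ℓ k F S t x y) (k' : IntermediateField k F)
    [hk : FiniteDimensional k k'] : BrauerInvariantsTrivial ℓ S k' t x y := by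
  obtain ⟨δ, ⟨h1, h2, h3, h4⟩, h5⟩ := h
  let i : F →+* S := (algebraMap K S).comp (algebraMap F K)
  let i0 : k →+* S := i.comp (algebraMap k F)
  have hδ : (δ : S →+* S).comp i0 = i0 := RingHom.ext h1
  -- the finite set
  let s : Finset F := Finset.univ.image fun j => ((Module.finBasis k k' j : k') : F)
  let P : k[X] := ∏ c ∈ s, minpoly k c
  have hint : ∀ c ∈ k', IsIntegral k c := fun c hc => by
    have h6 := Algebra.IsIntegral.isIntegral (R := k) (⟨c, hc⟩ : k')
    exact h6.map k'.val
  have hs : ∀ c ∈ s, c ∈ k' := by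
    intro c hc
    obtain ⟨j, -, rfl⟩ := Finset.mem_image.1 hc
    exact (Module.finBasis k k' j).2
  have hP : P ≠ 0 := Finset.prod_ne_zero_iff.2 fun c hc => minpoly.ne_zero (hint c (hs c hc))
  let R : Finset S := (P.map i0).roots.toFinset
  have hP' : P.map i0 ≠ 0 := (Polynomial.map_ne_zero_iff i0.injective).2 hP
  have hR : ∀ z ∈ R, δ z ∈ R := by
    intro z hz
    rw [Multiset.mem_toFinset, mem_roots hP', IsRoot.def, eval_map] at hz ⊢
    have h6 : δ (eval₂ i0 z P) = eval₂ i0 (δ z) P := by
      have h7 := hom_eval₂ P i0 (δ : S →+* S) z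
      rw [hδ] at h7
      exact h7
    rw [← h6, hz, map_zero]
  have hsR : ∀ c ∈ s, i c ∈ R := by
    intro c hc
    rw [Multiset.mem_toFinset, mem_roots hP', IsRoot.def, eval_map]
    have h6 : eval₂ i0 (i c) P = i (aeval c P) := by
      rw [aeval_def, hom_eval₂]
    rw [h6]
    have h7 : aeval c P = 0 := by
      show aeval c (∏ c ∈ s, minpoly k c) = 0
      rw [map_prod]
      exact Finset.prod_eq_zero hc (minpoly.aeval k c)
    rw [h7, map_zero]
  obtain ⟨n, hn, hfix⟩ := exists_pow_fix (δ : S ≃ S) R hR
  have hpow : ∀ z : S, ((δ : S ≃ S) ^ n) z = (δ ^ n) z := by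
    intro z
    have key : ∀ m : ℕ, ∀ z : S, (((δ : S ≃ S) : Equiv.Perm S) ^ m) z = (δ ^ m) z := by
      intro m
      induction m with
      | zero => intro z; rfl
      | succ m ih =>
        intro z
        rw [pow_succ, pow_succ, Equiv.Perm.mul_apply, RingAut.mul_apply, ih]
        rfl
    exact key n z
  have hk' : ∀ c : F, c ∈ k' → (δ ^ n) (i c) = i c := by
    intro c hc
    have h6 := (Module.finBasis k k').sum_repr ⟨c, hc⟩
    have h7 : c = ∑ j, algebraMap k F ((Module.finBasis k k').repr ⟨c, hc⟩ j) * ((Module.finBasis k k' j : k') : F) := by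
      have h8 := congrArg (fun z : k' => (z : F)) h6
      simp only [AddSubmonoidClass.coe_finset_sum, IntermediateField.coe_smul] at h8
      refine h8.symm.trans ?_
      refine Finset.sum_congr rfl fun j _ => ?_
      rw [Algebra.smul_def]
    have h9 : ∀ c : k, (δ ^ n) (i (algebraMap k F c)) = i (algebraMap k F c) := by
      intro c
      have key : ∀ m : ℕ, (δ ^ m) (i (algebraMap k F c)) = i (algebraMap k F c) := by
        intro m
        induction m with
        | zero => rfl
        | succ m ih =>
          rw [pow_succ, RingAut.mul_apply]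
          have h10 : δ (i (algebraMap k F c)) = i (algebraMap k F c) := h1 c
          rw [h10, ih]
      exact key n
    rw [h7, map_sum, map_sum]
    refine Finset.sum_congr rfl fun j _ => ?_
    rw [map_mul, map_mul, h9]
    congr 1
    rw [← hpow]
    exact hfix _ (hsR _ (Finset.mem_image.2 ⟨j, Finset.mem_univ _, rfl⟩))
  have hfx : ∀ z : S, δ z = z → (δ ^ n) z = z := by
    intro z hz
    have key : ∀ m : ℕ, (δ ^ m) z = z := by
      intro m
      induction m with
      | zero => rfl
      | succ m ih => rw [pow_succ, RingAut.mul_apply, hz, ih]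
    exact key n
  intro b hb hun hfx'
  exact h5 n hn b hb hun fun m => hfx' (δ ^ n) (fun c hc => hk' c hc) (hfx _ h2) (hfx _ h3) (hfx _ h4) m

end Pool.Agent.Lib.MP_89bcae_ag.Xe
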