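import Mathlib
import Pool.Agent.Lib.MP_89bcae_ag.Xe.Mix
import Pool.Agent.Lib.MP_89bcae_ag.Xe.Mac
import Pool.Agent.Lib.MP_89bcae_ag.Xe.TOne

/-!
# The Brauer classes of the elliptic surfaces `y ^ 2 = x (x ^ 2 + a(t) x + b(t))`
-/

open Polynomial

open scoped Classical

namespace Pool.Agent.Lib.MP_89bcae_ag.Xe

open Pool.Agent.Lib.MP_89bcae_ag.Ze

open Pool.Agent.Lib.MP_89bcae_ag.Zs (IsCoverField)

open Pool.Agent.Lib.MP_89bcae_ag.Bra (BrauerInvariantsTrivial)

open Pool.Agent.Lib.MP_89bcae_ag.Zt (BrauerInvariantsTrivialOne)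

/-- No power of one automorphism fixes a Brauer class. -/
theorem one_general {k F : Type} [Field k] [Field F] [Algebra k F] [IsAlgClosure k F] {n : ℕ} {a b : k[X]}
    (hE : IsGeneral F n a b) (K S : Type) [Field K] [Algebra F K] [Field S] [Algebra K S] [IsAlgClosure K S]
    (t x y : K) (h : IsCoverField 2 F (surf a b) t x y) : BrauerInvariantsTrivialOne 2 k F S t x y := by
  have : IsAlgClosed F := IsAlgClosure.isAlgClosed k
  exact one_of_mixing hE.two_ne_zero (isBranch_surf hE.two_ne_zero hE.hyp.b_ne hE.hyp.d_ne) rfl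
    (fun hVU => ⟨relIndex_ne hE hVU, isMixing_surf hE hVU⟩) K S t x y h

end Pool.Agent.Lib.MP_89bcae_ag.Xe
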